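import Pool.Agent.U233.TF.Lin

/-!
# The intertwining maps
-/

set_option autoImplicit false
set_option linter.unusedSectionVars false

namespace Pool.Agent.U233.TF

open Module Pool.Agent.N179.GR Pool.Agent.U233.FG

noncomputable section

variable {K : Type} [Field K] {V : Type} [AddCommGroup V] [Module K V]
  {U : Type} [AddCommGroup U] [Module K U]

/-- the intertwining maps -/
def IT (ψ : V →ₗ[K] V →ₗ[K] K) (E : K) (Φ : Module.End K V →ₗ[K] Module.End K U) :
    Submodule K (V →ₗ[K] U) where
  carrier := {f | ∀ x y v, SU ψ E Φ x y (f v) = f (SZ ψ E x y v)}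
  zero_mem' := fun x y v => by
    rw [LinearMap.zero_apply, LinearMap.zero_apply, map_zero]
  add_mem' := fun {f f'} hf hf' x y v => by
    rw [LinearMap.add_apply, LinearMap.add_apply, map_add, hf, hf']
  smul_mem' := fun c f hf x y v => by
    rw [LinearMap.smul_apply, LinearMap.smul_apply, map_smul, hf]

/-- the action of the operators on the linear maps -/
def homD (θ : Module.End K V) (η : Module.End K U) : Module.End K (V →ₗ[K] U) where
  toFun f := η ∘ₗ f - f ∘ₗ θ
  map_add' f f' := by
    refine LinearMap.ext fun v => ?_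
    simp only [LinearMap.sub_apply, LinearMap.comp_apply, LinearMap.add_apply, map_add]
    abel
  map_smul' c f := by
    refine LinearMap.ext fun v => ?_
    simp only [LinearMap.sub_apply, LinearMap.comp_apply, LinearMap.smul_apply, map_smul,
      RingHom.id_apply, smul_sub]

theorem homD_apply (θ : Module.End K V) (η : Module.End K U) (f : V →ₗ[K] U) (v : V) :
    homD θ η f v = η (f v) - f (θ v) := rfl

/-- a basis of eigenvectors -/
theorem Dia.exists_basis [FiniteDimensional K V] {θ : Module.End K V} (h : Dia θ) :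
    ∃ (n : ℕ) (b : Basis (Fin n) K V) (w : Fin n → ℤ), ∀ i, θ (b i) = (w i : K) • b i := by
  obtain ⟨s, hs, b, hb⟩ : ∃ (s : Set V) (_ : s ⊆ {y | ∃ n : ℤ, θ y = (n : K) • y})
      (b : Basis s K V), ∀ i, b i = (i : V) := by
    obtain ⟨s, hs1, hs2, hs3⟩ := exists_linearIndependent K {y : V | ∃ n : ℤ, θ y = (n : K) • y}
    refine ⟨s, hs1, Basis.mk hs3 ?_, fun i => ?_⟩
    · rw [Subtype.range_coe, hs2]
      intro x _
      exact h x
    · rw [Basis.mk_apply]
  have hfin : Finite s := b.linearIndependent.finite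
  obtain ⟨n, ⟨e⟩⟩ := Finite.exists_equiv_fin s
  choose w hw using fun i : s => hs i.2
  refine ⟨n, b.reindex e, fun i => w (e.symm i), fun i => ?_⟩
  rw [Basis.reindex_apply, hb]
  exact hw _

theorem Dia.hom [FiniteDimensional K V] {θ : Module.End K V} {η : Module.End K U} (hθ : Dia θ)
    (hη : Dia η) : Dia (homD θ η) := by
  obtain ⟨n, b, w, hw⟩ := hθ.exists_basis
  intro f
  have h1 : f = ∑ i, (b.coord i).smulRight (f (b i)) := by
    refine b.ext fun j => ?_
    rw [LinearMap.sum_apply, Finset.sum_eq_single j]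
    · rw [LinearMap.smulRight_apply, Basis.coord_apply, Basis.repr_self, Finsupp.single_eq_same,
        one_smul]
    · intro i _ hi
      rw [LinearMap.smulRight_apply, Basis.coord_apply, Basis.repr_self,
        Finsupp.single_eq_of_ne hi, zero_smul]
    · exact fun h => absurd (Finset.mem_univ j) h
  rw [h1]
  refine Submodule.sum_mem _ fun i _ => ?_
  generalize f (b i) = u
  induction hη u using Submodule.span_induction with
  | mem u hu =>
    obtain ⟨m, hm⟩ := hu
    refine Submodule.subset_span ⟨m - w i, b.ext fun j => ?_⟩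
    rw [homD_apply, hw, LinearMap.smul_apply, map_smul, LinearMap.smulRight_apply, map_smul, hm]
    by_cases hij : j = i
    · subst hij
      push_cast
      module
    · rw [Basis.coord_apply, Basis.repr_self, Finsupp.single_eq_of_ne (Ne.symm hij)]
      simp
  | zero => simp
  | add u u' _ _ hu hu' =>
    have h2 : (b.coord i).smulRight (u + u') = (b.coord i).smulRight u +
      (b.coord i).smulRight u' := by
      refine LinearMap.ext fun v => ?_
      simp
    rw [h2]
    exact Submodule.add_mem _ hu hu'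
  | smul c u _ hu =>
    have h2 : (b.coord i).smulRight (c • u) = c • (b.coord i).smulRight u := by
      refine LinearMap.ext fun v => ?_
      simp only [LinearMap.smulRight_apply, LinearMap.smul_apply]
      rw [smul_comm]
    rw [h2]
    exact Submodule.smul_mem _ _ hu

section it

variable {ψ : V →ₗ[K] V →ₗ[K] K} {E : K} {Φ : Module.End K V →ₗ[K] Module.End K U}

/-- maps which kill two vectors -/
theorem IT_zero {f : V →ₗ[K] U} (hf : f ∈ IT ψ E Φ) {v x : V} (hv : f v = 0) (hx : f x = 0)
    (hxv : ψ x v ≠ 0) : f = 0 := by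
  refine LinearMap.ext fun y => ?_
  have h1 := hf x y v
  rw [hv, map_zero, SZ_apply, map_sub, map_smul, map_smul, map_smul, hx, smul_zero, smul_zero,
    sub_zero] at h1
  exact (smul_eq_zero.1 h1.symm).resolve_left hxv

variable [CharZero K]

/-- maps which kill one extreme part -/
theorem IT_zero' {f : V →ₗ[K] U} (hf : f ∈ IT ψ E Φ) {n : ℕ}
    {u c : Fin n → V} (h1 : ∀ i, ψ (c i) (u i) ≠ 0)
    (h0 : ∀ i j, i ≠ j → ψ (c i) (u j) = 0) (hn : (E = -1 ∧ 0 < n) ∨ 1 < n)
    (hu : ∀ i, f (u i) = 0) : f = 0 := by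
  rcases hn with ⟨rfl, hn⟩ | hn
  · let i : Fin n := ⟨0, hn⟩
    refine IT_zero hf (hu i) (x := c i) ?_ (h1 i)
    have h2 := hf (c i) (c i) (u i)
    rw [hu, map_zero, SZ_apply, map_sub, map_smul, map_smul, map_smul, neg_one_smul,
      sub_neg_eq_add, ← add_smul] at h2
    refine (smul_eq_zero.1 h2.symm).resolve_left ?_
    rw [← two_mul]
    exact mul_ne_zero two_ne_zero (h1 i)
  · let i : Fin n := ⟨0, by omega⟩
    let j : Fin n := ⟨1, hn⟩
    have hij : i ≠ j := by
      intro h1
      have h2 := congrArg Fin.val h1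
      exact absurd h2 (by norm_num [i, j])
    refine IT_zero hf (hu i) (x := c i) ?_ (h1 i)
    have h2 := hf (c j) (c i) (u j)
    rw [hu, map_zero, SZ_apply, h0 i j hij, zero_smul, smul_zero, sub_zero, map_smul] at h2
    exact (smul_eq_zero.1 h2.symm).resolve_left (h1 j)

variable (hs : ∀ x y, ψ x y = E * ψ y x) {θ : Module.End K V} {η : Module.End K U}

include hs

/-- **Maps of degree different from zero vanish.** -/
theorem IT_deg {d : ℤ} (hU : ∀ n, (d < n ∨ n < -d) → ∀ u ∈ wt η n, u = 0)
    {n : ℕ} {u c : Fin n → V} (hD : SoRel.Dual ψ (wt θ) d u c)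
    (hn : (E = -1 ∧ 0 < n) ∨ 1 < n) (hE0 : E ≠ 0) {m : ℤ} (hm : m ≠ 0) {f : V →ₗ[K] U}
    (hf : f ∈ IT ψ E Φ) (hfm : f ∈ wt (homD θ η) m) : f = 0 := by
  have hval : ∀ l, ∀ x ∈ wt θ l, (d < m + l ∨ m + l < -d) → f x = 0 := by
    intro l x hx hl
    refine hU (m + l) hl _ ?_
    have h1 := LinearMap.congr_fun (mem_wt.1 hfm) x
    rw [homD_apply, mem_wt.1 hx, map_smul, LinearMap.smul_apply, sub_eq_iff_eq_add] at h1
    rw [mem_wt, h1]
    push_cast
    rw [add_smul]
  rcases lt_or_gt_of_ne hm with hm | hm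
  · refine IT_zero' hf (u := fun i => c i) (c := fun i => u i)
      (fun i => ?_) (fun i j hij => hD.zero i j hij) hn fun i => hval _ _ (hD.memc i) (by omega)
    rw [hD.one]
    exact one_ne_zero
  · refine IT_zero' hf (u := fun i => u i) (c := fun i => c i)
      (fun i => ?_) (fun i j hij => ?_) hn fun i => hval _ _ (hD.memu i) (by omega)
    · rw [hs, hD.one, mul_one]
      exact hE0
    · rw [hs, hD.zero j i hij.symm, mul_zero]

/-- **The intertwining maps have degree zero.** -/
theorem IT_pure [FiniteDimensional K V] (hE : E * E = 1) (hθ : Dia θ) (hη : Dia η)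
    (hst : ∀ f ∈ IT ψ E Φ, homD θ η f ∈ IT ψ E Φ) {d : ℤ}
    (hU : ∀ n, (d < n ∨ n < -d) → ∀ u ∈ wt η n, u = 0)
    {n : ℕ} {u c : Fin n → V} (hD : SoRel.Dual ψ (wt θ) d u c)
    (hn : (E = -1 ∧ 0 < n) ∨ 1 < n) {f : V →ₗ[K] U} (hf : f ∈ IT ψ E Φ) : homD θ η f = 0 := by
  have hE0 : E ≠ 0 := by
    rintro rfl
    rw [zero_mul] at hE
    exact zero_ne_one hE
  obtain ⟨s, F, hF, rfl⟩ := (hθ.hom hη).dec f
  have hFm := comp_mem hst s F (fun m _ => hF m) hf
  rw [map_sum]
  refine Finset.sum_eq_zero fun m hm => ?_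
  by_cases hm0 : m = 0
  · rw [mem_wt.1 (hF m), hm0, Int.cast_zero, zero_smul]
  · rw [IT_deg hs hU hD hn hE0 hm0 (hFm m hm) (hF m), map_zero]

/-- **The evaluation is injective.** -/
theorem IT_inj (hE : E * E = 1) (hnd : ∀ x, (∀ y, ψ x y = 0) → x = 0) {DV : ℤ → Submodule K V}
    {d : ℤ} (hdd : ∀ a ∈ DV d, ∀ b ∈ DV d, ψ a b = 0) {n : ℕ} {u c : Fin n → V}
    (hD : SoRel.Dual ψ DV d u c) (hn : E = -1 ∨ 1 < n) {m : ℕ} {f : Fin m → V →ₗ[K] U}
    {v : Fin m → V} (hf : ∀ i, f i ∈ IT ψ E Φ) (hli : LinearIndependent K f)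
    (h0 : ∑ i, f i (v i) = 0) (i : Fin m) : v i = 0 := by
  let F : V →ₗ[K] (V →ₗ[K] U) := ∑ i, (ψ.flip (v i)).smulRight (f i)
  have hFd : ∀ x, F x = ∑ i, ψ x (v i) • f i := by
    intro x
    simp only [F, LinearMap.sum_apply, LinearMap.smulRight_apply, LinearMap.flip_apply]
  have hFm : ∀ x, F x ∈ IT ψ E Φ := by
    intro x
    rw [hFd]
    exact Submodule.sum_mem _ fun i _ => Submodule.smul_mem _ _ (hf i)
  have h1 : ∀ x y, F x y = E • F y x := by
    intro x y
    have h2 := congrArg (SU ψ E Φ x y) h0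
    rw [map_sum, map_zero] at h2
    have h3 : ∀ i, SU ψ E Φ x y (f i (v i)) = ψ x (v i) • f i y - E • (ψ y (v i) • f i x) := by
      intro i
      rw [hf i, SZ_apply, map_sub, map_smul, map_smul, map_smul]
    rw [Finset.sum_congr rfl fun i _ => h3 i, Finset.sum_sub_distrib, sub_eq_zero,
      ← Finset.smul_sum] at h2
    rw [hFd, hFd, LinearMap.sum_apply, LinearMap.sum_apply]
    exact h2
  have h2 : ∀ a b x y, F x (SZ ψ E a b y) = F (SZ ψ E a b x) y := by
    intro a b x y
    rw [← hFm x, h1 x y, map_smul, hFm y, h1 y, smul_smul, hE, one_smul]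
  have key : ∀ x, F x = 0 := by
    rcases hn with rfl | hn
    · intro x
      by_contra hx0
      have hxx : F x x = 0 := by
        have h3 := h1 x x
        rw [neg_one_smul, eq_neg_iff_add_eq_zero, ← two_smul K] at h3
        exact (smul_eq_zero.1 h3).resolve_left two_ne_zero
      obtain ⟨x', hx'⟩ : ∃ x', ψ x' x ≠ 0 := by
        by_contra hcon
        push Not at hcon
        apply hx0
        rw [nd2 hnd hs x hcon, map_zero]
      apply hx0
      refine IT_zero (hFm x) hxx (x := x') ?_ hx'
      have h3 := hFm x x' x' x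
      rw [hxx, map_zero, SZ_apply, map_sub, map_smul, map_smul, map_smul, neg_one_smul,
        sub_neg_eq_add, ← add_smul] at h3
      refine (smul_eq_zero.1 h3.symm).resolve_left ?_
      rw [← two_mul]
      exact mul_ne_zero two_ne_zero hx'
    · let i : Fin n := ⟨0, by omega⟩
      let j : Fin n := ⟨1, hn⟩
      have hij : i ≠ j := by
        intro h1
        have h2 := congrArg Fin.val h1
        exact absurd h2 (by norm_num [i, j])
      have hE0 : E ≠ 0 := by
        rintro rfl
        rw [zero_mul] at hE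
        exact zero_ne_one hE
      have huu : ∀ a b, ψ (u a) (u b) = 0 := fun a b => hdd _ (hD.memu a) _ (hD.memu b)
      have hcu : ∀ a, ψ (c a) (u a) = E := fun a => by rw [hs, hD.one, mul_one]
      have hcu0 : ∀ a b, a ≠ b → ψ (c a) (u b) = 0 := fun a b h => by
        rw [hs, hD.zero b a h.symm, mul_zero]
      -- maps which kill `u i`
      have hkill : ∀ f' ∈ IT ψ E Φ, f' (u i) = 0 → f' = 0 := by
        intro f' hf' h0
        have h4 : ∀ b, ψ b (u i) = 0 → f' b = 0 := by
          intro b hb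
          have h5 := hf' (c i) b (u i)
          rw [h0, map_zero, SZ_apply, hb, zero_smul, smul_zero, sub_zero, map_smul, hcu] at h5
          exact (smul_eq_zero.1 h5.symm).resolve_left hE0
        refine IT_zero hf' (h4 (u j) (huu j i)) (h4 (c j) (hcu0 j i hij.symm)) ?_
        rw [hcu]
        exact hE0
      have hF1 : F (u i) = 0 := by
        refine hkill _ (hFm _) ?_
        have h4 := h2 (u j) (u i) (u i) (c j)
        rw [SZ_apply, SZ_apply, huu, huu, hD.one, hD.zero i j hij] at h4
        simpa using h4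
      have hN : ∀ x, F x = 0 → ∀ a b, F (SZ ψ E a b x) = 0 := by
        intro x hx a b
        refine LinearMap.ext fun y => ?_
        rw [← h2, hx]
        rfl
      have hperp : ∀ b, ψ b (u i) = 0 → F b = 0 := by
        intro b hb
        have h5 := hN _ hF1 (c i) b
        rw [SZ_apply, hb, zero_smul, smul_zero, sub_zero, map_smul, hcu] at h5
        exact (smul_eq_zero.1 h5).resolve_left hE0
      have hci : F (c i) = 0 := by
        have h5 := hN _ (hperp (u j) (huu j i)) (c j) (c i)
        rw [SZ_apply, hcu, hcu0 i j hij, zero_smul, smul_zero, sub_zero, map_smul] at h5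
        exact (smul_eq_zero.1 h5).resolve_left hE0
      intro x
      have h5 := hperp (x - (E * ψ x (u i)) • c i) (by
        rw [map_sub, LinearMap.sub_apply, map_smul, LinearMap.smul_apply, hcu, smul_eq_mul]
        linear_combination -(ψ x (u i)) * hE)
      rw [map_sub, map_smul, hci, smul_zero, sub_zero] at h5
      exact h5
  refine nd2 hnd hs _ fun x => ?_
  have h3 := key x
  rw [hFd] at h3
  exact linearIndependent_iff'.1 hli Finset.univ _ h3 i (Finset.mem_univ i)

end it

end

end Pool.Agent.U233.TF
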