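import Pool.Agent.U233.TF.Pow

/-!
# The Tate conjecture and semisimplicity for products with powers
-/

set_option autoImplicit false
set_option linter.unusedSectionVars false

open CategoryTheory AlgebraicGeometry Finset

universe u

namespace Pool.Agent.U233.TF

open Module Pool.Agent.N179.GR Pool.Agent.U233.FG Pool.Agent.TH125.Gal

noncomputable section

section schur

variable {K : Type} [Field K] [CharZero K] [IsAlgClosed K] {Γ : Type} [Group Γ]
  {V : Type} [AddCommGroup V] [Module K V] [FiniteDimensional K V]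
  {r : Γ →* Module.End K V} {θ : Module.End K V} {ψ : V →ₗ[K] V →ₗ[K] K} {μ : Γ →* Kˣ} {d : ℤ}

/-- **Schur's lemma for the forms.** -/
theorem FullS.schur (h : FullS r θ ψ μ d) {ψ' : V →ₗ[K] V →ₗ[K] K}
    (hψ' : ∀ X ∈ TF.skew ψ, ∀ x y, ψ' (X x) y + ψ' x (X y) = 0) : ∃ c : K, ψ' = c • ψ := by
  have hinj : Function.Injective ψ := by
    rw [injective_iff_map_eq_zero]
    intro x hx
    exact h.nd x fun y => by rw [hx, LinearMap.zero_apply]
  let e : V ≃ₗ[K] Module.Dual K V := LinearEquiv.ofBijective ψ ⟨hinj,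
    (LinearMap.injective_iff_surjective_of_finrank_eq_finrank
      (Subspace.dual_finrank_eq).symm).1 hinj⟩
  let A : Module.End K V := e.symm.toLinearMap ∘ₗ ψ'
  have hA : ∀ x, ψ (A x) = ψ' x := fun x => e.apply_symm_apply (ψ' x)
  have hcomm : ∀ X ∈ TF.skew ψ, ∀ x, A (X x) = X (A x) := by
    intro X hX x
    apply hinj
    refine LinearMap.ext fun y => ?_
    rw [hA]
    have h1 := hψ' X hX x y
    have h2 := hX (A x) y
    rw [hA] at h2
    linear_combination h1 - h2
  have hnt : Nontrivial V := by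
    obtain ⟨x, -, hx⟩ := h.exists_top
    exact nontrivial_of_ne x 0 hx
  obtain ⟨c, hc⟩ := Module.End.exists_eigenvalue A
  have h1 : A.eigenspace c = ⊤ := by
    refine (h.irrV (A := A.eigenspace c) fun X hX a ha => ?_).resolve_left hc
    rw [Module.End.mem_eigenspace_iff] at ha ⊢
    rw [hcomm X hX, ha, map_smul]
  refine ⟨c, LinearMap.ext fun x => ?_⟩
  have h2 : x ∈ A.eigenspace c := h1 ▸ Submodule.mem_top
  rw [Module.End.mem_eigenspace_iff] at h2
  rw [← hA, h2, map_smul]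
  rfl

end schur

open Pool.Agent.H914 Pool.Agent.H914.VarClass Pool.Agent.H914.VarClass.Obj
  Pool.Agent.H914.WeilCohomology Pool.Agent.H281R3.HT Pool.Agent.W552

variable {k : Type u} [Field k] {𝒱 : VarClass k} {ops : CycleOps 𝒱}
  {W : WeilCohomology.{u, 0} ops} {Γ : Type} [Group Γ]
  {P : Polarized 𝒱} {n : ℕ} {Z : 𝒱.Obj} {χ : Γ →* W.Kˣ}
  {ρ : Γ →* (W.H P.X ≃ₐ[W.K] W.H P.X)} {τ : Γ →* (W.H Z ≃ₐ[W.K] W.H Z)}
  {υ : Γ →* (W.H ((nest ops n fun _ => P).X.prod Z) ≃ₐ[W.K]
    W.H ((nest ops n fun _ => P).X.prod Z))}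

/-- the expansion in monomials -/
theorem exists_exp_mono (P : Polarized 𝒱) (n : ℕ) (Z : 𝒱.Obj)
    (c : W.H ((nest ops n fun _ => P).X.prod Z)) :
    c ∈ Submodule.span W.K {x | ∃ (a : Fin (n + 1) → W.H P.X) (z : W.H Z),
      x = W.map (fst _ Z) (mono (prj ops n fun _ => P) a) * W.map (snd _ Z) z} := by
  obtain ⟨b, hb⟩ := exists_monoBasis (ops := ops) P (Module.finBasis W.K (W.H P.X)) n
  rw [expand b c]
  exact Submodule.sum_mem _ fun r _ => Submodule.subset_span
    ⟨fun p => Module.finBasis W.K (W.H P.X) (r p), ctr (b.coord r) c, by rw [hb]⟩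

/-- derivations which kill the factors -/
theorem kill_pow (hP : IsPowAct W P n Z ρ τ υ) {D : Der W.K Γ}
    (h1 : D.Θ (full _ (algR ρ)) = 0) (h2 : D.Θ (full _ (algR τ)) = 0) :
    D.Θ (full _ (algR υ)) = 0 := by
  refine LinearMap.ext fun c => ?_
  have hc := exists_exp_mono P n Z c
  induction hc using Submodule.span_induction with
  | mem c hc =>
    obtain ⟨a, z, rfl⟩ := hc
    rw [Θ_mul, Θ_mono hP, Θ_snd hP, h2, h1]
    have e1 : W.map (snd (nest ops n fun _ => P).X Z) ((0 : Module.End W.K (W.H Z)) z) = 0 :=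
      map_zero _
    have e2 : ∀ p, W.map (fst (nest ops n fun _ => P).X Z) (mono (prj ops n fun _ => P)
        (Function.update a p ((0 : Module.End W.K (W.H P.X)) (a p)))) = 0 := by
      intro p
      have e3 : mono (prj ops n fun _ => P)
        (Function.update a p ((0 : Module.End W.K (W.H P.X)) (a p))) = 0 :=
        (monoML (W := W) (prj ops n fun _ => P)).map_update_zero a p
      rw [e3, map_zero]
    rw [e1, mul_zero, Finset.sum_eq_zero fun p _ => e2 p]
    exact (add_zero _).trans (zero_mul _)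
  | zero => exact map_zero (D.Θ (full _ (algR υ)))
  | add x y _ _ hx hy =>
    exact (map_add (D.Θ (full _ (algR υ))) x y).trans (by rw [hx, hy]; exact add_zero _)
  | smul q x _ hx =>
    exact (map_smul (D.Θ (full _ (algR υ))) q x).trans (by rw [hx]; exact smul_zero _)

variable [IsAlgClosed W.K]

/-- semisimplicity -/
theorem semi_pow (hP : IsPowAct W P n Z ρ τ υ) (h1 : SemiS (algR ρ)) (h2 : SemiS (algR τ)) :
    SemiS (algR υ) := by
  refine Chev.semiS_of_gen (τ := υ) (S := {x | (∃ p a, x = W.map (fst _ Z)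
    (W.map (prj ops n (fun _ => P) p) a)) ∨ ∃ z, x = W.map (snd _ Z) z}) ?_ ?_
  · rw [eq_top_iff]
    intro c _
    have hc := exists_exp_mono P n Z c
    rw [← Subalgebra.mem_toSubmodule]
    refine (Submodule.span_le.2 ?_) hc
    rintro x ⟨a, z, rfl⟩
    refine Subalgebra.mul_mem _ ?_ (Algebra.subset_adjoin (Or.inr ⟨z, rfl⟩))
    rw [fst_mono]
    refine Subalgebra.list_prod_mem _ fun x hx => ?_
    rw [List.mem_ofFn] at hx
    obtain ⟨p, rfl⟩ := hx
    exact Algebra.subset_adjoin (Or.inl ⟨p, a p, rfl⟩)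
  · rintro x (⟨p, a, rfl⟩ | ⟨z, rfl⟩)
    · exact Chev.image_le_soc (r := algR υ) h1 ((W.map (fst _ Z)).toLinearMap ∘ₗ
        (W.map (prj ops n (fun _ => P) p)).toLinearMap)
        ⟨⊤, inferInstance, fun g _ v => ((hP g).1 p v).symm⟩ a
    · exact Chev.image_le_soc (r := algR υ) h2 (W.map (snd (nest ops n fun _ => P).X Z)).toLinearMap
        ⟨⊤, inferInstance, fun g _ v => ((hP g).2 v).symm⟩ z

theorem semi_pow_conv (hDX : HomEqNum W P.X) (h1 : (1 : W.H P.X) ≠ 0)
    (hP : IsPowAct W P n Z ρ τ υ) (h : SemiS (algR υ)) : SemiS (algR τ) := by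
  obtain ⟨a, ha, ha0⟩ := exists_pt hDX h1
  refine Chev.SemiS.of_inj (t := algR υ) h
    (W.map (snd (nest ops n fun _ => P).X Z)).toLinearMap (fun g v => ((hP g).2 v).symm) ?_
  rw [injective_iff_map_eq_zero]
  intro y hy
  have hy' : W.map (snd (nest ops n fun _ => P).X Z) y = 0 := hy
  refine W.nondeg y fun b => ?_
  have h2 := W.tr_prod (mono (prj ops n fun _ => P) fun _ => a) (y * b)
  rw [map_mul (W.map (snd _ Z)), hy', zero_mul, mul_zero, map_zero, tr_mono] at h2
  exact (mul_eq_zero.1 h2.symm).resolve_left (pow_ne_zero _ ha0)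

/-- the transcendental part is a representation with full monodromy -/
structure TransF (χ : Γ →* W.Kˣ) (P : 𝒱.Obj) (ρ : Γ →* (W.H P ≃ₐ[W.K] W.H P)) {V : Type}
    [AddCommGroup V] [Module W.K V] [FiniteDimensional W.K V] (r : Γ →* Module.End W.K V)
    (f : V →ₗ[W.K] W.H P) : Prop where
  gal : IsGalois W χ P ρ
  hen : HomEqNum W P
  mid : transcendental W P ≤ W.gr P P.dim
  equi : ∀ g v, f (r g v) = ρ g (f v)
  inj : Function.Injective f
  range : ∀ x, x ∈ transcendental W P ↔ ∃ v, x = f v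

section trans

variable {V : Type} [AddCommGroup V] [Module W.K V] [FiniteDimensional W.K V]
  {r : Γ →* Module.End W.K V} {f : V →ₗ[W.K] W.H P.X} {θ : Module.End W.K V}
  {ψ : V →ₗ[W.K] V →ₗ[W.K] W.K} {μ : Γ →* W.Kˣ} {d : ℤ}

theorem algSpan_soc {P : 𝒱.Obj} {ρ : Γ →* (W.H P ≃ₐ[W.K] W.H P)} (hG : IsGalois W χ P ρ)
    {c : W.H P} (hc : c ∈ algSpan W P) : c ∈ Chev.toK (Chev.soc (algR ρ)) := by
  induction hc using Submodule.span_induction with
  | mem c hc =>
    obtain ⟨j, hj⟩ := Set.mem_iUnion.1 hc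
    obtain ⟨Δ, hΔ, h⟩ := hG.cl_fix j c hj
    exact Chev.eig_mem_soc ⟨Δ, hΔ, fun g hg => ⟨_, h g hg⟩⟩
  | zero => exact Submodule.zero_mem _
  | add x y _ _ hx hy => exact Submodule.add_mem _ hx hy
  | smul q x _ hx => exact Submodule.smul_mem _ q hx

theorem TransF.semi (hf : TransF χ P.X ρ r f) (hr : SemiS r) : SemiS (algR ρ) := by
  refine Chev.semiS_of_gs _ (Chev.gs_of_soc ?_)
  rw [eq_top_iff]
  intro a _
  have h1 := (isCompl hf.hen).sup_eq_top
  obtain ⟨c, hc, t, ht, h2⟩ := Submodule.mem_sup.1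
    (show (Chev.un a : W.H P.X) ∈ algSpan W P.X ⊔ transcendental W P.X by
      rw [h1]
      trivial)
  have h3 := algSpan_soc hf.gal hc
  obtain ⟨v, rfl⟩ := (hf.range t).1 ht
  have h4 : f v ∈ Chev.toK (Chev.soc (algR ρ)) :=
    Chev.image_le_soc hr f ⟨⊤, inferInstance, fun g _ v => hf.equi g v⟩ v
  have h5 := Submodule.add_mem _ h3 h4
  rw [h2] at h5
  exact h5

theorem TransF.kill (hf : TransF χ P.X ρ r f) {D : Der W.K Γ} (hD : InDer 1 D)
    (h : D.Θ (full V r) = 0) : D.Θ (full _ (algR ρ)) = 0 := by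
  refine LinearMap.ext fun a => ?_
  have h1 := (isCompl hf.hen).sup_eq_top
  obtain ⟨c, hc, t, ht, h2⟩ := Submodule.mem_sup.1
    (show (a : W.H P.X) ∈ algSpan W P.X ⊔ transcendental W P.X by
      rw [h1]
      trivial)
  obtain ⟨v, rfl⟩ := (hf.range t).1 ht
  have h3 : f (D.Θ (full V r) v) = D.Θ (full _ (algR ρ)) (f v) :=
    D.lin (full V r) (full _ (algR ρ)) f ⟨⊤, inferInstance, fun g _ v => hf.equi g v⟩ v
  rw [h] at h3
  have h4 : D.Θ (full _ (algR ρ)) (f v) = 0 := h3.symm.trans (map_zero f)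
  rw [← h2]
  exact (map_add (D.Θ (full _ (algR ρ))) c (f v)).trans (by
    rw [kill_alg hf.gal hD hc, h4]
    exact add_zero _)

/-- **The skew operators on the transcendental part.** -/
theorem TransF.allSkew (hf : TransF χ P.X ρ r f) (hV : FullS r θ ψ μ d)
    (hspl : Spl (full V r) {full _ (algR τ)}) : AllSkew (P := P) ρ τ := by
  -- the form on `V`
  let ψ' : V →ₗ[W.K] V →ₗ[W.K] W.K := (bil W P.X).compl₁₂ f f
  have hψ'a : ∀ x y, ψ' x y = bil W P.X (f x) (f y) := fun x y => rfl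
  have hψ' : ∀ X ∈ skew ψ, ∀ x y, ψ' (X x) y + ψ' x (X y) = 0 := by
    intro X hX x y
    rw [← hV.core_eq] at hX
    obtain ⟨D, hD, rfl⟩ := mem_core.1 hX 1
    have h3 : ∀ v, f (D.Θ (full V r) v) = D.Θ (full _ (algR ρ)) (f v) := fun v =>
      D.lin (full V r) (full _ (algR ρ)) f ⟨⊤, inferInstance, fun g _ v => hf.equi g v⟩ v
    rw [hψ'a, hψ'a, h3, h3]
    exact bil_skew hf.gal hD _ _
  obtain ⟨c, hc⟩ := hV.schur hψ'
  have hc0 : c ≠ 0 := by
    rintro rfl
    rw [zero_smul] at hc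
    obtain ⟨x, -, hx⟩ := hV.exists_top
    have h1 : f x ∈ transcendental W P.X := (hf.range _).2 ⟨x, rfl⟩
    have h2 : (⟨f x, h1⟩ : transcendental W P.X) = 0 := by
      refine trans_nondeg hf.hen _ fun b => ?_
      obtain ⟨y, hy⟩ := (hf.range _).1 b.2
      rw [rform_apply, hy, ← hψ'a, hc]
      rfl
    exact hx (hf.inj ((congrArg Subtype.val h2).trans (map_zero f).symm))
  intro X hX
  -- the operator on `V`
  have hmem : ∀ v, f v ∈ transcendental W P.X := fun v => (hf.range _).2 ⟨v, rfl⟩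
  let e : V ≃ₗ[W.K] transcendental W P.X := LinearEquiv.ofBijective
    (f.codRestrict (transcendental W P.X) hmem) ⟨fun a b hab => hf.inj (congrArg Subtype.val hab),
      fun t => by
        obtain ⟨v, hv⟩ := (hf.range _).1 t.2
        exact ⟨v, Subtype.ext hv.symm⟩⟩
  have he : ∀ v, (e v : W.H P.X) = f v := fun v => rfl
  let Y : Module.End W.K V := e.symm.toLinearMap ∘ₗ X ∘ₗ e.toLinearMap
  have hY : ∀ v, f (Y v) = (X (e v) : W.H P.X) := fun v => by
    rw [← he]
    exact congrArg Subtype.val (e.apply_symm_apply (X (e v)))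
  have hYs : Y ∈ skew ψ := by
    intro x y
    have h1 := hX (e x) (e y)
    rw [rform_apply, rform_apply, ← hY, ← hY, he, he, ← hψ'a, ← hψ'a, hc] at h1
    have h2 : c * (ψ (Y x) y + ψ x (Y y)) = 0 := by
      rw [mul_add]
      exact h1
    exact (mul_eq_zero.1 h2).resolve_left hc0
  rw [← hV.core_eq] at hYs
  obtain ⟨D, hD, hDZ, hDV⟩ := mem_aI.1 (hspl hYs) 1
  refine ⟨D, hD, hDZ _ rfl, fun t => ?_⟩
  obtain ⟨v, rfl⟩ := e.surjective t
  have h3 : f (D.Θ (full V r) v) = D.Θ (full _ (algR ρ)) (f v) :=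
    D.lin (full V r) (full _ (algR ρ)) f ⟨⊤, inferInstance, fun g _ v => hf.equi g v⟩ v
  rw [hDV, hY] at h3
  exact h3.symm

/-- **The Tate conjecture for products with powers.** -/
theorem tate_pow (hf : TransF χ P.X ρ r f) (hP : IsPowAct W P n Z ρ τ υ)
    (hall : AllSkew (P := P) ρ τ)
    (hK : Even P.X.dim → n + 1 < Module.finrank W.K (transcendental W P.X))
    (hT : TateConj W χ Z τ) :
    TateConj W χ ((nest ops n fun _ => P).X.prod Z) υ := by
  have hG := hf.gal
  have hDX := hf.hen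
  have hmid := hf.mid
  obtain ⟨s⟩ := exists_SB hDX
  obtain ⟨b, hb⟩ := exists_monoBasis (ops := ops) P s.e n
  intro j c hcj ⟨Δ, hΔ, hc⟩
  have h1 := mem_Tgt' (υ := υ) hb hDX hmid hG hP hall hK (c := c)
    ⟨Δ, hΔ, fun g hg => ⟨_, hc g hg⟩⟩
  obtain ⟨N, m, i, φ, hm, hφ, hexp⟩ := exists_expansion s n Z
  obtain ⟨Δ', hΔ', hfix⟩ := exists_fix hG s
  have h2 := hexp c h1
  -- uniqueness
  have huni : ∀ (x : Fin N → W.H Z) (l : Fin N),
      ctr (φ l) (∑ l', W.map (fst _ Z) (m l') * W.map (snd _ Z) (x l')) = x l := by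
    intro x l
    rw [map_sum, Finset.sum_eq_single l]
    · rw [ctr_apply, hφ, if_pos rfl, one_smul]
    · intro l' _ hl
      rw [ctr_apply, hφ, if_neg hl, zero_smul]
    · intro h
      exact absurd (Finset.mem_univ _) h
  set x : Fin N → W.H Z := fun l => ctr (φ l) c with hx
  -- degrees
  have hdeg : ∀ l, x l = if 2 * i l ≤ 2 * j then
      proj (W.isInternal Z) (2 * j - 2 * i l) (x l) else 0 := by
    intro l
    have h3 : c = ∑ l', W.map (fst _ Z) (m l') * W.map (snd _ Z)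
        (if 2 * i l' ≤ 2 * j then proj (W.isInternal Z) (2 * j - 2 * i l') (x l') else 0) := by
      conv_lhs => rw [← proj_same (W.isInternal _) hcj, h2]
      rw [map_sum]
      refine Finset.sum_congr rfl fun l' _ => ?_
      obtain ⟨S, hS⟩ := hm l'
      rw [proj_ext (hS.gr hmid)]
      by_cases h : 2 * i l' ≤ 2 * j
      · rw [if_pos h, if_pos h]
      · rw [if_neg h, if_neg h, map_zero, mul_zero]
    conv_lhs => rw [hx]
    beta_reduce
    rw [h3]
    exact huni _ l
  -- semi-invariance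
  have hact : ∀ g ∈ Δ ⊓ Δ', ∀ l, (χ g : W.K) ^ i l • τ g (x l) = (χ g : W.K) ^ j • x l := by
    intro g hg l
    have h3 : υ g c = ∑ l', W.map (fst _ Z) (m l') * W.map (snd _ Z)
        ((χ g : W.K) ^ i l' • τ g (x l')) := by
      conv_lhs => rw [h2]
      rw [map_sum]
      refine Finset.sum_congr rfl fun l' _ => ?_
      obtain ⟨S, hS⟩ := hm l'
      rw [map_mul, mq_act hmid hG hP (hfix g hg.2) hS, (hP g).2, map_smul, smul_mul_assoc,
        mul_smul_comm]
    have h4 := huni (fun l' => (χ g : W.K) ^ i l' • τ g (x l')) l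
    rw [← h3, hc g hg.1, map_smul] at h4
    exact h4.symm
  have halg : ∀ l, x l ∈ algSpan W Z := by
    intro l
    by_cases h : 2 * i l ≤ 2 * j
    · have h3 := hdeg l
      rw [if_pos h] at h3
      have h4 : x l ∈ W.gr Z (2 * (j - i l)) := by
        rw [h3, show 2 * (j - i l) = 2 * j - 2 * i l by omega]
        exact proj_mem _ _ _
      have h5 := hT (j - i l) (x l) h4 ⟨Δ ⊓ Δ', inferInstance, fun g hg => ?_⟩
      · exact Submodule.span_mono (Set.subset_iUnion _ _) h5
      · have h6 := hact g hg l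
        have h7 : (χ g : W.K) ^ j = (χ g : W.K) ^ i l * (χ g : W.K) ^ (j - i l) := by
          rw [← pow_add]
          congr 1
          omega
        rw [h7, mul_smul] at h6
        exact smul_right_injective _ (pow_ne_zero _ (Units.ne_zero (χ g))) h6
    · have h3 := hdeg l
      rw [if_neg h] at h3
      rw [h3]
      exact Submodule.zero_mem _
  refine algSpan_gr ?_ hcj
  rw [h2]
  refine Submodule.sum_mem _ fun l _ => ?_
  obtain ⟨S, hS⟩ := hm l
  exact algSpan_mul (algSpan_map _ (hS.alg hDX hmid)) (algSpan_map _ (halg l))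

end trans

end

end Pool.Agent.U233.TF
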