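import Pool.Agent.R918.Weyl

/-!
# Tensor products of irreducible representations of Lie algebras

Let `G` be a Lie algebra of triples of operators on `X`, `Y`, `Z`, and let `β : X × Y → Z` be an
equivariant bilinear map whose values span `Z`. If `X` and `Y` are irreducible, then every stable
subspace of `Z` is the image of an equivariant projection.
-/

set_option autoImplicit false
set_option linter.unusedSectionVars false

open Module LieAlgebra LieModule

attribute [local instance 100] LieRing.ofAssociativeRing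

noncomputable section

namespace Pool.Agent.U233.TF.Chev

variable {K : Type*} [Field K]

section shift

variable {X : Type*} [AddCommGroup X] [Module K X] [FiniteDimensional K X]

/-- the scalar part of an operator -/
def sc (A : Module.End K X) : K := (finrank K X : K)⁻¹ * LinearMap.trace K X A

theorem sc_add (A B : Module.End K X) : sc (A + B) = sc A + sc B := by
  unfold sc
  rw [map_add, mul_add]

theorem sc_smul (c : K) (A : Module.End K X) : sc (c • A) = c * sc A := by
  unfold sc
  rw [map_smul, smul_eq_mul]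
  ring

theorem sc_br (A B : Module.End K X) : sc (A * B - B * A) = 0 := by
  unfold sc
  rw [map_sub, LinearMap.trace_mul_comm, sub_self, mul_zero]

theorem trace_sub_sc [CharZero K] [Nontrivial X] (A : Module.End K X) :
    LinearMap.trace K X (A - sc A • 1) = 0 := by
  have h1 : (finrank K X : K) ≠ 0 := by
    have h2 : finrank K X ≠ 0 := (finrank_pos_iff.2 ‹Nontrivial X›).ne'
    exact_mod_cast h2
  have h2 : LinearMap.trace K X (1 : Module.End K X) = finrank K X := LinearMap.trace_one K X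
  rw [map_sub, map_smul, smul_eq_mul, h2]
  unfold sc
  field_simp
  ring

end shift

section triv

variable {L : Type*} [LieRing L] [LieAlgebra K L] [FiniteDimensional K L]
  {X : Type*} [AddCommGroup X] [Module K X] [FiniteDimensional K X]

/-- solvable ideals act trivially on irreducible representations of trace zero -/
theorem ideal_zero [CharZero K] [IsAlgClosed K] [Nontrivial X] (p : L →ₗ⁅K⁆ Module.End K X)
    (hirr : ∀ S : Submodule K X, (∀ g : L, ∀ x ∈ S, p g x ∈ S) → S = ⊥ ∨ S = ⊤)
    (htr : ∀ g : L, LinearMap.trace K X (p g) = 0) (I : LieIdeal K L) (hI : IsSolvable I) :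
    ∀ g ∈ I, p g = 0 := by
  let L1 : LieSubalgebra K (Module.End K X) := p.range
  have hst : ∀ N : LieSubmodule K L1 X, N = ⊥ ∨ N = ⊤ := by
    intro N
    rcases hirr N.toSubmodule (fun g x hx => N.lie_mem (x := ⟨p g, g, rfl⟩) hx) with h | h
    · left
      exact LieSubmodule.toSubmodule_injective h
    · right
      exact LieSubmodule.toSubmodule_injective h
  have hirr1 : LieModule.IsIrreducible K L1 X := by
    refine LieModule.IsIrreducible.mk fun N hN => ?_
    exact (hst N).resolve_left hN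
  have hrad : HasTrivialRadical K L1 := by
    refine hasTrivialRadical_of_isIrreducible_of_isFaithful K L1 X fun x => ?_
    obtain ⟨x, g, rfl⟩ := x
    exact htr g
  let q : L →ₗ⁅K⁆ L1 := p.rangeRestrict
  have hq : Function.Surjective q := p.surjective_rangeRestrict
  have hsol : IsSolvable (I.map q) := by
    let f : I →ₗ⁅K⁆ (I.map q) :=
      { toFun := fun x => ⟨q x, LieIdeal.mem_map x.2⟩
        map_add' := fun x y => Subtype.ext (map_add q _ _)
        map_smul' := fun c x => Subtype.ext (map_smul q _ _)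
        map_lie' := fun {x y} => Subtype.ext (LieHom.map_lie q _ _) }
    have hf : Function.Surjective f := by
      rintro ⟨y, hy⟩
      obtain ⟨x, hx⟩ := LieIdeal.mem_map_of_surjective hq hy
      exact ⟨x, Subtype.ext hx⟩
    exact hf.lieAlgebra_isSolvable
  have hbot : I.map q = ⊥ := HasTrivialRadical.eq_bot_of_isSolvable _
  intro g hg
  have h1 : q g ∈ I.map q := LieIdeal.mem_map hg
  rw [hbot, LieSubmodule.mem_bot] at h1
  exact congrArg Subtype.val h1

end triv

section main

variable [CharZero K] [IsAlgClosed K] {X Y Z : Type*} [AddCommGroup X] [Module K X]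
  [FiniteDimensional K X] [AddCommGroup Y] [Module K Y] [FiniteDimensional K Y]
  [AddCommGroup Z] [Module K Z] [FiniteDimensional K Z]

/-- the triples of operators -/
abbrev Tr (K X Y Z : Type*) [Field K] [AddCommGroup X] [Module K X] [AddCommGroup Y] [Module K Y]
    [AddCommGroup Z] [Module K Z] : Type _ :=
  Module.End K X × Module.End K Y × Module.End K Z

theorem br_shift {W : Type*} [AddCommGroup W] [Module K W] (a b : K) (A B : Module.End K W) :
    (A - a • 1) * (B - b • 1) - (B - b • 1) * (A - a • 1) = A * B - B * A := by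
  simp only [sub_mul, mul_sub, smul_mul_assoc, mul_smul_comm, one_mul, mul_one]
  module

/-- the shift by the scalar parts -/
def sh : Tr K X Y Z →ₗ⁅K⁆ Tr K X Y Z where
  toFun g := (g.1 - sc g.1 • 1, g.2.1 - sc g.2.1 • 1, g.2.2 - (sc g.1 + sc g.2.1) • 1)
  map_add' g h := by
    simp only [Prod.fst_add, Prod.snd_add, sc_add, Prod.mk_add_mk, Prod.mk.injEq]
    refine ⟨?_, ?_, ?_⟩ <;> module
  map_smul' c g := by
    simp only [Prod.smul_fst, Prod.smul_snd, sc_smul, RingHom.id_apply, Prod.smul_mk,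
      Prod.mk.injEq]
    refine ⟨?_, ?_, ?_⟩ <;> module
  map_lie' := by
    intro g h
    refine Prod.ext ?_ (Prod.ext ?_ ?_)
    · change (g.1 * h.1 - h.1 * g.1) - sc (g.1 * h.1 - h.1 * g.1) • 1 =
        (g.1 - sc g.1 • 1) * (h.1 - sc h.1 • 1) - (h.1 - sc h.1 • 1) * (g.1 - sc g.1 • 1)
      rw [br_shift, sc_br, zero_smul, sub_zero]
    · change (g.2.1 * h.2.1 - h.2.1 * g.2.1) - sc (g.2.1 * h.2.1 - h.2.1 * g.2.1) • 1 =
        (g.2.1 - sc g.2.1 • 1) * (h.2.1 - sc h.2.1 • 1) -
          (h.2.1 - sc h.2.1 • 1) * (g.2.1 - sc g.2.1 • 1)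
      rw [br_shift, sc_br, zero_smul, sub_zero]
    · change (g.2.2 * h.2.2 - h.2.2 * g.2.2) - (sc (g.1 * h.1 - h.1 * g.1) +
        sc (g.2.1 * h.2.1 - h.2.1 * g.2.1)) • 1 =
        (g.2.2 - (sc g.1 + sc g.2.1) • 1) * (h.2.2 - (sc h.1 + sc h.2.1) • 1) -
          (h.2.2 - (sc h.1 + sc h.2.1) • 1) * (g.2.2 - (sc g.1 + sc g.2.1) • 1)
      rw [br_shift, sc_br, sc_br, add_zero, zero_smul, sub_zero]

/-- **The theorem.** -/
theorem exists_proj (G : LieSubalgebra K (Tr K X Y Z)) {β : X →ₗ[K] Y →ₗ[K] Z}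
    (hβ : ∀ g ∈ G, ∀ x y, g.2.2 (β x y) = β (g.1 x) y + β x (g.2.1 y))
    (hspan : ⊤ ≤ Submodule.span K {z | ∃ x y, z = β x y})
    (hX : ∀ S : Submodule K X, (∀ g ∈ G, ∀ x ∈ S, g.1 x ∈ S) → S = ⊥ ∨ S = ⊤)
    (hY : ∀ S : Submodule K Y, (∀ g ∈ G, ∀ x ∈ S, g.2.1 x ∈ S) → S = ⊥ ∨ S = ⊤)
    (A : Submodule K Z) (hA : ∀ g ∈ G, ∀ x ∈ A, g.2.2 x ∈ A) :
    ∃ f : Module.End K Z, (∀ g ∈ G, ∀ z, f (g.2.2 z) = g.2.2 (f z)) ∧ (∀ z, f z ∈ A) ∧
      ∀ z ∈ A, f z = z := by
  rcases subsingleton_or_nontrivial Z with hZ | hZ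
  · exact ⟨LinearMap.id, fun _ _ _ => rfl, fun z => by
      rw [Subsingleton.elim z 0]
      exact map_zero (LinearMap.id : Module.End K Z) ▸ A.zero_mem, fun _ _ => rfl⟩
  have hXn : Nontrivial X := by
    by_contra hn
    rw [not_nontrivial_iff_subsingleton] at hn
    obtain ⟨z, hz⟩ := exists_ne (0 : Z)
    have h1 : (⊤ : Submodule K Z) ≤ ⊥ := hspan.trans (Submodule.span_le.2 (by
      rintro _ ⟨x, y, rfl⟩
      rw [Subsingleton.elim x 0, map_zero, LinearMap.zero_apply]
      exact Submodule.zero_mem _))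
    exact hz ((Submodule.mem_bot K).1 (h1 (Submodule.mem_top (x := z))))
  have hYn : Nontrivial Y := by
    by_contra hn
    rw [not_nontrivial_iff_subsingleton] at hn
    obtain ⟨z, hz⟩ := exists_ne (0 : Z)
    have h1 : (⊤ : Submodule K Z) ≤ ⊥ := hspan.trans (Submodule.span_le.2 (by
      rintro _ ⟨x, y, rfl⟩
      rw [Subsingleton.elim y 0, map_zero]
      exact Submodule.zero_mem _))
    exact hz ((Submodule.mem_bot K).1 (h1 (Submodule.mem_top (x := z))))
  let L : LieSubalgebra K (Tr K X Y Z) := G.map sh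
  have hL : ∀ l : L, ∃ g ∈ G, (l : Tr K X Y Z) = sh g := by
    rintro ⟨l, g, hg, rfl⟩
    exact ⟨g, hg, rfl⟩
  have hLG : ∀ g ∈ G, sh g ∈ L := fun g hg => ⟨g, hg, rfl⟩
  let p1 : L →ₗ⁅K⁆ Module.End K X := (LieHom.fst K _ _).comp L.incl
  let p2 : L →ₗ⁅K⁆ Module.End K Y := ((LieHom.fst K _ _).comp (LieHom.snd K _ _)).comp L.incl
  let p3 : L →ₗ⁅K⁆ Module.End K Z := ((LieHom.snd K _ _).comp (LieHom.snd K _ _)).comp L.incl
  have hp1 : ∀ l : L, p1 l = (l : Tr K X Y Z).1 := fun l => rfl
  have hp2 : ∀ l : L, p2 l = (l : Tr K X Y Z).2.1 := fun l => rfl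
  have hp3 : ∀ l : L, p3 l = (l : Tr K X Y Z).2.2 := fun l => rfl
  have hrad : HasTrivialRadical K L := by
    refine (hasTrivialRadical_iff_no_solvable_ideals K L).2 fun I hI => ?_
    rw [LieSubmodule.eq_bot_iff]
    intro l hl
    have h1 : p1 l = 0 := ideal_zero p1 (fun S hS => hX S fun g hg x hx => by
        have h1 := hS ⟨sh g, hLG g hg⟩ x hx
        have h2 : (g.1 - sc g.1 • 1) x ∈ S := h1
        rw [LinearMap.sub_apply, LinearMap.smul_apply, Module.End.one_apply] at h2
        have h3 := S.add_mem h2 (S.smul_mem (sc g.1) hx)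
        rwa [sub_add_cancel] at h3) (fun l => by
        obtain ⟨g, hg, h1⟩ := hL l
        rw [hp1, h1]
        exact trace_sub_sc g.1) I hI l hl
    have h2 : p2 l = 0 := ideal_zero p2 (fun S hS => hY S fun g hg x hx => by
        have h1 := hS ⟨sh g, hLG g hg⟩ x hx
        have h2 : (g.2.1 - sc g.2.1 • 1) x ∈ S := h1
        rw [LinearMap.sub_apply, LinearMap.smul_apply, Module.End.one_apply] at h2
        have h3 := S.add_mem h2 (S.smul_mem (sc g.2.1) hx)
        rwa [sub_add_cancel] at h3) (fun l => by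
        obtain ⟨g, hg, h1⟩ := hL l
        rw [hp2, h1]
        exact trace_sub_sc g.2.1) I hI l hl
    have h3 : p3 l = 0 := by
      obtain ⟨g, hg, hlg⟩ := hL l
      have h4 : ∀ x y, p3 l (β x y) = β (p1 l x) y + β x (p2 l y) := by
        intro x y
        rw [hp1, hp2, hp3, hlg]
        change (g.2.2 - (sc g.1 + sc g.2.1) • 1) (β x y) = β ((g.1 - sc g.1 • 1) x) y +
          β x ((g.2.1 - sc g.2.1 • 1) y)
        simp only [LinearMap.sub_apply, LinearMap.smul_apply, Module.End.one_apply, map_sub,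
          map_smul]
        rw [hβ g hg]
        module
      have h5 : (⊤ : Submodule K Z) ≤ LinearMap.ker (p3 l) := hspan.trans (Submodule.span_le.2 (by
        rintro _ ⟨x, y, rfl⟩
        rw [SetLike.mem_coe, LinearMap.mem_ker, h4, h1, h2, LinearMap.zero_apply,
          LinearMap.zero_apply, map_zero, map_zero, LinearMap.zero_apply, add_zero]))
      exact LinearMap.ext fun z => LinearMap.mem_ker.1 (h5 (Submodule.mem_top (x := z)))
    exact Subtype.ext (Prod.ext h1 (Prod.ext h2 h3))
  let i1 : LieRingModule L Z := LieRingModule.compLieHom Z p3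
  let i2 : LieModule K L Z := LieModule.compLieHom Z p3
  have hlie : ∀ (l : L) (z : Z), ⁅l, z⁆ = p3 l z := fun l z => rfl
  have hkil : IsKilling K L := inferInstance
  let N : LieSubmodule K L Z :=
    { A with
      lie_mem := by
        intro l z hz
        change p3 l z ∈ A
        obtain ⟨g, hg, hlg⟩ := hL l
        rw [hp3, hlg]
        change (g.2.2 - (sc g.1 + sc g.2.1) • 1) z ∈ A
        rw [LinearMap.sub_apply, LinearMap.smul_apply, Module.End.one_apply]
        exact A.sub_mem (hA g hg z hz) (A.smul_mem _ hz) }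
  obtain ⟨f, hf1, hf2, hf3⟩ := Pool.Agent.R918.Weyl.exists_projection (L := L) (M := Z) N
  refine ⟨f, fun g hg z => ?_, hf2, hf3⟩
  have h1 := hf1 ⟨sh g, hLG g hg⟩ z
  rw [hlie, hlie] at h1
  have h2 : f ((g.2.2 - (sc g.1 + sc g.2.1) • 1) z) = (g.2.2 - (sc g.1 + sc g.2.1) • 1) (f z) := h1
  simp only [LinearMap.sub_apply, LinearMap.smul_apply, Module.End.one_apply, map_sub,
    map_smul] at h2
  exact sub_left_injective h2

end main

end Pool.Agent.U233.TF.Chev
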