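import Pool.Agent.U233.TF.Chev1
import Pool.Agent.N179.GR.Fin

/-!
# Modules over the free algebra generated by the derivations
-/

set_option autoImplicit false
set_option linter.unusedSectionVars false

open Module

attribute [local instance 100] LieRing.ofAssociativeRing

noncomputable section

namespace Pool.Agent.U233.TF.Chev

open Pool.Agent.N179.GR

variable (K : Type) [Field K] (Γ : Type) [Group Γ]

/-- the ring -/
abbrev RD : Type 1 := FreeAlgebra K (Der K Γ)

variable {K Γ}

/-- the generators -/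
abbrev di (D : Der K Γ) : RD K Γ := FreeAlgebra.ι K D

section mods

variable {M : Type} [AddCommGroup M] [Module K M] [Module (RD K Γ) M]
  [IsScalarTower K (RD K Γ) M]

theorem alg_smul (c : K) (x : M) : (algebraMap K (RD K Γ) c) • x = c • x :=
  algebraMap_smul (RD K Γ) c x

/-- stable subspaces are submodules -/
def mkR (P : Submodule K M) (hP : ∀ D : Der K Γ, ∀ x ∈ P, di D • x ∈ P) :
    Submodule (RD K Γ) M where
  carrier := P
  add_mem' := fun hx hy => P.add_mem hx hy
  zero_mem' := P.zero_mem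
  smul_mem' := by
    intro a
    induction a using FreeAlgebra.induction with
    | grade0 c =>
      intro x hx
      rw [alg_smul]
      exact P.smul_mem c hx
    | grade1 D =>
      intro x hx
      exact hP D x hx
    | mul a b ha hb =>
      intro x hx
      rw [mul_smul]
      exact ha (hb hx)
    | add a b ha hb =>
      intro x hx
      rw [add_smul]
      exact P.add_mem (ha hx) (hb hx)

theorem mem_mkR {P : Submodule K M} {hP : ∀ D : Der K Γ, ∀ x ∈ P, di D • x ∈ P} {x : M} :
    x ∈ mkR P hP ↔ x ∈ P := Iff.rfl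

/-- the derivations act on `M` as a Lie algebra -/
structure LL (M : Type) [AddCommGroup M] [Module K M] [Module (RD K Γ) M] : Prop where
  add : ∀ (D D' : Der K Γ) (x : M), di (D + D') • x = di D • x + di D' • x
  smul : ∀ (c : K) (D : Der K Γ) (x : M), di (c • D) • x = c • di D • x
  br : ∀ (D D' : Der K Γ) (x : M), di (D.br D') • x = di D • di D' • x - di D' • di D • x
  zero : ∀ x : M, di (0 : Der K Γ) • x = 0

instance (S : Submodule (RD K Γ) M) : IsScalarTower K (RD K Γ) S :=
  ⟨fun c a x => Subtype.ext (smul_assoc c a (x : M))⟩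

theorem LL.sub (h : LL (K := K) (Γ := Γ) M) (S : Submodule (RD K Γ) M) :
    LL (K := K) (Γ := Γ) S where
  add D D' x := Subtype.ext (h.add D D' x)
  smul c D x := Subtype.ext (h.smul c D x)
  br D D' x := Subtype.ext (h.br D D' x)
  zero x := Subtype.ext (h.zero x)

instance fdS [FiniteDimensional K M] (S : Submodule (RD K Γ) M) : FiniteDimensional K S :=
  Module.Finite.of_injective (S.subtype.restrictScalars K) Subtype.val_injective

/-- the operator -/
def oprt (M : Type) [AddCommGroup M] [Module K M] [Module (RD K Γ) M]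
    [IsScalarTower K (RD K Γ) M] (D : Der K Γ) : Module.End K M where
  toFun x := di D • x
  map_add' x y := smul_add _ _ _
  map_smul' c x := by
    rw [RingHom.id_apply, ← alg_smul (Γ := Γ) c x, ← alg_smul (Γ := Γ) c (di D • x), ← mul_smul,
      ← mul_smul, Algebra.commutes]

theorem oprt_apply (D : Der K Γ) (x : M) : oprt M D x = di D • x := rfl

end mods

section bil

variable [CharZero K] [IsAlgClosed K]
  {M₁ : Type} [AddCommGroup M₁] [Module K M₁] [Module (RD K Γ) M₁] [IsScalarTower K (RD K Γ) M₁]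
  [FiniteDimensional K M₁]
  {M₂ : Type} [AddCommGroup M₂] [Module K M₂] [Module (RD K Γ) M₂] [IsScalarTower K (RD K Γ) M₂]
  [FiniteDimensional K M₂]
  {M₃ : Type} [AddCommGroup M₃] [Module K M₃] [Module (RD K Γ) M₃] [IsScalarTower K (RD K Γ) M₃]
  [FiniteDimensional K M₃]

/-- products of simple modules -/
theorem simple_pair (h₁ : LL (K := K) (Γ := Γ) M₁) (h₂ : LL (K := K) (Γ := Γ) M₂)
    (h₃ : LL (K := K) (Γ := Γ) M₃)
    [IsSimpleModule (RD K Γ) M₁] [IsSimpleModule (RD K Γ) M₂] (β : M₁ →ₗ[K] M₂ →ₗ[K] M₃)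
    (hβ : ∀ (D : Der K Γ) x y, di D • β x y = β (di D • x) y + β x (di D • y))
    (hspan : ⊤ ≤ Submodule.span K {z | ∃ x y, z = β x y}) : IsSemisimpleModule (RD K Γ) M₃ := by
  let G : LieSubalgebra K (Tr K M₁ M₂ M₃) :=
    { carrier := {g | ∃ D : Der K Γ, (∀ x, g.1 x = di D • x) ∧ (∀ x, g.2.1 x = di D • x) ∧
        ∀ x, g.2.2 x = di D • x}
      zero_mem' := ⟨0, fun x => (h₁.zero x).symm, fun x => (h₂.zero x).symm,
        fun x => (h₃.zero x).symm⟩
      add_mem' := by
        rintro g g' ⟨D, a, b, c⟩ ⟨D', a', b', c'⟩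
        refine ⟨D + D', fun x => ?_, fun x => ?_, fun x => ?_⟩
        · rw [h₁.add, ← a, ← a']
          rfl
        · rw [h₂.add, ← b, ← b']
          rfl
        · rw [h₃.add, ← c, ← c']
          rfl
      smul_mem' := by
        rintro e g ⟨D, a, b, c⟩
        refine ⟨e • D, fun x => ?_, fun x => ?_, fun x => ?_⟩
        · rw [h₁.smul, ← a]
          rfl
        · rw [h₂.smul, ← b]
          rfl
        · rw [h₃.smul, ← c]
          rfl
      lie_mem' := by
        rintro g g' ⟨D, a, b, c⟩ ⟨D', a', b', c'⟩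
        refine ⟨D.br D', fun x => ?_, fun x => ?_, fun x => ?_⟩
        · rw [h₁.br, ← a, ← a', ← a, ← a']
          rfl
        · rw [h₂.br, ← b, ← b', ← b, ← b']
          rfl
        · rw [h₃.br, ← c, ← c', ← c, ← c']
          rfl }
  have hG : ∀ D : Der K Γ, (oprt M₁ D, oprt M₂ D, oprt M₃ D) ∈ G := fun D =>
    ⟨D, fun _ => rfl, fun _ => rfl, fun _ => rfl⟩
  refine { exists_isCompl := fun N => ?_ }
  obtain ⟨f, hf1, hf2, hf3⟩ := exists_proj G (β := β) (by
      rintro g ⟨D, a, b, c⟩ x y
      rw [a, b, c, hβ]) hspan (fun S hS => by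
      let S' : Submodule (RD K Γ) M₁ := mkR S fun D x hx => hS _ (hG D) x hx
      rcases eq_bot_or_eq_top S' with h | h
      · left
        rw [eq_bot_iff]
        intro x hx
        exact (Submodule.mem_bot (RD K Γ)).1 (h ▸ (show x ∈ S' from hx))
      · right
        rw [eq_top_iff]
        intro x _
        exact (show x ∈ S' from h ▸ Submodule.mem_top)) (fun S hS => by
      let S' : Submodule (RD K Γ) M₂ := mkR S fun D x hx => hS _ (hG D) x hx
      rcases eq_bot_or_eq_top S' with h | h
      · left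
        rw [eq_bot_iff]
        intro x hx
        exact (Submodule.mem_bot (RD K Γ)).1 (h ▸ (show x ∈ S' from hx))
      · right
        rw [eq_top_iff]
        intro x _
        exact (show x ∈ S' from h ▸ Submodule.mem_top)) (N.restrictScalars K) (by
      rintro g ⟨D, a, b, c⟩ x hx
      rw [c]
      exact N.smul_mem _ hx)
  have hfD : ∀ D : Der K Γ, ∀ x, f (di D • x) = di D • f x := fun D x => hf1 _ (hG D) x
  refine ⟨mkR (LinearMap.ker f) fun D x hx => ?_, ?_⟩
  · rw [LinearMap.mem_ker] at hx ⊢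
    rw [hfD, hx, smul_zero]
  · rw [isCompl_iff, Submodule.disjoint_def, codisjoint_iff, eq_top_iff]
    refine ⟨fun x hx hx' => ?_, fun x _ => ?_⟩
    · rw [← hf3 x hx]
      exact hx'
    · rw [Submodule.mem_sup]
      refine ⟨f x, hf2 x, x - f x, ?_, add_sub_cancel _ _⟩
      change f (x - f x) = 0
      rw [map_sub, hf3 _ (hf2 x), sub_self]

/-- **Products of semisimple modules.** -/
theorem semi_bil (h₁ : LL (K := K) (Γ := Γ) M₁) (h₂ : LL (K := K) (Γ := Γ) M₂)
    (h₃ : LL (K := K) (Γ := Γ) M₃) [IsSemisimpleModule (RD K Γ) M₁]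
    [IsSemisimpleModule (RD K Γ) M₂] (β : M₁ →ₗ[K] M₂ →ₗ[K] M₃)
    (hβ : ∀ (D : Der K Γ) x y, di D • β x y = β (di D • x) y + β x (di D • y))
    (hspan : ⊤ ≤ Submodule.span K {z | ∃ x y, z = β x y}) : IsSemisimpleModule (RD K Γ) M₃ := by
  let I₁ := {S : Submodule (RD K Γ) M₁ // IsSimpleModule (RD K Γ) S}
  let I₂ := {S : Submodule (RD K Γ) M₂ // IsSimpleModule (RD K Γ) S}
  have top₁ : ⨆ S : I₁, (S : Submodule (RD K Γ) M₁) = ⊤ :=
    (sSup_eq_iSup' {S : Submodule (RD K Γ) M₁ | IsSimpleModule (RD K Γ) S}).symm.trans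
      (IsSemisimpleModule.sSup_simples_eq_top (RD K Γ) M₁)
  have top₂ : ⨆ S : I₂, (S : Submodule (RD K Γ) M₂) = ⊤ :=
    (sSup_eq_iSup' {S : Submodule (RD K Γ) M₂ | IsSimpleModule (RD K Γ) S}).symm.trans
      (IsSemisimpleModule.sSup_simples_eq_top (RD K Γ) M₂)
  let P : I₁ × I₂ → Submodule K M₃ := fun s =>
    Submodule.span K {z | ∃ x ∈ s.1.1, ∃ y ∈ s.2.1, z = β x y}
  have hP : ∀ s, ∀ D : Der K Γ, ∀ x ∈ P s, di D • x ∈ P s := by
    intro s D x hx
    change oprt M₃ D x ∈ P s
    have h1 : P s ≤ (P s).comap (oprt M₃ D) := Submodule.span_le.2 (by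
      rintro _ ⟨x, hx, y, hy, rfl⟩
      change di D • β x y ∈ P s
      rw [hβ]
      exact (P s).add_mem (Submodule.subset_span ⟨_, s.1.1.smul_mem _ hx, y, hy, rfl⟩)
        (Submodule.subset_span ⟨x, hx, _, s.2.1.smul_mem _ hy, rfl⟩))
    exact h1 hx
  refine isSemisimpleModule_of_isSemisimpleModule_submodule'
    (p := fun s : I₁ × I₂ => mkR (P s) (hP s)) (fun s => ?_) ?_
  · have := s.1.2
    have := s.2.2
    let β' : s.1.1 →ₗ[K] s.2.1 →ₗ[K] (mkR (P s) (hP s)) :=
      LinearMap.mk₂ K (fun x y => ⟨β x y, Submodule.subset_span ⟨x, x.2, y, y.2, rfl⟩⟩)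
        (fun x x' y => Subtype.ext (by
          change β (x + x' : s.1.1) y = β x y + β x' y
          rw [Submodule.coe_add, map_add, LinearMap.add_apply]))
        (fun c x y => Subtype.ext (by
          change β (c • x : s.1.1) y = c • β x y
          have h1 : ((c • x : s.1.1) : M₁) = c • (x : M₁) := rfl
          rw [h1, map_smul, LinearMap.smul_apply]))
        (fun x y y' => Subtype.ext (by
          change β x (y + y' : s.2.1) = β x y + β x y'
          rw [Submodule.coe_add, map_add]))
        (fun c x y => Subtype.ext (by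
          change β x (c • y : s.2.1) = c • β x y
          have h1 : ((c • y : s.2.1) : M₂) = c • (y : M₂) := rfl
          rw [h1, map_smul]))
    refine simple_pair (h₁.sub s.1.1) (h₂.sub s.2.1) (h₃.sub _) β' (fun D x y => Subtype.ext ?_) ?_
    · exact hβ D x y
    · rintro ⟨z, hz⟩ -
      refine Submodule.span_induction
        (p := fun z hz => (⟨z, hz⟩ : mkR (P s) (hP s)) ∈ Submodule.span K {z | ∃ x y, z = β' x y})
        ?_ ?_ ?_ ?_ hz
      · rintro _ ⟨x, hx, y, hy, rfl⟩
        exact Submodule.subset_span ⟨⟨x, hx⟩, ⟨y, hy⟩, rfl⟩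
      · exact Submodule.zero_mem _
      · exact fun a b ha hb h1 h2 => Submodule.add_mem _ h1 h2
      · exact fun c a ha h1 => Submodule.smul_mem _ c h1
  · rw [eq_top_iff]
    intro z _
    let T : Submodule (RD K Γ) M₃ := ⨆ s : I₁ × I₂, mkR (P s) (hP s)
    change z ∈ T.restrictScalars K
    have h1 : (⊤ : Submodule K M₃) ≤ T.restrictScalars K := hspan.trans (Submodule.span_le.2 (by
      rintro _ ⟨x, y, rfl⟩
      have hx : x ∈ ⨆ S : I₁, (S : Submodule (RD K Γ) M₁) := top₁ ▸ Submodule.mem_top
      have hy : y ∈ ⨆ S : I₂, (S : Submodule (RD K Γ) M₂) := top₂ ▸ Submodule.mem_top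
      induction hx using Submodule.iSup_induction' with
      | mem S x hx =>
        induction hy using Submodule.iSup_induction' with
        | mem S' y hy =>
          exact (le_iSup (fun s : I₁ × I₂ => mkR (P s) (hP s)) (S, S'))
            (Submodule.subset_span ⟨x, hx, y, hy, rfl⟩)
        | zero =>
          rw [map_zero]
          exact T.zero_mem
        | add a b _ _ ha hb =>
          rw [map_add]
          exact T.add_mem ha hb
      | zero =>
        rw [map_zero, LinearMap.zero_apply]
        exact T.zero_mem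
      | add a b _ _ ha hb =>
        rw [map_add, LinearMap.add_apply]
        exact T.add_mem ha hb))
    exact h1 Submodule.mem_top

end bil

end Pool.Agent.U233.TF.Chev
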