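import Pool.Agent.U233.TF.Chev2

/-!
# Semisimple representations of the group and of the derivations
-/

set_option autoImplicit false
set_option linter.unusedSectionVars false

open Module

noncomputable section

namespace Pool.Agent.U233.TF.Chev

open Pool.Agent.N179.GR

variable {K : Type} [Field K] {Γ : Type} [Group Γ]
  {V : Type} [AddCommGroup V] [Module K V] [FiniteDimensional K V]

/-- the space as a module -/
def Md (_ : Γ →* Module.End K V) : Type := V

section inst

variable (r : Γ →* Module.End K V)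

/-- the structure of a group -/
@[reducible] def Md.ac : AddCommGroup (Md r) := inferInstanceAs (AddCommGroup V)

attribute [local instance] Md.ac

/-- the structure of a vector space -/
@[reducible] def Md.md : Module K (Md r) := inferInstanceAs (Module K V)

attribute [local instance] Md.md

theorem Md.fd : FiniteDimensional K (Md r) := inferInstanceAs (FiniteDimensional K V)

attribute [local instance] Md.fd

/-- the operators -/
def aMap : RD K Γ →ₐ[K] Module.End K V := FreeAlgebra.lift K fun D => D.Θ (full V r)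

/-- the structure of a module over the free algebra -/
@[reducible] def Md.rd : Module (RD K Γ) (Md r) := Module.compHom V (aMap r).toRingHom

attribute [local instance] Md.rd

theorem rd_smul (a : RD K Γ) (x : Md r) : a • x = (aMap r a : Module.End K V) x := rfl

theorem di_smul (D : Der K Γ) (x : Md r) : di D • x = D.Θ (full V r) (x : V) := by
  rw [rd_smul]
  unfold aMap di
  rw [FreeAlgebra.lift_ι_apply]

theorem Md.st : IsScalarTower K (RD K Γ) (Md r) := by
  refine ⟨fun c a x => ?_⟩
  rw [rd_smul, map_smul]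
  rfl

attribute [local instance] Md.st

theorem ll : LL (K := K) (Γ := Γ) (Md r) where
  add D D' x := by
    rw [di_smul, di_smul, di_smul, add_Θ]
    rfl
  smul c D x := by
    rw [di_smul, di_smul, smul_Θ]
    rfl
  br D D' x := by
    rw [di_smul, di_smul, di_smul, di_smul, di_smul, br_Θ]
    rfl
  zero x := by
    rw [di_smul, zero_Θ]
    rfl

end inst

attribute [local instance] Md.ac Md.md Md.fd Md.rd Md.st

/-- semisimple with respect to the derivations -/
def GS (r : Γ →* Module.End K V) : Prop := IsSemisimpleModule (RD K Γ) (Md r)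

/-- the subspace -/
def toK {r : Γ →* Module.End K V} (S : Submodule (RD K Γ) (Md r)) : Submodule K V :=
  S.restrictScalars K

theorem mem_toK {r : Γ →* Module.End K V} {S : Submodule (RD K Γ) (Md r)} {x : V} :
    x ∈ toK S ↔ (x : Md r) ∈ S := Iff.rfl

/-- the submodule of a subspace which is stable under the derivations -/
def ofK (r : Γ →* Module.End K V) (A : Submodule K V)
    (hA : ∀ D : Der K Γ, ∀ x ∈ A, D.Θ (full V r) x ∈ A) : Submodule (RD K Γ) (Md r) :=
  mkR (show Submodule K (Md r) from A) fun D x hx => by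
    rw [di_smul]
    exact hA D x hx

theorem mem_ofK {r : Γ →* Module.End K V} {A : Submodule K V}
    {hA : ∀ D : Der K Γ, ∀ x ∈ A, D.Θ (full V r) x ∈ A} {x : V} :
    (x : Md r) ∈ ofK r A hA ↔ x ∈ A := Iff.rfl

theorem toK_stable {r : Γ →* Module.End K V} (S : Submodule (RD K Γ) (Md r)) (D : Der K Γ) (x : V)
    (hx : x ∈ toK S) : D.Θ (full V r) x ∈ toK S := by
  rw [mem_toK, ← di_smul]
  exact S.smul_mem _ hx

section twist

variable (r : Γ →* Module.End K V)

theorem Θ_r (D : Der K Γ) (g : Γ) (x : V) :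
    D.Θ (full V r) (r g x) = r g ((D.conj g).Θ (full V r) x) := by
  rw [conj_full D g (isFull_full r)]
  change _ = r g (r g⁻¹ (D.Θ (full V r) (r g x)))
  rw [← Module.End.mul_apply (r g), ← map_mul, mul_inv_cancel, map_one, Module.End.one_apply]

/-- the translate of a submodule -/
def tw (g : Γ) (S : Submodule (RD K Γ) (Md r)) : Submodule (RD K Γ) (Md r) :=
  ofK r ((toK S).map (r g)) (by
    rintro D _ ⟨x, hx, rfl⟩
    exact ⟨_, toK_stable S (D.conj g) x hx, (Θ_r r D g x).symm⟩)

theorem mem_tw {g : Γ} {S : Submodule (RD K Γ) (Md r)} {x : V} :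
    (x : Md r) ∈ tw r g S ↔ ∃ y ∈ toK S, r g y = x := Iff.rfl

theorem tw_tw (g h : Γ) (hgh : g * h = 1) (S : Submodule (RD K Γ) (Md r)) :
    tw r g (tw r h S) = S := by
  ext x
  constructor
  · rintro ⟨_, ⟨y, hy, rfl⟩, rfl⟩
    have h1 : r g (r h y) = y := by
      rw [← Module.End.mul_apply, ← map_mul, hgh, map_one, Module.End.one_apply]
    rw [h1]
    exact hy
  · intro hx
    refine ⟨r h x, ⟨x, hx, rfl⟩, ?_⟩
    rw [← Module.End.mul_apply, ← map_mul, hgh, map_one, Module.End.one_apply]

/-- the translation as an isomorphism of the lattice of submodules -/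
def twE (g : Γ) : Submodule (RD K Γ) (Md r) ≃o Submodule (RD K Γ) (Md r) where
  toFun := tw r g
  invFun := tw r g⁻¹
  left_inv S := tw_tw r g⁻¹ g (inv_mul_cancel g) S
  right_inv S := tw_tw r g g⁻¹ (mul_inv_cancel g) S
  map_rel_iff' {S T} := by
    constructor
    · intro h x hx
      obtain ⟨y, hy, h1⟩ := h (x := (r g x : V)) ⟨x, hx, rfl⟩
      have h2 : (y : V) = x := by
        have h3 := congrArg (r g⁻¹) h1
        rwa [← Module.End.mul_apply, ← Module.End.mul_apply, ← map_mul, inv_mul_cancel, map_one,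
          Module.End.one_apply, Module.End.one_apply] at h3
      rw [← h2]
      exact hy
    · rintro h _ ⟨x, hx, rfl⟩
      exact ⟨x, h hx, rfl⟩

theorem artin : IsArtinian (RD K Γ) (Md r) :=
  isArtinian_of_tower (R := K) (S := RD K Γ) (M := Md r)
    (show IsArtinian K (Md r) from inferInstance)

/-- **Semisimple representations of the group are semisimple with respect to the derivations.** -/
theorem gs_of_semiS (h : SemiS r) : GS r := by
  refine IsSemisimpleModule.of_sSup_simples_eq_top ?_
  set s : Submodule (RD K Γ) (Md r) := sSup {m | IsSimpleModule (RD K Γ) m} with hs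
  have hst : Stab r (toK s) := by
    intro g
    let C : Submodule (RD K Γ) (Md r) := ofK r ((toK s).comap (r g)) (by
      intro D x hx
      rw [Submodule.mem_comap] at hx ⊢
      have h1 := toK_stable s (D.conj g⁻¹) _ hx
      have h2 := Θ_r r (D.conj g⁻¹) g x
      rw [h2] at h1
      have h3 : ((D.conj g⁻¹).conj g).Θ (full V r) x = D.Θ (full V r) x := by
        rw [conj_full _ g (isFull_full r), conj_full _ g⁻¹ (isFull_full r), inv_inv]
        change r g⁻¹ (r g (D.Θ (full V r) (r g⁻¹ (r g x)))) = _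
        have h4 : ∀ y, r g⁻¹ (r g y) = y := fun y => by
          rw [← Module.End.mul_apply, ← map_mul, inv_mul_cancel, map_one, Module.End.one_apply]
        rw [h4, h4]
      rwa [h3] at h1)
    have h1 : s ≤ C := by
      refine sSup_le fun S hS => ?_
      have h2 : IsAtom S := isSimpleModule_iff_isAtom.1 hS
      have h3 : IsAtom (twE r g S) := ((twE r g).isAtom_iff S).2 h2
      have h4 : twE r g S ≤ s := le_sSup (isSimpleModule_iff_isAtom.2 h3)
      exact fun x hx => h4 ⟨x, hx, rfl⟩
    exact fun x hx => h1 hx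
  obtain ⟨B, hB, hc⟩ := h (toK s) hst
  have hBD : ∀ D : Der K Γ, ∀ x ∈ B, D.Θ (full V r) x ∈ B := fun D x hx => Θ_mem D hB hx
  have hbot : B = ⊥ := by
    by_contra hne
    have := artin r
    have h1 : ofK r B hBD ≠ ⊥ := by
      intro h0
      apply hne
      rw [eq_bot_iff]
      intro x hx
      have h2 : (x : Md r) ∈ ofK r B hBD := hx
      rw [h0] at h2
      exact h2
    obtain ⟨S, hS, hSB⟩ := (IsAtomic.eq_bot_or_exists_atom_le (ofK r B hBD)).resolve_left h1
    have h2 : S ≤ s := le_sSup (isSimpleModule_iff_isAtom.2 hS)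
    apply hS.1
    rw [eq_bot_iff]
    intro x hx
    have h3 := hc.disjoint.le_bot ⟨h2 hx, hSB hx⟩
    exact h3
  rw [hbot] at hc
  have h1 := hc.sup_eq_top
  rw [sup_bot_eq] at h1
  rw [eq_top_iff]
  intro x _
  have h2 : (show V from x) ∈ toK s := by
    rw [h1]
    exact Submodule.mem_top
  exact h2

end twist

section fixed

variable [IsAlgClosed K] [CharZero K] (r : Γ →* Module.End K V)

/-- the sum with the trivial representation -/
def plus : Γ →* Module.End K (V × K) where
  toFun g := (r g).prodMap LinearMap.id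
  map_one' := by
    rw [map_one]
    rfl
  map_mul' g h := by
    rw [map_mul]
    rfl

theorem triv_Θ (D : Der K Γ) : D.Θ (full K (1 : Γ →* Module.End K K)) (1 : K) = 0 := by
  have h1 := D.bil (full K (1 : Γ →* Module.End K K)) (full K (1 : Γ →* Module.End K K))
    (full K (1 : Γ →* Module.End K K)) (LinearMap.mul K K) ⟨⊤, inferInstance, fun _ _ _ _ => rfl⟩
    (1 : K) (1 : K)
  simp only [LinearMap.mul_apply', mul_one, one_mul] at h1
  exact left_eq_add.1 h1.symm

/-- **Vectors killed by all derivations are fixed by a subgroup of finite index.** -/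
theorem fixed_of_der {f : V} (h : ∀ D : Der K Γ, D.Θ (full V r) f = 0) :
    ∃ Δ : Subgroup Γ, Δ.FiniteIndex ∧ ∀ g ∈ Δ, r g f = f := by
  obtain ⟨Δ, hΔ, h1⟩ := eig_of_der (full (V × K) (plus r)) ((f, (1 : K)) : V × K) fun D => by
    refine ⟨0, ?_⟩
    have h2 := D.lin (full (V × K) (plus r)) (full V r) (LinearMap.fst K V K)
      ⟨⊤, inferInstance, fun _ _ _ => rfl⟩ ((f, (1 : K)) : V × K)
    have h3 := D.lin (full (V × K) (plus r)) (full K (1 : Γ →* Module.End K K))
      (LinearMap.snd K V K) ⟨⊤, inferInstance, fun _ _ _ => rfl⟩ ((f, (1 : K)) : V × K)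
    rw [zero_smul]
    refine Prod.ext (h2.trans ?_) (h3.trans ?_)
    · exact h D
    · exact triv_Θ D
  refine ⟨Δ, hΔ, fun g hg => ?_⟩
  obtain ⟨c, hc⟩ := h1 g hg
  have h2 : r g f = c • f := congrArg Prod.fst hc
  have h3 : (1 : K) = c • (1 : K) := congrArg Prod.snd hc
  rw [smul_eq_mul, mul_one] at h3
  rw [h2, ← h3, one_smul]

/-- **Semisimple modules over the derivations are semisimple representations.** -/
theorem semiS_of_gs (h : GS r) : SemiS r := by
  intro A hA
  have hAD : ∀ D : Der K Γ, ∀ x ∈ A, D.Θ (full V r) x ∈ A := fun D x hx => Θ_mem D hA hx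
  have hss : IsSemisimpleModule (RD K Γ) (Md r) := h
  obtain ⟨B, hB⟩ := exists_isCompl (ofK r A hAD)
  have hc : IsCompl A (toK B) := by
    rw [isCompl_iff, Submodule.disjoint_def, codisjoint_iff, eq_top_iff]
    refine ⟨fun x hx hx' => ?_, fun x _ => ?_⟩
    · exact hB.disjoint.le_bot ⟨hx, hx'⟩
    · have h1 : (show Md r from x) ∈ ofK r A hAD ⊔ B := by
        rw [hB.sup_eq_top]
        exact Submodule.mem_top
      obtain ⟨a, ha, b, hb, h2⟩ := Submodule.mem_sup.1 h1
      exact (Submodule.mem_sup (p := A) (p' := toK B)).2 ⟨a, ha, b, hb, h2⟩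
  have hex : ∀ v : V, ∃ a ∈ A, ∃ b ∈ toK B, a + b = v := fun v =>
    Submodule.mem_sup.1 (by rw [hc.sup_eq_top]; trivial)
  let e : Module.End K V := A.subtype ∘ₗ Submodule.projectionOnto A (toK B) hc
  have he : ∀ a ∈ A, ∀ b ∈ toK B, e (a + b) = a := by
    intro a ha b hb
    change ((Submodule.projectionOnto A (toK B) hc (a + b) : A) : V) = a
    rw [map_add, Submodule.projectionOnto_apply_of_mem_right hc hb, add_zero]
    exact congrArg Subtype.val (Submodule.projectionOnto_apply_left hc ⟨a, ha⟩)
  have heA : ∀ v, e v ∈ A := fun v => by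
    obtain ⟨a, ha, b, hb, rfl⟩ := hex v
    rw [he a ha b hb]
    exact ha
  have heid : ∀ a ∈ A, e a = a := fun a ha => by
    have := he a ha 0 (Submodule.zero_mem _)
    rwa [add_zero] at this
  have heD : ∀ D : Der K Γ, D.Θ (full (Module.End K V) (cj r)) e = 0 := by
    intro D
    rw [cj_Θ, sub_eq_zero]
    refine LinearMap.ext fun v => ?_
    obtain ⟨a, ha, b, hb, rfl⟩ := hex v
    rw [Module.End.mul_apply, Module.End.mul_apply, he a ha b hb, map_add,
      he _ (hAD D a ha) _ (toK_stable B D b hb)]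
  obtain ⟨Δ, hΔ, hfix⟩ := fixed_of_der (cj r) heD
  -- the mean
  have hfin : Fintype (Γ ⧸ Δ) := Fintype.ofFinite _
  let F : Γ ⧸ Δ → Module.End K V := Quotient.lift (fun g => cj r g e) (by
    intro a b hab
    have h1 : a⁻¹ * b ∈ Δ := QuotientGroup.leftRel_apply.1 hab
    have h2 := hfix _ h1
    change cj r a e = cj r b e
    have h3 : b = a * (a⁻¹ * b) := by group
    rw [h3, map_mul, Module.End.mul_apply, h2])
  have hF : ∀ g : Γ, F (QuotientGroup.mk g) = cj r g e := fun g => rfl
  have hFA : ∀ q v, F q v ∈ A := by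
    intro q v
    obtain ⟨g, rfl⟩ := QuotientGroup.mk_surjective q
    rw [hF]
    exact hA g _ (heA _)
  have hFid : ∀ q, ∀ a ∈ A, F q a = a := by
    intro q a ha
    obtain ⟨g, rfl⟩ := QuotientGroup.mk_surjective q
    rw [hF, cj_apply, Module.End.mul_apply, Module.End.mul_apply, heid _ (hA g⁻¹ a ha),
      ← Module.End.mul_apply, ← map_mul, mul_inv_cancel, map_one, Module.End.one_apply]
  let n : K := (Fintype.card (Γ ⧸ Δ) : K)
  have hn : n ≠ 0 := by
    have h1 : Fintype.card (Γ ⧸ Δ) ≠ 0 := Fintype.card_ne_zero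
    change ((Fintype.card (Γ ⧸ Δ) : ℕ) : K) ≠ 0
    exact_mod_cast h1
  let E : Module.End K V := n⁻¹ • ∑ q, F q
  have hE : ∀ v, E v = n⁻¹ • ∑ q, F q v := fun v => by
    change (n⁻¹ • ∑ q, F q) v = _
    rw [LinearMap.smul_apply, LinearMap.sum_apply]
  have hEA : ∀ v, E v ∈ A := fun v => by
    rw [hE]
    exact A.smul_mem _ (A.sum_mem fun q _ => hFA q v)
  have hEid : ∀ a ∈ A, E a = a := fun a ha => by
    rw [hE, Finset.sum_congr rfl fun q _ => hFid q a ha, Finset.sum_const, Finset.card_univ,
      ← Nat.cast_smul_eq_nsmul K, smul_smul]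
    change (n⁻¹ * n) • a = a
    rw [inv_mul_cancel₀ hn, one_smul]
  have hEg : ∀ g, cj r g E = E := by
    intro g
    change cj r g (n⁻¹ • ∑ q, F q) = n⁻¹ • ∑ q, F q
    rw [map_smul, map_sum]
    congr 1
    refine Fintype.sum_equiv (MulAction.toPerm g) _ _ fun q => ?_
    obtain ⟨h, rfl⟩ := QuotientGroup.mk_surjective q
    change cj r g (F (QuotientGroup.mk h)) = F (QuotientGroup.mk (g * h))
    rw [hF, hF, map_mul, Module.End.mul_apply]
  refine ⟨LinearMap.ker E, fun g x hx => ?_, ?_⟩
  · rw [LinearMap.mem_ker] at hx ⊢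
    have h1 := LinearMap.congr_fun (hEg g) (r g x)
    rw [cj_apply, Module.End.mul_apply, Module.End.mul_apply, ← Module.End.mul_apply (r g⁻¹),
      ← map_mul, inv_mul_cancel, map_one, Module.End.one_apply, hx, map_zero] at h1
    exact h1.symm
  · rw [isCompl_iff, Submodule.disjoint_def, codisjoint_iff, eq_top_iff]
    refine ⟨fun x hx hx' => ?_, fun x _ => ?_⟩
    · rw [← hEid x hx]
      exact LinearMap.mem_ker.1 hx'
    · refine Submodule.mem_sup.2 ⟨E x, hEA x, x - E x, ?_, add_sub_cancel _ _⟩
      rw [LinearMap.mem_ker, map_sub, hEid _ (hEA x), sub_self]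

theorem semiS_iff : SemiS r ↔ GS r := ⟨gs_of_semiS r, semiS_of_gs r⟩

end fixed

end Pool.Agent.U233.TF.Chev
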