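import Pool.Agent.U233.TF.Chev3

/-!
# Chevalley's theorem: tensor products, duals, endomorphisms, algebras
-/

set_option autoImplicit false
set_option linter.unusedSectionVars false

open Module

noncomputable section

namespace Pool.Agent.U233.TF.Chev

open Pool.Agent.N179.GR

attribute [local instance] Md.ac Md.md Md.fd Md.rd Md.st

variable {K : Type} [Field K] {Γ : Type} [Group Γ]
  {V : Type} [AddCommGroup V] [Module K V] [FiniteDimensional K V]
  {U : Type} [AddCommGroup U] [Module K U] [FiniteDimensional K U]
  {Z : Type} [AddCommGroup Z] [Module K Z] [FiniteDimensional K Z]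

section sub

variable {r : Γ →* Module.End K V} {t : Γ →* Module.End K U}

/-- subrepresentations of semisimple representations -/
theorem SemiS.of_inj (h : SemiS t) (f : V →ₗ[K] U) (hf : ∀ g v, f (r g v) = t g (f v))
    (hinj : Function.Injective f) : SemiS r := by
  intro A hA
  obtain ⟨B, hB, hc⟩ := h (A.map f) (by
    rintro g _ ⟨x, hx, rfl⟩
    exact ⟨r g x, hA g x hx, hf g x⟩)
  refine ⟨B.comap f, fun g x hx => ?_, ?_⟩
  · rw [Submodule.mem_comap] at hx ⊢
    rw [hf]
    exact hB g _ hx
  · rw [isCompl_iff, Submodule.disjoint_def, codisjoint_iff, eq_top_iff]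
    refine ⟨fun x hx hx' => hinj ?_, fun x _ => ?_⟩
    · rw [map_zero]
      exact (Submodule.mem_bot K).1 (hc.disjoint.le_bot ⟨⟨x, hx, rfl⟩, hx'⟩)
    · have h1 : f x ∈ A.map f ⊔ B := hc.sup_eq_top ▸ Submodule.mem_top
      obtain ⟨_, ⟨a, ha, rfl⟩, b, hb, h2⟩ := Submodule.mem_sup.1 h1
      refine Submodule.mem_sup.2 ⟨a, ha, x - a, ?_, add_sub_cancel _ _⟩
      rw [Submodule.mem_comap, map_sub, ← h2, add_sub_cancel_left]
      exact hb

/-- the dual representation -/
def dl (r : Γ →* Module.End K V) : Γ →* Module.End K (Dual K V) where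
  toFun g := (r g⁻¹).dualMap
  map_one' := by
    rw [inv_one, map_one]
    rfl
  map_mul' g h := by
    rw [mul_inv_rev, map_mul]
    rfl

theorem dl_apply (g : Γ) (φ : Dual K V) (v : V) : dl r g φ v = φ (r g⁻¹ v) := rfl

theorem SemiS.dual (h : SemiS r) : SemiS (dl r) := by
  intro A hA
  obtain ⟨B, hB, hc⟩ := h A.dualCoannihilator (by
    intro g x hx
    rw [Submodule.mem_dualCoannihilator] at hx ⊢
    intro φ hφ
    have h1 := hx _ (hA g⁻¹ φ hφ)
    rwa [dl_apply, inv_inv] at h1)
  refine ⟨B.dualAnnihilator, fun g φ hφ => ?_, ?_⟩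
  · rw [Submodule.mem_dualAnnihilator] at hφ ⊢
    intro x hx
    rw [dl_apply]
    exact hφ _ (hB g⁻¹ x hx)
  · have h1 := Subspace.isCompl_dualAnnihilator hc
    rwa [Subspace.dualCoannihilator_dualAnnihilator_eq] at h1

end sub

variable [CharZero K] [IsAlgClosed K]

/-- **Chevalley's theorem.** -/
theorem SemiS.bil {r : Γ →* Module.End K V} {t : Γ →* Module.End K U} {s : Γ →* Module.End K Z}
    (h₁ : SemiS r) (h₂ : SemiS t) (β : V →ₗ[K] U →ₗ[K] Z)
    (hβ : ∀ g x y, β (r g x) (t g y) = s g (β x y))
    (hspan : ⊤ ≤ Submodule.span K {z | ∃ x y, z = β x y}) : SemiS s := by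
  have i1 : IsSemisimpleModule (RD K Γ) (Md r) := gs_of_semiS r h₁
  have i2 : IsSemisimpleModule (RD K Γ) (Md t) := gs_of_semiS t h₂
  refine semiS_of_gs s ?_
  refine semi_bil (M₁ := Md r) (M₂ := Md t) (M₃ := Md s) (ll r) (ll t) (ll s) β ?_ hspan
  intro D x y
  have h3 := D.bil (full V r) (full U t) (full Z s) β ⟨⊤, inferInstance, fun g _ x y => hβ g x y⟩
    (x : V) (y : U)
  rw [di_smul, di_smul, di_smul]
  exact h3.symm

/-- the operators -/
theorem SemiS.endo {r : Γ →* Module.End K V} (h : SemiS r) : SemiS (cj r) := by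
  let β : V →ₗ[K] Dual K V →ₗ[K] Module.End K V :=
    LinearMap.mk₂ K (fun v φ => φ.smulRight v)
      (fun v v' φ => LinearMap.ext fun x => by simp)
      (fun c v φ => LinearMap.ext fun x => by
        simp only [LinearMap.smulRight_apply, LinearMap.smul_apply]
        rw [smul_comm])
      (fun v φ φ' => LinearMap.ext fun x => by simp [add_smul])
      (fun c v φ => LinearMap.ext fun x => by simp [mul_smul])
  have hβ : ∀ v φ x, (β v φ : Module.End K V) x = φ x • v := fun v φ x => rfl
  refine SemiS.bil (s := cj r) h (SemiS.dual h) β (fun g v φ => LinearMap.ext fun x => ?_) ?_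
  · rw [cj_apply, Module.End.mul_apply, Module.End.mul_apply, hβ, hβ, map_smul]
    rfl
  · intro f _
    let b := finBasis K V
    have h1 : f = ∑ i, β (f (b i)) (b.coord i) := by
      refine b.ext fun j => ?_
      rw [LinearMap.sum_apply, Finset.sum_eq_single j]
      · rw [hβ, Basis.coord_apply, Basis.repr_self, Finsupp.single_eq_same, one_smul]
      · intro i _ hi
        rw [hβ, Basis.coord_apply, Basis.repr_self, Finsupp.single_eq_of_ne hi, zero_smul]
      · exact fun h => absurd (Finset.mem_univ j) h
    rw [h1]
    exact Submodule.sum_mem _ fun i _ => Submodule.subset_span ⟨_, _, rfl⟩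

/-- the socle -/
def soc (r : Γ →* Module.End K V) : Submodule (RD K Γ) (Md r) :=
  sSup {m | IsSimpleModule (RD K Γ) m}

omit [CharZero K] [IsAlgClosed K] in
theorem soc_semi (r : Γ →* Module.End K V) : IsSemisimpleModule (RD K Γ) (soc r) := by
  have h1 := isSemisimpleModule_biSup_of_isSemisimpleModule_submodule (R := RD K Γ) (M := Md r)
    (s := {m : Submodule (RD K Γ) (Md r) | IsSimpleModule (RD K Γ) m}) (p := id) (fun i hi => by
      have : IsSimpleModule (RD K Γ) i := hi
      change IsSemisimpleModule (RD K Γ) i
      infer_instance)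
  unfold soc
  rw [sSup_eq_iSup]
  exact h1

theorem le_soc_aux {R : Type 1} [Ring R] {M : Type} [AddCommGroup M] [Module R M]
    {N : Submodule R M} (h : IsSemisimpleModule R N) : N ≤ sSup {m : Submodule R M | IsSimpleModule R m} := by
  have h1 := IsSemisimpleModule.sSup_simples_eq_top R N
  intro x hx
  have h2 : (⟨x, hx⟩ : N) ∈ sSup {m : Submodule R N | IsSimpleModule R m} := by
    rw [h1]
    exact Submodule.mem_top
  have h3 : sSup {m : Submodule R N | IsSimpleModule R m} ≤
      (sSup {m : Submodule R M | IsSimpleModule R m}).comap N.subtype := by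
    refine sSup_le fun m hm => ?_
    have : IsSimpleModule R m := hm
    have h4 : IsSimpleModule R (m.map N.subtype) :=
      IsSimpleModule.congr (m.equivMapOfInjective _ N.subtype_injective).symm
    rw [← Submodule.map_le_iff_le_comap]
    exact le_sSup h4
  exact h3 h2

omit [CharZero K] [IsAlgClosed K] in
/-- semisimple submodules are contained in the socle -/
theorem le_soc {r : Γ →* Module.End K V} {N : Submodule (RD K Γ) (Md r)}
    (h : IsSemisimpleModule (RD K Γ) N) : N ≤ soc r := le_soc_aux h

omit [CharZero K] [IsAlgClosed K] in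
theorem gs_of_soc {r : Γ →* Module.End K V} (h : soc r = ⊤) : GS r :=
  IsSemisimpleModule.of_sSup_simples_eq_top h

/-- images of semisimple representations -/
theorem image_le_soc {r : Γ →* Module.End K V} {t : Γ →* Module.End K U} (h : SemiS t)
    (f : U →ₗ[K] V) (hf : PE (full U t) (full V r) f) (u : U) : (f u : Md r) ∈ soc r := by
  have i1 : IsSemisimpleModule (RD K Γ) (Md t) := gs_of_semiS t h
  let F : Md t →ₗ[RD K Γ] Md r :=
    { toFun := f
      map_add' := fun x y => map_add f x y
      map_smul' := by
        intro a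
        induction a using FreeAlgebra.induction with
        | grade0 c =>
          intro x
          rw [alg_smul, RingHom.id_apply, alg_smul]
          exact map_smul f c x
        | grade1 D =>
          intro x
          have h1 := D.lin (full U t) (full V r) f hf (x : U)
          change (f (di D • x : Md t) : V) = (di D • (show Md r from f x) : Md r)
          rw [di_smul, di_smul]
          exact h1
        | mul a b ha hb =>
          intro x
          rw [mul_smul, ha, hb, RingHom.id_apply, RingHom.id_apply, RingHom.id_apply, mul_smul]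
        | add a b ha hb =>
          intro x
          have h1 : f ((a + b) • x : Md t) = f (a • x : Md t) + f (b • x : Md t) := by
            rw [add_smul]
            exact map_add f _ _
          rw [h1, ha, hb, RingHom.id_apply, RingHom.id_apply, RingHom.id_apply]
          exact (add_smul a b (show Md r from f x)).symm }
  exact le_soc (IsSemisimpleModule.range F) ⟨(u : Md t), rfl⟩

end Pool.Agent.U233.TF.Chev
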