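import Pool.Agent.U233.TF.Chev4

/-!
# The socle of an algebra with an action of the group
-/

set_option autoImplicit false
set_option linter.unusedSectionVars false

open Module

noncomputable section

namespace Pool.Agent.U233.TF.Chev

open Pool.Agent.N179.GR

attribute [local instance] Md.ac Md.md Md.fd Md.rd Md.st

variable {K : Type} [Field K] {Γ : Type} [Group Γ]

/-- derivations act on the semi-invariant vectors by scalars -/
theorem eig_smul (D : Der K Γ) {M : PRep K Γ} {f : M.V} (hf : M.Eig f) :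
    ∃ a : K, D.Θ M f = a • f := by
  classical
  rcases eq_or_ne f 0 with rfl | hf0
  · exact ⟨0, (map_zero _).trans (zero_smul _ _).symm⟩
  obtain ⟨Δ, hΔ, h⟩ := hf
  obtain ⟨Δ', hΔ', hmul, -, -⟩ := M.exists_dom
  choose! c hc using h
  let c' : Γ → K := fun g => if g ∈ Δ then c g else 1
  have hc' : ∀ g ∈ Δ, M.ρ g f = c' g • f := by
    intro g hg
    simp only [c', if_pos hg]
    exact hc g hg
  have hinj : ∀ a b : K, a • f = b • f → a = b := fun a b hab => smul_left_injective K hf0 hab
  have h1 : c' 1 = 1 := by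
    apply hinj
    rw [← hc' 1 Δ.one_mem, M.one, one_smul]
    rfl
  have h2 : ∃ Δ : Subgroup Γ, Δ.FiniteIndex ∧ ∀ g ∈ Δ, ∀ h ∈ Δ, c' (g * h) = c' g * c' h := by
    refine ⟨Δ ⊓ Δ', inferInstance, fun g hg g' hg' => ?_⟩
    apply hinj
    rw [← hc' _ (Δ.mul_mem hg.1 hg'.1), hmul g hg.2 g' hg'.2, Module.End.mul_apply,
      hc' g' hg'.1, map_smul, hc' g hg.1, smul_smul, mul_comm]
  have h3 := D.lin (lineP c' h1 h2) M (LinearMap.toSpanSingleton K M.V f)
    ⟨Δ, hΔ, fun g hg v => by
      have h4 : (c' g * (v : K)) • f = M.ρ g ((v : K) • f) := by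
        rw [map_smul, hc' g hg, smul_smul, mul_comm]
      exact h4⟩ (1 : K)
  have h4 : (LinearMap.toSpanSingleton K M.V f) (1 : K) = f := by
    rw [LinearMap.toSpanSingleton_apply, one_smul]
  refine ⟨(D.Θ (lineP c' h1 h2) (1 : K) : K), ?_⟩
  refine (congrArg (D.Θ M) h4.symm).trans (h3.symm.trans ?_)
  exact LinearMap.toSpanSingleton_apply K M.V f (D.Θ (lineP c' h1 h2) (1 : K) : K)

section rep

variable {V : Type} [AddCommGroup V] [Module K V] [FiniteDimensional K V]
  {r : Γ →* Module.End K V}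

/-- the identity -/
def un (x : Md r) : V := x

/-- the identity -/
def mk' (r : Γ →* Module.End K V) (x : V) : Md r := x

theorem mem_ofK' {A : Submodule K V} {hA : ∀ D : Der K Γ, ∀ x ∈ A, D.Θ (full V r) x ∈ A}
    {x : Md r} : x ∈ ofK r A hA ↔ un x ∈ A := Iff.rfl

theorem mem_toK' {S : Submodule (RD K Γ) (Md r)} {x : V} : x ∈ toK S ↔ mk' r x ∈ S := Iff.rfl

/-- semi-invariant vectors are contained in the socle -/
theorem eig_mem_soc {f : V} (hf : (full V r).Eig f) : mk' r f ∈ soc r := by
  rcases eq_or_ne f 0 with rfl | hf0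
  · exact Submodule.zero_mem _
  let N : Submodule (RD K Γ) (Md r) := ofK r (Submodule.span K {f}) (by
    intro D x hx
    obtain ⟨c, rfl⟩ := Submodule.mem_span_singleton.1 hx
    obtain ⟨a, ha⟩ := eig_smul D hf
    have h1 : D.Θ (full V r) (c • f) = c • D.Θ (full V r) f := map_smul (D.Θ (full V r)) c f
    rw [h1, ha]
    exact Submodule.smul_mem _ _ (Submodule.smul_mem _ _ (Submodule.mem_span_singleton_self _)))
  have hfN : mk' r f ∈ N := Submodule.mem_span_singleton_self f
  have hN : IsAtom N := by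
    refine ⟨fun h0 => hf0 ?_, fun N' hN' => ?_⟩
    · have h1 : mk' r f ∈ N := hfN
      rw [h0] at h1
      exact h1
    · by_contra hne
      obtain ⟨x, hx, hx0⟩ := Submodule.exists_mem_ne_zero_of_ne_bot hne
      have hxf : un x ∈ Submodule.span K {f} := hN'.le hx
      obtain ⟨c, hc⟩ := Submodule.mem_span_singleton.1 hxf
      have hc0 : c ≠ 0 := by
        rintro rfl
        rw [zero_smul] at hc
        exact hx0 hc.symm
      have h1 : f ∈ toK N' := by
        have h2 : c⁻¹ • un x ∈ toK N' := (toK N').smul_mem _ hx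
        rwa [← hc, smul_smul, inv_mul_cancel₀ hc0, one_smul] at h2
      refine hN'.not_ge ?_
      intro y hy
      have hy' : un y ∈ Submodule.span K {f} := hy
      obtain ⟨b, hb⟩ := Submodule.mem_span_singleton.1 hy'
      have h2 : b • f ∈ toK N' := (toK N').smul_mem _ h1
      rw [hb] at h2
      exact h2
  exact le_sSup (a := N) (isSimpleModule_iff_isAtom.2 hN) hfN

end rep

section alg

variable [CharZero K] [IsAlgClosed K]
  {A : Type} [Ring A] [Algebra K A] [FiniteDimensional K A] {τ : Γ →* (A ≃ₐ[K] A)}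

/-- **The socle is closed under multiplication.** -/
theorem soc_mul {x y : A} (hx : x ∈ toK (soc (algR τ))) (hy : y ∈ toK (soc (algR τ))) :
    x * y ∈ toK (soc (algR τ)) := by
  have i1 : IsSemisimpleModule (RD K Γ) (soc (algR τ)) := soc_semi (algR τ)
  let P : Submodule K A := Submodule.span K {z | ∃ x y : A, x ∈ toK (soc (algR τ)) ∧
    y ∈ toK (soc (algR τ)) ∧ z = x * y}
  have hP : ∀ D : Der K Γ, ∀ z ∈ P, D.Θ (full A (algR τ)) z ∈ P := by
    intro D z hz
    induction hz using Submodule.span_induction with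
    | mem z hz =>
      obtain ⟨x, y, hx, hy, rfl⟩ := hz
      rw [Θ_mul]
      refine P.add_mem (Submodule.subset_span ⟨_, _, ?_, hy, rfl⟩)
        (Submodule.subset_span ⟨_, _, hx, ?_, rfl⟩)
      · exact toK_stable (soc (algR τ)) D x hx
      · exact toK_stable (soc (algR τ)) D y hy
    | zero =>
      have h1 : D.Θ (full A (algR τ)) (0 : A) = 0 := map_zero (D.Θ (full A (algR τ)))
      rw [h1]
      exact P.zero_mem
    | add a b _ _ ha hb =>
      have h1 : D.Θ (full A (algR τ)) (a + b : A) =
        D.Θ (full A (algR τ)) a + D.Θ (full A (algR τ)) b := map_add (D.Θ (full A (algR τ))) a b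
      rw [h1]
      exact P.add_mem ha hb
    | smul c a _ ha =>
      have h1 : D.Θ (full A (algR τ)) (c • a : A) =
        c • D.Θ (full A (algR τ)) a := map_smul (D.Θ (full A (algR τ))) c a
      rw [h1]
      exact P.smul_mem _ ha
  let M₃ : Submodule (RD K Γ) (Md (algR τ)) := ofK (algR τ) P hP
  have hPm : ∀ x y : A, x ∈ toK (soc (algR τ)) → y ∈ toK (soc (algR τ)) → x * y ∈ P :=
    fun x y hx hy => Submodule.subset_span ⟨_, _, hx, hy, rfl⟩
  let β : (soc (algR τ)) →ₗ[K] (soc (algR τ)) →ₗ[K] M₃ :=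
    LinearMap.mk₂ K (fun x y => ⟨mk' (algR τ) (un x.1 * un y.1 : A),
      hPm (un x.1) (un y.1) x.2 y.2⟩)
      (fun x x' y => Subtype.ext (add_mul (un x.1) (un x'.1) (un y.1)))
      (fun c x y => Subtype.ext (smul_mul_assoc c (un x.1) (un y.1)))
      (fun x y y' => Subtype.ext (mul_add (un x.1) (un y.1) (un y'.1)))
      (fun c x y => Subtype.ext (mul_smul_comm c (un x.1) (un y.1)))
  have hβ : ∀ x y, un (β x y : M₃).1 = un x.1 * un y.1 := fun x y => rfl
  have h1 : IsSemisimpleModule (RD K Γ) M₃ := by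
    refine semi_bil ((ll (algR τ)).sub _) ((ll (algR τ)).sub _) ((ll (algR τ)).sub _) β ?_ ?_
    · intro D x y
      refine Subtype.ext ?_
      have h2 := Θ_mul (τ := τ) D (un x.1) (un y.1)
      have h3 : un (di D • (β x y : M₃) : M₃).1 = D.Θ (full A (algR τ)) (un x.1 * un y.1) :=
        di_smul (algR τ) D (β x y : M₃).1
      have h4 : un (di D • x : soc (algR τ)).1 = D.Θ (full A (algR τ)) (un x.1) :=
        di_smul (algR τ) D x.1
      have h5 : un (di D • y : soc (algR τ)).1 = D.Θ (full A (algR τ)) (un y.1) :=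
        di_smul (algR τ) D y.1
      refine h3.trans (h2.trans ?_)
      rw [← h4, ← h5]
      rfl
    · rintro ⟨z, hz⟩ -
      have key : ∀ z : A, ∀ hz : z ∈ P, (⟨mk' (algR τ) z, hz⟩ : M₃) ∈
          Submodule.span K {z | ∃ x y, z = β x y} := by
        intro z hz
        induction hz using Submodule.span_induction with
        | mem z hz =>
          obtain ⟨x, y, hx, hy, rfl⟩ := hz
          exact Submodule.subset_span ⟨⟨mk' (algR τ) x, hx⟩, ⟨mk' (algR τ) y, hy⟩, rfl⟩
        | zero => exact Submodule.zero_mem _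
        | add a b ha' hb' ha hb => exact Submodule.add_mem _ (ha) (hb)
        | smul c a ha' ha => exact Submodule.smul_mem _ c (ha)
      exact key (un z) hz
  exact le_soc h1 (hPm x y hx hy)

theorem one_mem_soc : (1 : A) ∈ toK (soc (algR τ)) :=
  eig_mem_soc ⟨⊤, inferInstance, fun g _ => ⟨1, by
    rw [one_smul]
    exact map_one (τ g)⟩⟩

/-- **Algebras generated by parts of the socle are semisimple.** -/
theorem semiS_of_gen {S : Set A} (hS : Algebra.adjoin K S = ⊤)
    (h : ∀ a ∈ S, a ∈ toK (soc (algR τ))) : SemiS (algR τ) := by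
  refine semiS_of_gs _ (gs_of_soc ?_)
  rw [eq_top_iff]
  intro a _
  have key : ∀ a : A, a ∈ Algebra.adjoin K S → a ∈ toK (soc (algR τ)) := by
    intro a ha
    induction ha using Algebra.adjoin_induction with
    | mem a ha => exact h a ha
    | algebraMap c =>
      rw [Algebra.algebraMap_eq_smul_one]
      exact (toK (soc (algR τ))).smul_mem c one_mem_soc
    | add a b _ _ ha hb => exact (toK (soc (algR τ))).add_mem ha hb
    | mul a b _ _ ha hb => exact soc_mul ha hb
  exact key (un a) (hS ▸ Algebra.mem_top)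

end alg

end Pool.Agent.U233.TF.Chev
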