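import Pool.Agent.U233.TF.FullP
import Pool.Agent.U233.FG.Fam
import Pool.Agent.H914R2.Graded

/-!
# Algebras generated by a representation with full monodromy and by Tate classes
-/

set_option autoImplicit false
set_option linter.unusedSectionVars false

namespace Pool.Agent.U233.TF

open Module Pool.Agent.N179.GR Pool.Agent.U233.FG Pool.Agent.H914

noncomputable section

variable {K : Type} [Field K] {Γ : Type} [Group Γ]

section chars

/-- the line with the character -/
def chR (c : Γ →* Kˣ) : Γ →* Module.End K K where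
  toFun g := LinearMap.lsmul K K (c g : K)
  map_one' := by
    refine LinearMap.ext fun x => ?_
    rw [map_one, Units.val_one, LinearMap.lsmul_apply, one_smul, Module.End.one_apply]
  map_mul' g h := by
    refine LinearMap.ext fun x => ?_
    rw [map_mul, Units.val_mul, Module.End.mul_apply, LinearMap.lsmul_apply, LinearMap.lsmul_apply,
      LinearMap.lsmul_apply, mul_smul]

/-- the value of a derivation on a character -/
def dch (D : Der K Γ) (c : Γ →* Kˣ) : K := (D.Θ (full K (chR c)) (1 : K) : K)

theorem dch_apply (D : Der K Γ) (c : Γ →* Kˣ) (x : K) :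
    (D.Θ (full K (chR c)) x : K) = dch D c * x := by
  have h1 : D.Θ (full K (chR c)) (x • (1 : K)) = x • D.Θ (full K (chR c)) (1 : K) :=
    map_smul (D.Θ (full K (chR c))) x (1 : K)
  rw [smul_eq_mul, mul_one] at h1
  rw [h1]
  exact mul_comm _ _

theorem dch_mul (D : Der K Γ) (c c' : Γ →* Kˣ) : dch D (c * c') = dch D c + dch D c' := by
  have h1 := D.bil (full K (chR c)) (full K (chR c')) (full K (chR (c * c'))) (LinearMap.mul K K)
    ⟨⊤, inferInstance, fun g _ x y => by
      change (c g : K) * x * ((c' g : K) * y) = ((c g * c' g : Kˣ) : K) * (x * y)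
      rw [Units.val_mul]
      ring⟩ (1 : K) (1 : K)
  simp only [LinearMap.mul_apply', mul_one, one_mul] at h1
  exact h1.symm

theorem dch_pow (D : Der K Γ) (c : Γ →* Kˣ) (n : ℕ) : dch D (c ^ n) = (n : K) * dch D c := by
  have hp : ∀ n : ℕ, (c ^ (n + 1) : Γ →* Kˣ) = c ^ n * c := fun n => MonoidHom.ext fun g => by
    rw [MonoidHom.mul_apply, MonoidHom.pow_apply, MonoidHom.pow_apply, pow_succ]
  have h0 : (c ^ 0 : Γ →* Kˣ) = 1 := MonoidHom.ext fun g => by
    rw [MonoidHom.pow_apply, pow_zero, MonoidHom.one_apply]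
  induction n with
  | zero =>
    have h1 := dch_mul D (1 : Γ →* Kˣ) 1
    have e1 : (1 * 1 : Γ →* Kˣ) = 1 := MonoidHom.ext fun g => by
      rw [MonoidHom.mul_apply, MonoidHom.one_apply, one_mul]
    rw [e1] at h1
    rw [h0, left_eq_add.1 h1, Nat.cast_zero, zero_mul]
  | succ n ih =>
    rw [hp, dch_mul, ih]
    push_cast
    ring

/-- derivations on semi-invariant vectors with a character of the whole group -/
theorem tate_Θ (D : Der K Γ) {M : PRep K Γ} {x : M.V} {c : Γ →* Kˣ}
    (h : ∃ Δ : Subgroup Γ, Δ.FiniteIndex ∧ ∀ g ∈ Δ, M.ρ g x = (c g : K) • x) :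
    D.Θ M x = dch D c • x := by
  obtain ⟨Δ, hΔ, h⟩ := h
  have h3 := D.lin (full K (chR c)) M (LinearMap.toSpanSingleton K M.V x)
    ⟨Δ, hΔ, fun g hg v => by
      have h4 : ((c g : K) * (v : K)) • x = M.ρ g ((v : K) • x) := by
        rw [map_smul, h g hg, smul_smul, mul_comm]
      exact h4⟩ (1 : K)
  have h4 : (LinearMap.toSpanSingleton K M.V x) (1 : K) = x := by
    rw [LinearMap.toSpanSingleton_apply, one_smul]
  refine (congrArg (D.Θ M) h4.symm).trans (h3.symm.trans ?_)
  exact LinearMap.toSpanSingleton_apply K M.V x (D.Θ (full K (chR c)) (1 : K) : K)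

variable {V : Type} [AddCommGroup V] [Module K V] [FiniteDimensional K V]
  {r : Γ →* Module.End K V}

/-- the twisted representation -/
def twR (c : Γ →* Kˣ) (r : Γ →* Module.End K V) : Γ →* Module.End K V where
  toFun g := ((c g)⁻¹ : Kˣ).val • r g
  map_one' := by
    rw [map_one, map_one, inv_one, Units.val_one, one_smul]
  map_mul' g h := by
    rw [map_mul, map_mul, mul_inv, Units.val_mul, smul_mul_smul_comm]

theorem fixed_tw [IsAlgClosed K] [CharZero K] {c : Γ →* Kˣ} {x : V}
    (h : ∀ D : Der K Γ, D.Θ (full V r) x = dch D c • x) :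
    ∃ Δ : Subgroup Γ, Δ.FiniteIndex ∧ ∀ g ∈ Δ, r g x = (c g : K) • x := by
  obtain ⟨Δ, hΔ, h1⟩ := Chev.fixed_of_der (twR c r) (f := x) fun D => by
    have h2 := D.bil (full K (chR c)) (full V (twR c r)) (full V r) (LinearMap.lsmul K V)
      ⟨⊤, inferInstance, fun g _ a v => by
        change ((c g : K) * a) • (((c g)⁻¹ : Kˣ).val • r g v) = r g (a • v)
        rw [map_smul, smul_smul]
        congr 1
        rw [mul_comm, ← mul_assoc, Units.inv_mul, one_mul]⟩ (1 : K) x
    have h3 : (D.Θ (full K (chR c)) (1 : K) : K) • x + (1 : K) • D.Θ (full V (twR c r)) x =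
        D.Θ (full V r) ((1 : K) • x) := h2
    rw [one_smul, one_smul, h D] at h3
    exact add_eq_left.1 h3
  refine ⟨Δ, hΔ, fun g hg => ?_⟩
  have h2 : ((c g)⁻¹ : Kˣ).val • r g x = x := h1 g hg
  have h3 := congrArg (fun y => (c g : K) • y) h2
  beta_reduce at h3
  rwa [smul_smul, Units.mul_inv, one_smul] at h3

theorem form_Θ {ψ : V →ₗ[K] V →ₗ[K] K} {c : Γ →* Kˣ}
    (h : ∀ g x y, ψ (r g x) (r g y) = (c g : K) * ψ x y) (D : Der K Γ) (x y : V) :
    ψ (D.Θ (full V r) x) y + ψ x (D.Θ (full V r) y) = dch D c * ψ x y := by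
  have h3 := D.bil (full V r) (full V r) (full K (chR c)) ψ
    ⟨⊤, inferInstance, fun g _ x y => h g x y⟩ x y
  exact h3.trans (dch_apply D c (ψ x y))

end chars

section alg

variable {A : Type} [Ring A] [Algebra K A] [FiniteDimensional K A]
  {gr : ℕ → Submodule K A} {τ : Γ →* (A ≃ₐ[K] A)}
  {V : Type} [AddCommGroup V] [Module K V] [FiniteDimensional K V]

/-- graded subspaces of an algebra which contain generators -/
theorem gr_of_gen (hint : DirectSum.IsInternal gr) {T : ℕ → Submodule K A}
    (hT : ∀ n, T n ≤ gr n) (h1 : 1 ∈ T 0)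
    (hmul : ∀ m n, ∀ a ∈ T m, ∀ b ∈ T n, a * b ∈ T (m + n)) {S : Set A}
    (hS : Algebra.adjoin K S = ⊤) (hST : ∀ s ∈ S, ∃ n, s ∈ T n) (n : ℕ) : gr n ≤ T n := by
  have hmul' : ∀ a ∈ ⨆ n, T n, ∀ b ∈ ⨆ n, T n, a * b ∈ ⨆ n, T n := by
    intro a ha b hb
    induction ha using Submodule.iSup_induction' with
    | mem m a ha =>
      induction hb using Submodule.iSup_induction' with
      | mem n b hb => exact Submodule.mem_iSup_of_mem _ (hmul m n a ha b hb)
      | zero =>
        rw [mul_zero]
        exact Submodule.zero_mem _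
      | add b b' _ _ hb hb' =>
        rw [mul_add]
        exact Submodule.add_mem _ hb hb'
    | zero =>
      rw [zero_mul]
      exact Submodule.zero_mem _
    | add a a' _ _ ha ha' =>
      rw [add_mul]
      exact Submodule.add_mem _ ha ha'
  have hall : ∀ a : A, a ∈ ⨆ n, T n := by
    intro a
    have ha : a ∈ Algebra.adjoin K S := by
      rw [hS]
      exact Algebra.mem_top
    induction ha using Algebra.adjoin_induction with
    | mem a ha =>
      obtain ⟨n, hn⟩ := hST a ha
      exact Submodule.mem_iSup_of_mem n hn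
    | algebraMap c =>
      rw [Algebra.algebraMap_eq_smul_one]
      exact Submodule.smul_mem _ _ (Submodule.mem_iSup_of_mem 0 h1)
    | add a b _ _ ha hb => exact Submodule.add_mem _ ha hb
    | mul a b _ _ ha hb => exact hmul' a ha b hb
  have hproj : ∀ a ∈ ⨆ n, T n, proj hint n a ∈ T n := by
    intro a ha
    induction ha using Submodule.iSup_induction' with
    | mem m a ha =>
      by_cases hmn : m = n
      · subst hmn
        rw [proj_same hint (hT m ha)]
        exact ha
      · rw [proj_ne hint (hT m ha) hmn]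
        exact Submodule.zero_mem _
    | zero =>
      rw [map_zero]
      exact Submodule.zero_mem _
    | add a a' _ _ ha ha' =>
      rw [map_add]
      exact Submodule.add_mem _ ha ha'
  intro a ha
  have h2 := hproj a (hall a)
  rwa [proj_same hint ha] at h2

/-- the classes of degree `2 j` on which a subgroup of finite index acts by the `j`-th power of the
character -/
def TC (χ : Γ →* Kˣ) (gr : ℕ → Submodule K A) (τ : Γ →* (A ≃ₐ[K] A)) : Set A :=
  {c | ∃ j, c ∈ gr (2 * j) ∧ ∃ Δ : Subgroup Γ, Δ.FiniteIndex ∧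
    ∀ g ∈ Δ, τ g c = (χ g : K) ^ j • c}

/-- the values of the potentially equivariant maps to `gr w` -/
def IM (r : Γ →* Module.End K V) (w : ℕ) (gr : ℕ → Submodule K A) (τ : Γ →* (A ≃ₐ[K] A)) :
    Set A :=
  {x | ∃ f : V →ₗ[K] A, PE (full V r) (full A (algR τ)) f ∧ (∀ v, f v ∈ gr w) ∧
    ∃ v, x = f v}

/-- The algebra is generated by Tate classes and by images of `V`. -/
structure GenT (χ : Γ →* Kˣ) (r : Γ →* Module.End K V) (w : ℕ) (gr : ℕ → Submodule K A)
    (τ : Γ →* (A ≃ₐ[K] A)) : Prop where
  gen : Algebra.adjoin K (TC χ gr τ ∪ IM r w gr τ) = ⊤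
  deg : ∀ g i, ∀ a ∈ gr i, τ g a ∈ gr i

variable {r : Γ →* Module.End K V} {χ : Γ →* Kˣ} {w : ℕ}

theorem TC.eig {c : A} (h : c ∈ TC χ gr τ) : (full A (algR τ)).Eig c := by
  obtain ⟨j, -, Δ, hΔ, hc⟩ := h
  exact ⟨Δ, hΔ, fun g hg => ⟨_, hc g hg⟩⟩

variable [CharZero K] [IsAlgClosed K]

/-- **The algebra is semisimple.** -/
theorem GenT.semiS (h : GenT χ r w gr τ) (hr : SemiS r) : SemiS (algR τ) := by
  refine Chev.semiS_of_gen h.gen ?_
  rintro x (hx | ⟨f, hf, -, v, rfl⟩)
  · exact Chev.eig_mem_soc (TC.eig hx)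
  · exact Chev.image_le_soc hr f hf v

section twist

variable {θ : Module.End K V} {ψ : V →ₗ[K] V →ₗ[K] K} {d : ℤ}

/-- the derivations act on `gr n`, up to the derived algebra, by multiples of `n` -/
theorem exists_deg (hint : DirectSum.IsInternal gr) (hone : (1 : A) ∈ gr 0)
    (hmulg : ∀ i j a b, a ∈ gr i → b ∈ gr j → a * b ∈ gr (i + j))
    (hV : FullS r θ ψ (χ ^ w) d) (h : GenT χ r w gr τ) (D : Der K Γ) :
    ∃ D' : Der K Γ, InDer 1 D' ∧ ∀ n, ∀ x ∈ gr n,
      D.Θ (full A (algR τ)) x = ((n : K) * (dch D χ / 2)) • x + D'.Θ (full A (algR τ)) x := by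
  have h1 : D.Θ (full V r) - ((w : K) * (dch D χ / 2)) • (1 : Module.End K V) ∈ skew ψ := by
    intro x y
    have h2 := form_Θ hV.inv D x y
    rw [dch_pow] at h2
    rw [LinearMap.sub_apply, LinearMap.sub_apply, map_sub, map_sub, LinearMap.sub_apply,
      LinearMap.smul_apply, LinearMap.smul_apply, Module.End.one_apply, Module.End.one_apply,
      map_smul, map_smul, LinearMap.smul_apply]
    simp only [smul_eq_mul]
    linear_combination h2
  rw [← hV.core_eq] at h1
  obtain ⟨D', hD', h2⟩ := mem_core.1 h1 1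
  refine ⟨D', hD', ?_⟩
  let T : ℕ → Submodule K A := fun n =>
    { carrier := {x | x ∈ gr n ∧ D.Θ (full A (algR τ)) x =
        ((n : K) * (dch D χ / 2)) • x + D'.Θ (full A (algR τ)) x}
      zero_mem' := ⟨Submodule.zero_mem _, by
        have e1 : D.Θ (full A (algR τ)) (0 : A) = 0 := map_zero (D.Θ (full A (algR τ)))
        have e2 : D'.Θ (full A (algR τ)) (0 : A) = 0 := map_zero (D'.Θ (full A (algR τ)))
        rw [e1, e2, smul_zero]
        exact (add_zero (0 : A)).symm⟩
      add_mem' := by
        rintro a b ⟨ha, ha'⟩ ⟨hb, hb'⟩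
        refine ⟨Submodule.add_mem _ ha hb, ?_⟩
        have e1 : D.Θ (full A (algR τ)) (a + b : A) =
          D.Θ (full A (algR τ)) a + D.Θ (full A (algR τ)) b := map_add (D.Θ (full A (algR τ))) a b
        have e2 : D'.Θ (full A (algR τ)) (a + b : A) =
          D'.Θ (full A (algR τ)) a + D'.Θ (full A (algR τ)) b :=
            map_add (D'.Θ (full A (algR τ))) a b
        rw [e1, e2, ha', hb']
        module
      smul_mem' := by
        rintro c a ⟨ha, ha'⟩
        refine ⟨Submodule.smul_mem _ c ha, ?_⟩
        have e1 : D.Θ (full A (algR τ)) (c • a : A) =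
          c • D.Θ (full A (algR τ)) a := map_smul (D.Θ (full A (algR τ))) c a
        have e2 : D'.Θ (full A (algR τ)) (c • a : A) =
          c • D'.Θ (full A (algR τ)) a := map_smul (D'.Θ (full A (algR τ))) c a
        rw [e1, e2, ha']
        module }
  have key := gr_of_gen hint (T := T) (fun n x hx => hx.1)
    ⟨hone, by
      rw [Θ_one, Θ_one, Nat.cast_zero, zero_mul, zero_smul]
      exact (add_zero (0 : A)).symm⟩
    (by
      rintro m n a ⟨ha, ha'⟩ b ⟨hb, hb'⟩
      refine ⟨hmulg m n a b ha hb, ?_⟩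
      rw [Θ_mul, Θ_mul, ha', hb']
      have e1 : (((m : K) * (dch D χ / 2)) • a + D'.Θ (full A (algR τ)) a) * b =
        ((m : K) * (dch D χ / 2)) • (a * b) + D'.Θ (full A (algR τ)) a * b := by
          rw [add_mul, smul_mul_assoc]
      have e2 : a * (((n : K) * (dch D χ / 2)) • b + D'.Θ (full A (algR τ)) b) =
        ((n : K) * (dch D χ / 2)) • (a * b) + a * D'.Θ (full A (algR τ)) b := by
          rw [mul_add, mul_smul_comm]
      refine (congrArg₂ (fun x y : A => x + y) e1 e2).trans ?_
      push_cast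
      beta_reduce
      module) h.gen
    (by
      rintro x (hx | ⟨f, hf, hfw, v, rfl⟩)
      · obtain ⟨j, hj, Δ, hΔ, hc⟩ := id hx
        refine ⟨2 * j, hj, ?_⟩
        rw [hD'.kill (TC.eig hx)]
        have h3 := tate_Θ D (M := full A (algR τ)) (x := x) (c := χ ^ j) ⟨Δ, hΔ, fun g hg => by
          rw [MonoidHom.pow_apply, Units.val_pow_eq_pow_val]
          exact hc g hg⟩
        rw [h3, dch_pow]
        push_cast
        refine Eq.trans ?_ (add_zero (M := A) _).symm
        congr 1
        ring
      · refine ⟨w, hfw v, ?_⟩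
        have h3 : f (D.Θ (full V r) v) = D.Θ (full A (algR τ)) (f v) :=
          D.lin (full V r) (full A (algR τ)) f hf v
        have h4 : f (D'.Θ (full V r) v) = D'.Θ (full A (algR τ)) (f v) :=
          D'.lin (full V r) (full A (algR τ)) f hf v
        have h5 : D'.Θ (full V r) v = D.Θ (full V r) v - ((w : K) * (dch D χ / 2)) • v :=
          LinearMap.congr_fun h2 v
        rw [← h3, ← h4, h5, map_sub, map_smul, add_sub_cancel])
  exact fun n x hx => (key n hx).2

/-- the eigenvalues of the grading operator on `gr n` have the parity of `n` -/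
theorem odd_zero (hint : DirectSum.IsInternal gr) (hone : (1 : A) ∈ gr 0)
    (hmulg : ∀ i j a b, a ∈ gr i → b ∈ gr j → a * b ∈ gr (i + j))
    (hV : FullS r θ ψ (χ ^ w) d) (hpar : ∀ n : ℤ, ¬ Even (n + w) → ∀ x ∈ wt θ n, x = 0)
    (h : GenT χ r w gr τ) {n : ℕ} (hn : ¬ Even n) {x : A} (hx : x ∈ gr n)
    (hE : (full A (algR τ)).Eig x) : x = 0 := by
  have h1 := hV.skew
  rw [← hV.core_eq] at h1
  obtain ⟨D', hD', h2⟩ := mem_core.1 h1 1
  let S : ℕ → Set A := fun n => {x | ∃ m : ℤ, Even (m + n) ∧
    D'.Θ (full A (algR τ)) x = (m : K) • x}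
  let T : ℕ → Submodule K A := fun n => gr n ⊓ Submodule.span K (S n)
  have key := gr_of_gen hint (T := T) (fun n x hx => hx.1)
    ⟨hone, Submodule.subset_span ⟨0, by simp, by rw [Θ_one, Int.cast_zero, zero_smul]⟩⟩
    (by
      rintro m n a ⟨ha, ha'⟩ b ⟨hb, hb'⟩
      refine ⟨hmulg m n a b ha hb, ?_⟩
      clear ha hb
      induction ha' using Submodule.span_induction with
      | mem a ha =>
        induction hb' using Submodule.span_induction with
        | mem b hb =>
          obtain ⟨k, hk, hk'⟩ := ha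
          obtain ⟨l, hl, hl'⟩ := hb
          refine Submodule.subset_span ⟨k + l, ?_, ?_⟩
          · have h3 := hk.add hl
            push_cast
            have h4 : k + l + ((m : ℤ) + n) = k + m + (l + n) := by ring
            rw [h4]
            exact h3
          · rw [Θ_mul, hk', hl']
            refine (congrArg₂ (fun x y : A => x + y) (smul_mul_assoc (k : K) a b)
              (mul_smul_comm (l : K) a b)).trans ?_
            push_cast
            exact (add_smul (k : K) (l : K) (a * b)).symm
        | zero =>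
          rw [mul_zero]
          exact Submodule.zero_mem _
        | add b b' _ _ hb hb' =>
          rw [mul_add]
          exact Submodule.add_mem _ hb hb'
        | smul c b _ hb =>
          rw [mul_smul_comm]
          exact Submodule.smul_mem _ _ hb
      | zero =>
        rw [zero_mul]
        exact Submodule.zero_mem _
      | add a a' _ _ ha ha' =>
        rw [add_mul]
        exact Submodule.add_mem _ ha ha'
      | smul c a _ ha =>
        rw [smul_mul_assoc]
        exact Submodule.smul_mem _ _ ha) h.gen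
    (by
      rintro x (hx | ⟨f, hf, hfw, v, rfl⟩)
      · obtain ⟨j, hj, Δ, hΔ, hc⟩ := id hx
        refine ⟨2 * j, hj, Submodule.subset_span ⟨0, by simp, ?_⟩⟩
        rw [hD'.kill (TC.eig hx), Int.cast_zero, zero_smul]
      · refine ⟨w, hfw v, ?_⟩
        obtain ⟨s, g, hg, rfl⟩ := hV.dia.dec v
        rw [map_sum]
        refine Submodule.sum_mem _ fun k _ => ?_
        by_cases hk : Even (k + w)
        · refine Submodule.subset_span ⟨k, hk, ?_⟩
          have h4 : f (D'.Θ (full V r) (g k)) = D'.Θ (full A (algR τ)) (f (g k)) :=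
            D'.lin (full V r) (full A (algR τ)) f hf (g k)
          have h5 : D'.Θ (full V r) (g k) = θ (g k) := LinearMap.congr_fun h2 (g k)
          rw [← h4, h5, mem_wt.1 (hg k), map_smul]
        · rw [hpar k hk (g k) (hg k), map_zero]
          exact Submodule.zero_mem _)
  have h3 : x ∈ Submodule.span K (S n) := (key n hx).2
  have h4 : D'.Θ (full A (algR τ)) x = 0 := hD'.kill hE
  -- the components
  have h5 : ∀ y ∈ Submodule.span K (S n), ∃ (s : Finset ℤ) (g : ℤ → A), 0 ∉ s ∧
      (∀ m, D'.Θ (full A (algR τ)) (g m) = (m : K) • g m) ∧ y = ∑ m ∈ s, g m := by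
    classical
    intro y hy
    induction hy using Submodule.span_induction with
    | mem y hy =>
      obtain ⟨m, hm, hy⟩ := hy
      refine ⟨{m}, fun k => if k = m then y else 0, ?_, fun k => ?_, ?_⟩
      · rw [Finset.mem_singleton]
        rintro rfl
        rw [zero_add] at hm
        exact hn (by exact_mod_cast hm)
      · beta_reduce
        split_ifs with hk
        · rw [hk]
          exact hy
        · have e1 : D'.Θ (full A (algR τ)) (0 : A) = 0 := map_zero (D'.Θ (full A (algR τ)))
          rw [e1, smul_zero]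
      · rw [Finset.sum_singleton, if_pos rfl]
    | zero =>
      refine ⟨∅, fun _ => 0, by simp, fun m => ?_, by simp⟩
      have e1 : D'.Θ (full A (algR τ)) (0 : A) = 0 := map_zero (D'.Θ (full A (algR τ)))
      rw [e1, smul_zero]
    | add y z _ _ hy hz =>
      obtain ⟨s, g, hs, hg, rfl⟩ := hy
      obtain ⟨s', g', hs', hg', rfl⟩ := hz
      refine ⟨s ∪ s', fun k => (if k ∈ s then g k else 0) + (if k ∈ s' then g' k else 0), ?_,
        fun k => ?_, ?_⟩
      · simp [hs, hs']
      · beta_reduce
        have e1 : ∀ a b : A, D'.Θ (full A (algR τ)) (a + b : A) =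
          D'.Θ (full A (algR τ)) a + D'.Θ (full A (algR τ)) b :=
            fun a b => map_add (D'.Θ (full A (algR τ))) a b
        have e0 : D'.Θ (full A (algR τ)) (0 : A) = (k : K) • (0 : A) := by
          rw [smul_zero]
          exact map_zero (D'.Θ (full A (algR τ)))
        rw [e1, smul_add]
        congr 1
        · split_ifs
          · exact hg k
          · exact e0
        · split_ifs
          · exact hg' k
          · exact e0
      · rw [Finset.sum_add_distrib]
        congr 1
        · rw [← Finset.sum_filter]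
          congr 1
          ext a
          simp
        · rw [← Finset.sum_filter]
          congr 1
          ext a
          simp
    | smul c y _ hy =>
      obtain ⟨s, g, hs, hg, rfl⟩ := hy
      refine ⟨s, fun k => c • g k, hs, fun k => ?_, by rw [Finset.smul_sum]⟩
      have e1 : D'.Θ (full A (algR τ)) (c • g k : A) =
        c • D'.Θ (full A (algR τ)) (g k) := map_smul (D'.Θ (full A (algR τ))) c (g k)
      rw [e1, hg k, smul_comm]
  obtain ⟨s, g, hs, hg, rfl⟩ := h5 x h3
  have h6 := comp_mem (D := D'.Θ (full A (algR τ)))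
    (A := LinearMap.ker (D'.Θ (full A (algR τ)))) (fun y hy => by
      rw [LinearMap.mem_ker] at hy
      rw [hy]
      exact Submodule.zero_mem _) s g (fun m _ => hg m) h4
  refine Finset.sum_eq_zero fun m hm => ?_
  have h7 : D'.Θ (full A (algR τ)) (g m) = 0 := LinearMap.mem_ker.1 (h6 m hm)
  rw [hg m] at h7
  refine (smul_eq_zero.1 h7).resolve_left fun h8 => ?_
  have h9 : m = 0 := by exact_mod_cast h8
  exact hs (h9 ▸ hm)

/-- **The semi-invariant elements are combinations of Tate classes.** -/
theorem GenT.twisted (hint : DirectSum.IsInternal gr) (hone : (1 : A) ∈ gr 0)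
    (hmulg : ∀ i j a b, a ∈ gr i → b ∈ gr j → a * b ∈ gr (i + j))
    (hV : FullS r θ ψ (χ ^ w) d) (hpar : ∀ n : ℤ, ¬ Even (n + w) → ∀ x ∈ wt θ n, x = 0)
    (h : GenT χ r w gr τ) {z : A} (hz : (full A (algR τ)).Eig z) :
    z ∈ Submodule.span K (TC χ gr τ) := by
  have hhom : ∀ n, ∀ x ∈ gr n, (full A (algR τ)).Eig x → x ∈ Submodule.span K (TC χ gr τ) := by
    intro n x hx hE
    by_cases hn : Even n
    · obtain ⟨j, rfl⟩ := hn
      rw [← two_mul] at hx
      refine Submodule.subset_span ⟨j, hx, ?_⟩
      have h1 := fixed_tw (r := algR τ) (c := χ ^ j) (x := x) fun D => by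
        obtain ⟨D', hD', h2⟩ := exists_deg hint hone hmulg hV h D
        rw [h2 _ x hx, hD'.kill hE, dch_pow]
        push_cast
        refine (add_zero (M := A) _).trans ?_
        congr 1
        ring
      obtain ⟨Δ, hΔ, h2⟩ := h1
      refine ⟨Δ, hΔ, fun g hg => ?_⟩
      have h3 := h2 g hg
      rwa [MonoidHom.pow_apply, Units.val_pow_eq_pow_val] at h3
    · rw [odd_zero hint hone hmulg hV hpar h hn hx hE]
      exact Submodule.zero_mem _
  have hcomm : ∀ g n (a : A), proj hint n (τ g a) = τ g (proj hint n a) := by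
    intro g n a
    refine gr_induction hint (p := fun a => proj hint n (τ g a) = τ g (proj hint n a)) ?_ ?_ a
    · intro i a ha
      by_cases hi : i = n
      · subst hi
        rw [proj_same hint ha, proj_same hint (h.deg g i a ha)]
      · rw [proj_ne hint ha hi, proj_ne hint (h.deg g i a ha) hi, map_zero]
    · intro a b ha hb
      rw [map_add, map_add, map_add, map_add, ha, hb]
  have hcomp : ∀ n, (full A (algR τ)).Eig (proj hint n z) := by
    intro n
    obtain ⟨Δ, hΔ, h1⟩ := hz
    refine ⟨Δ, hΔ, fun g hg => ?_⟩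
    obtain ⟨c, hc⟩ := h1 g hg
    refine ⟨c, ?_⟩
    have hc' : τ g z = c • z := hc
    have h2 := hcomm g n z
    rw [hc', map_smul] at h2
    exact h2.symm
  -- the sum of the components
  have hsum : ∀ a : A, (∀ n, proj hint n a ∈ Submodule.span K (TC χ gr τ)) →
      a ∈ Submodule.span K (TC χ gr τ) := by
    classical
    intro a ha
    have h1 : a ∈ ⨆ n, gr n := by
      rw [hint.submodule_iSup_eq_top]
      trivial
    obtain ⟨f, hf, hfa⟩ := (Submodule.mem_iSup_iff_exists_finsupp gr a).1 h1
    have h2 : ∀ n, proj hint n a = f n := by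
      intro n
      rw [← hfa, Finsupp.sum, map_sum]
      by_cases hn : n ∈ f.support
      · rw [Finset.sum_eq_single_of_mem n hn]
        · exact proj_same hint (hf n)
        · intro m _ hm
          exact proj_ne hint (hf m) hm
      · rw [Finsupp.notMem_support_iff.1 hn]
        refine Finset.sum_eq_zero fun m hm => ?_
        refine proj_ne hint (hf m) ?_
        rintro rfl
        exact hn hm
    rw [← hfa, Finsupp.sum]
    exact Submodule.sum_mem _ fun n _ => (h2 n) ▸ ha n
  exact hsum z fun n => hhom n _ (proj_mem hint n z) (hcomp n)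

end twist

end alg

end

end Pool.Agent.U233.TF
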