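import Pool.Agent.U233.TF.Grp
import Pool.Agent.U233.TF.Chev5

/-!
# Full monodromy: the core is the Lie algebra of all skew operators
-/

set_option autoImplicit false
set_option linter.unusedSectionVars false

namespace Pool.Agent.U233.TF

open Module Pool.Agent.N179.GR Pool.Agent.U233.FG

noncomputable section

variable {K : Type} [Field K] {Γ : Type} [Group Γ]
  {V : Type} [AddCommGroup V] [Module K V] [FiniteDimensional K V]
  {r : Γ →* Module.End K V} {θ : Module.End K V} {ψ : V →ₗ[K] V →ₗ[K] K} {μ : Γ →* Kˣ} {d : ℤ}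

/-- A representation `V` with a form and a grading such that the skew operators form a strongly
irreducible representation. -/
structure FullS (r : Γ →* Module.End K V) (θ : Module.End K V) (ψ : V →ₗ[K] V →ₗ[K] K)
    (μ : Γ →* Kˣ) (d : ℤ) : Prop where
  pos : 0 < d
  lev : Lv θ d
  dia : Dia θ
  skew : θ ∈ skew ψ
  nd : ∀ x, (∀ y, ψ x y = 0) → x = 0
  inv : ∀ g x y, ψ (r g x) (r g y) = (μ g : K) * ψ x y
  irr : ∀ Δ : Subgroup Γ, Δ.FiniteIndex → ∀ A, (∀ g ∈ Δ, ∀ X ∈ A, cj r g X ∈ A) →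
    A ≤ TF.skew ψ → A = ⊥ ∨ A = TF.skew ψ
  top : ((∀ x y, ψ x y = -ψ y x) ∧ (∀ x ∈ wt θ 0, x = 0) ∧ 1 ≤ finrank K (wt θ d)) ∨
    ((∀ x y, ψ x y = ψ y x) ∧ 5 ≤ finrank K (wt θ d))

namespace FullS

theorem full (h : FullS r θ ψ μ d) : FullR r θ ψ μ d where
  pos := h.pos
  lev := h.lev
  dia := h.dia
  skew := h.skew
  nd := h.nd
  inv := h.inv
  irr A hA hle := h.irr ⊤ inferInstance A (fun g _ X hX => hA g X hX) hle
  top := h.top

variable [CharZero K]

theorem exists_top (h : FullS r θ ψ μ d) : ∃ x ∈ wt θ d, x ≠ 0 := by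
  have h1 : 0 < finrank K (wt θ d) := by
    rcases h.top with ⟨-, -, h1⟩ | ⟨-, h1⟩ <;> omega
  have h2 : Nontrivial (wt θ d) := Module.finrank_pos_iff.1 h1
  obtain ⟨x, hx⟩ := exists_ne (0 : wt θ d)
  exact ⟨x, x.2, fun h0 => hx (Subtype.ext h0)⟩

theorem theta_ne (h : FullS r θ ψ μ d) : θ ≠ 0 := by
  intro h0
  obtain ⟨x, hx, hx0⟩ := h.exists_top
  have h1 := mem_wt.1 hx
  rw [h0, LinearMap.zero_apply] at h1
  have h2 := (smul_eq_zero.1 h1.symm).resolve_right hx0
  have h3 : d = 0 := by exact_mod_cast h2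
  exact h.pos.ne' h3

/-- the operators `S(x, y)` -/
theorem exists_S (h : FullS r θ ψ μ d) : ∃ E : K, E * E = 1 ∧ (∀ x y, ψ x y = E * ψ y x) ∧
    ∃ x ∈ wt θ d, ∃ y ∈ wt θ d, SZ ψ E x y ≠ 0 := by
  rcases h.top with ⟨hs, -, h1⟩ | ⟨hs, h5⟩
  · refine ⟨-1, by norm_num, fun x y => by rw [hs, neg_one_mul], ?_⟩
    obtain ⟨x, hx, hx0⟩ := h.exists_top
    refine ⟨x, hx, x, hx, fun h0 => hx0 (h.nd x fun v => ?_)⟩
    have h2 := LinearMap.congr_fun h0 v
    rw [SZ_apply, LinearMap.zero_apply, neg_one_smul, sub_neg_eq_add, ← add_smul, ← two_mul] at h2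
    have h3 := (smul_eq_zero.1 h2).resolve_right hx0
    exact (mul_eq_zero.1 h3).resolve_left two_ne_zero
  · refine ⟨1, by norm_num, fun x y => by rw [hs, one_mul], ?_⟩
    obtain ⟨b, hb⟩ : ∃ b : Fin 2 → wt θ d, LinearIndependent K b :=
      exists_linearIndependent_of_le_finrank (by omega)
    have hb' : LinearIndependent K (fun i => ((b i : wt θ d) : V)) :=
      hb.map' (wt θ d).subtype (Submodule.ker_subtype _)
    refine ⟨b 0, (b 0).2, b 1, (b 1).2, fun h0 => ?_⟩
    have h4 : ((b 0 : wt θ d) : V) = 0 := by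
      refine h.nd _ fun v => ?_
      have h2 := LinearMap.congr_fun h0 v
      rw [SZ_apply, LinearMap.zero_apply, one_smul] at h2
      have h3 := Fintype.linearIndependent_iff.1 hb' ![-ψ (b 1) v, ψ (b 0) v] (by
        rw [Fin.sum_univ_two]
        simp only [Matrix.cons_val_zero, Matrix.cons_val_one]
        rw [neg_smul, neg_add_eq_sub]
        exact h2) 1
      simpa using h3
    exact hb'.ne_zero 0 h4

theorem noSemi (h : FullS r θ ψ μ d) {X : Module.End K V} (hX : X ∈ TF.skew ψ)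
    (hE : (N179.GR.full (Module.End K V) (cj r)).Eig X) : X = 0 := by
  by_contra hX0
  obtain ⟨Δ, hΔ, hg⟩ := hE
  have h1 := h.irr Δ hΔ (Submodule.span K {X}) (by
    intro g hgΔ Y hY
    obtain ⟨c, rfl⟩ := Submodule.mem_span_singleton.1 hY
    obtain ⟨a, ha⟩ := hg g hgΔ
    have ha' : cj r g X = a • X := ha
    rw [map_smul, ha']
    exact Submodule.smul_mem _ _ (Submodule.smul_mem _ _ (Submodule.mem_span_singleton_self _)))
    ((Submodule.span_singleton_le_iff_mem _ _).2 hX)
  rcases h1 with h1 | h1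
  · exact hX0 (Submodule.span_singleton_eq_bot.1 h1)
  obtain ⟨E, hE, hs, x, hx, y, hy, hS⟩ := h.exists_S
  obtain ⟨a, ha⟩ := Submodule.mem_span_singleton.1 (h1 ▸ h.skew : θ ∈ Submodule.span K {X})
  obtain ⟨b, hb⟩ := Submodule.mem_span_singleton.1
    (h1 ▸ SZ_mem hE hs x y : SZ ψ E x y ∈ Submodule.span K {X})
  have h2 := br_SZ (E := E) h.skew x y
  rw [mem_wt.1 hx, mem_wt.1 hy, map_smul, LinearMap.smul_apply, map_smul, ← add_smul, ← hb, ← ha,
    smul_mul_smul_comm, smul_mul_smul_comm, mul_comm a b, sub_self] at h2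
  have h3 := (smul_eq_zero.1 h2.symm).resolve_right (hb ▸ hS)
  have h4 : d + d = 0 := by exact_mod_cast h3
  have := h.pos
  omega

theorem skewStab (h : FullS r θ ψ μ d) : Stab (cj r) (TF.skew ψ) := skew_stab h.inv

/-- **The core.** -/
theorem core_eq [IsAlgClosed K] (h : FullS r θ ψ μ d) :
    core (N179.GR.full V r) = TF.skew ψ := by
  refine (h.full.irr _ (core_stab r) (core_le_skew h.inv)).resolve_left fun hbot => ?_
  obtain ⟨k₀, hk₀⟩ := exists_stable (N179.GR.full V r) ∅
  have hkill : ∀ D : Der K Γ, InDer k₀ D → D.Θ (N179.GR.full V r) = 0 := by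
    intro D hD
    have h1 : D.Θ (N179.GR.full V r) ∈ ak k₀ (N179.GR.full V r) ∅ := ⟨D, hD, by simp, rfl⟩
    rw [hk₀ k₀ le_rfl] at h1
    have h2 : D.Θ (N179.GR.full V r) ∈ core (N179.GR.full V r) := h1
    rw [hbot] at h2
    exact (Submodule.mem_bot K).1 h2
  have hst := h.skewStab
  have hss : SemiS (subR (cj r) (TF.skew ψ) hst) := by
    intro A hA
    have h1 := h.full.irr (A.map (TF.skew ψ).subtype) (by
      rintro g _ ⟨x, hx, rfl⟩
      exact ⟨_, hA g x hx, rfl⟩) (by
      rintro _ ⟨x, -, rfl⟩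
      exact x.2)
    rcases h1 with h1 | h1
    · refine ⟨⊤, fun _ _ _ => trivial, ?_⟩
      have h2 : A = ⊥ := by
        rw [eq_bot_iff]
        intro x hx
        have h3 : (x : Module.End K V) ∈ A.map (TF.skew ψ).subtype := ⟨x, hx, rfl⟩
        rw [h1, Submodule.mem_bot] at h3
        exact (Submodule.mem_bot K).2 (Subtype.ext h3)
      rw [h2]
      exact isCompl_bot_top
    · refine ⟨⊥, fun g x hx => ?_, ?_⟩
      · rw [Submodule.mem_bot] at hx
        rw [hx, map_zero]
        exact Submodule.zero_mem _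
      · have h2 : A = ⊤ := by
          rw [eq_top_iff]
          rintro ⟨x, hx⟩ -
          rw [← h1] at hx
          obtain ⟨y, hy, h3⟩ := hx
          have h4 : y = ⟨x, ‹_›⟩ := Subtype.ext h3
          rwa [h4] at hy
        rw [h2]
        exact isCompl_top_bot
  have h1 := le_eigSpan hss (A := ⊤) (fun _ _ _ => trivial) (k := k₀) fun D hD x _ => by
    refine Subtype.ext ?_
    rw [sub_Θ, cj_Θ, hkill D hD, zero_mul, mul_zero, sub_zero]
    rfl
  have h2 : eigSpan (subR (cj r) (TF.skew ψ) hst) ⊤ = ⊥ := by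
    unfold eigSpan
    rw [Submodule.span_eq_bot]
    rintro x ⟨-, hx⟩
    exact Subtype.ext (h.noSemi x.2 (eig_sub hx))
  rw [h2] at h1
  have h3 : (⟨θ, h.skew⟩ : TF.skew ψ) ∈ (⊥ : Submodule K (TF.skew ψ)) := h1 trivial
  exact h.theta_ne (congrArg Subtype.val ((Submodule.mem_bot K).1 h3))

/-- the representation is irreducible under the skew operators -/
theorem irrV (h : FullS r θ ψ μ d) {A : Submodule K V} (hA : ∀ X ∈ TF.skew ψ, ∀ a ∈ A, X a ∈ A) :
    A = ⊥ ∨ A = ⊤ := by
  by_contra hcon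
  push Not at hcon
  obtain ⟨hbot, htop⟩ := hcon
  obtain ⟨a, ha, ha0⟩ := Submodule.exists_mem_ne_zero_of_ne_bot hbot
  obtain ⟨x, hx⟩ : ∃ x, x ∉ A := by
    by_contra hall
    push Not at hall
    exact htop (eq_top_iff.2 fun x _ => hall x)
  rcases h.top with ⟨hs, -, -⟩ | ⟨hs, h5⟩
  · have hs' : ∀ x y, ψ x y = (-1) * ψ y x := fun x y => by rw [hs, neg_one_mul]
    have key : ∀ y, ψ y a ≠ 0 → y ∈ A := by
      intro y hy
      have h1 := hA _ (SZ_mem (by norm_num) hs' y y) a ha
      rw [SZ_apply, neg_one_smul, sub_neg_eq_add, ← two_smul K, smul_smul] at h1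
      have h2 := A.smul_mem (2 * ψ y a)⁻¹ h1
      rwa [smul_smul, inv_mul_cancel₀ (mul_ne_zero two_ne_zero hy), one_smul] at h2
    obtain ⟨z, hz⟩ : ∃ z, ψ z a ≠ 0 := by
      by_contra hall
      push Not at hall
      exact ha0 (nd2 h.nd hs' a hall)
    by_cases hxa : ψ x a = 0
    · have h1 : x + z ∈ A := key _ (by
        rw [map_add, LinearMap.add_apply, hxa, zero_add]
        exact hz)
      exact hx ((A.add_mem_iff_left (key z hz)).1 h1)
    · exact hx (key x hxa)
  · have hs' : ∀ x y, ψ x y = 1 * ψ y x := fun x y => by rw [hs, one_mul]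
    have perp : ∀ b ∈ A, b ≠ 0 → ∀ y, ψ y b = 0 → y ∈ A := by
      intro b hb hb0 y hy
      obtain ⟨z, hz⟩ : ∃ z, ψ z b ≠ 0 := by
        by_contra hall
        push Not at hall
        exact hb0 (nd2 h.nd hs' b hall)
      have h1 := hA _ (SZ_mem (by norm_num) hs' z y) b hb
      rw [SZ_apply, hy, zero_smul, smul_zero, sub_zero] at h1
      have h2 := A.smul_mem (ψ z b)⁻¹ h1
      rwa [smul_smul, inv_mul_cancel₀ hz, one_smul] at h2
    have hinj : Function.Injective ((ψ x).domRestrict A) := by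
      rw [injective_iff_map_eq_zero]
      intro b hb
      by_contra hb0
      exact hx (perp b b.2 (fun h0 => hb0 (Subtype.ext h0)) x hb)
    have h1 : finrank K A ≤ 1 := by
      have := LinearMap.finrank_le_finrank_of_injective hinj
      rwa [finrank_self] at this
    have h2 : LinearMap.ker (ψ a) ≤ A := by
      intro y hy
      refine perp a ha ha0 y ?_
      rw [hs]
      exact hy
    have h3 : finrank K (LinearMap.ker (ψ a)) ≤ 1 := (Submodule.finrank_mono h2).trans h1
    have h4 := LinearMap.finrank_range_add_finrank_ker (ψ a)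
    have h6 : finrank K (LinearMap.range (ψ a)) ≤ 1 := by
      have := Submodule.finrank_le (LinearMap.range (ψ a))
      rwa [finrank_self] at this
    have h7 := Submodule.finrank_le (wt θ d)
    omega

/-- **The representation is semisimple.** -/
theorem semiS [IsAlgClosed K] (h : FullS r θ ψ μ d) : SemiS r := by
  intro A hA
  have h1 := h.irrV (A := A) fun X hX a ha => by
    rw [← h.core_eq] at hX
    obtain ⟨D, -, rfl⟩ := mem_core.1 hX 1
    exact Θ_mem D hA ha
  rcases h1 with rfl | rfl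
  · exact ⟨⊤, fun _ _ _ => trivial, isCompl_bot_top⟩
  · refine ⟨⊥, fun g x hx => ?_, isCompl_top_bot⟩
    rw [Submodule.mem_bot] at hx
    rw [hx, map_zero]
    exact Submodule.zero_mem _

theorem semiS_cj [IsAlgClosed K] (h : FullS r θ ψ μ d) : SemiS (cj r) := Chev.SemiS.endo h.semiS

end FullS

end

end Pool.Agent.U233.TF
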