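import Pool.Agent.U233.TF.It

/-!
# Representations with full monodromy split off from representations of small level
-/

set_option autoImplicit false
set_option linter.unusedSectionVars false

namespace Pool.Agent.U233.TF

open Module Pool.Agent.N179.GR Pool.Agent.U233.FG

noncomputable section

variable {K : Type} [Field K] {Γ : Type} [Group Γ]
  {V : Type} [AddCommGroup V] [Module K V] [FiniteDimensional K V]
  {U : Type} [AddCommGroup U] [Module K U] [FiniteDimensional K U]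

theorem r_inv (r : Γ →* Module.End K V) (g : Γ) (x : V) : r g (r g⁻¹ x) = x := by
  rw [← Module.End.mul_apply, ← map_mul, mul_inv_cancel, map_one, Module.End.one_apply]

theorem r_inv' (r : Γ →* Module.End K V) (g : Γ) (x : V) : r g⁻¹ (r g x) = x := by
  rw [← Module.End.mul_apply, ← map_mul, inv_mul_cancel, map_one, Module.End.one_apply]

/-- The commutator with `θ + η` preserves the stable spaces of operators on `V × U`. -/
def Cmp (r : Γ →* Module.End K V) (t : Γ →* Module.End K U) (θ : Module.End K V)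
    (η : Module.End K U) : Prop :=
  ∀ A : Submodule K (Module.End K (V × U)),
    (∀ g, ∀ X ∈ A, (r g).prodMap (t g) * X * (r g⁻¹).prodMap (t g⁻¹) ∈ A) →
    ∀ X ∈ A, θ.prodMap η * X - X * θ.prodMap η ∈ A

variable {r : Γ →* Module.End K V} {t : Γ →* Module.End K U} {θ : Module.End K V}
  {η : Module.End K U}

/-- equivariant maps respect the commutators -/
theorem Cmp.equi (h : Cmp r t θ η) {L : Submodule K (Module.End K V)} (hL : Stab (cj r) L)
    {Φ : Module.End K V →ₗ[K] Module.End K U} (hΦ : ∀ g, ∀ X ∈ L, Φ (cj r g X) = cj t g (Φ X)) :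
    ∀ X ∈ L, Φ (θ * X - X * θ) = η * Φ X - Φ X * η := by
  let A : Submodule K (Module.End K (V × U)) :=
    { carrier := {Y | ∃ X ∈ L, Y = X.prodMap (Φ X)}
      zero_mem' := ⟨0, L.zero_mem, by rw [map_zero]; rfl⟩
      add_mem' := by
        rintro _ _ ⟨X, hX, rfl⟩ ⟨Y, hY, rfl⟩
        exact ⟨X + Y, L.add_mem hX hY, by rw [map_add, LinearMap.prodMap_add]⟩
      smul_mem' := by
        rintro c _ ⟨X, hX, rfl⟩
        exact ⟨c • X, L.smul_mem _ hX, by rw [map_smul, LinearMap.prodMap_smul]⟩ }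
  intro X hX
  obtain ⟨Y, hY, h1⟩ := h A (by
    rintro g _ ⟨X, hX, rfl⟩
    refine ⟨cj r g X, hL g X hX, ?_⟩
    rw [hΦ g X hX, cj_apply, cj_apply, LinearMap.prodMap_mul, LinearMap.prodMap_mul])
    (X.prodMap (Φ X)) ⟨X, hX, rfl⟩
  have h2 : ∀ v u, θ (X v) - X (θ v) = Y v ∧ η (Φ X u) - Φ X (η u) = Φ Y u := by
    intro v u
    have h3 := LinearMap.congr_fun h1 (v, u)
    exact ⟨congrArg Prod.fst h3, congrArg Prod.snd h3⟩
  have h3 : θ * X - X * θ = Y := LinearMap.ext fun v => (h2 v 0).1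
  rw [h3]
  exact (LinearMap.ext fun u => (h2 0 u).2).symm

/-- stable spaces of linear maps -/
theorem Cmp.hom (h : Cmp r t θ η) {H : Submodule K (V →ₗ[K] U)}
    (hH : ∀ g, ∀ f ∈ H, t g ∘ₗ f ∘ₗ r g⁻¹ ∈ H) : ∀ f ∈ H, homD θ η f ∈ H := by
  let em : (V →ₗ[K] U) → Module.End K (V × U) := fun f =>
    LinearMap.inr K V U ∘ₗ f ∘ₗ LinearMap.fst K V U
  let A : Submodule K (Module.End K (V × U)) :=
    { carrier := {Y | ∃ f ∈ H, Y = em f}
      zero_mem' := ⟨0, H.zero_mem, by simp [em]⟩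
      add_mem' := by
        rintro _ _ ⟨X, hX, rfl⟩ ⟨Y, hY, rfl⟩
        exact ⟨X + Y, H.add_mem hX hY, by
          simp only [em]
          rw [LinearMap.add_comp, LinearMap.comp_add]⟩
      smul_mem' := by
        rintro c _ ⟨X, hX, rfl⟩
        exact ⟨c • X, H.smul_mem _ hX, by
          simp only [em]
          rw [LinearMap.smul_comp, LinearMap.comp_smul]⟩ }
  intro f hf
  obtain ⟨f', hf', h1⟩ := h A (by
    rintro g _ ⟨f, hf, rfl⟩
    refine ⟨_, hH g f hf, LinearMap.ext fun x => ?_⟩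
    change (r g (0 : V), t g (f (r g⁻¹ x.1))) = ((0 : V), t g (f (r g⁻¹ x.1)))
    rw [map_zero]) (em f) ⟨f, hf, rfl⟩
  have h2 : homD θ η f = f' := by
    refine LinearMap.ext fun v => ?_
    have h3 := congrArg Prod.snd (LinearMap.congr_fun h1 (v, 0))
    exact h3
  rw [h2]
  exact hf'

section main

variable {ψ : V →ₗ[K] V →ₗ[K] K} {μ : Γ →* Kˣ}
  (hμ : ∀ g x y, ψ (r g x) (r g y) = (μ g : K) * ψ x y)

include hμ

theorem form_r (g : Γ) (x y : V) : ψ (r g x) y = (μ g : K) * ψ x (r g⁻¹ y) := by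
  rw [← hμ, r_inv]

theorem skew_stab : Stab (cj r) (skew ψ) := by
  intro g X hX x y
  rw [cj_apply]
  simp only [Module.End.mul_apply]
  have h1 := hX (r g⁻¹ x) (r g⁻¹ y)
  have h3 : ψ x (r g (X (r g⁻¹ y))) = (μ g : K) * ψ (r g⁻¹ x) (X (r g⁻¹ y)) := by
    rw [← hμ, r_inv]
  rw [form_r hμ, h3, ← mul_add, h1, mul_zero]

theorem core_le_skew : core (full V r) ≤ skew ψ := by
  intro X hX x y
  obtain ⟨D, hD, rfl⟩ := mem_core.1 hX 1
  exact skew_of_form hμ hD x y

theorem SZ_equi (E : K) (g : Γ) (x y : V) :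
    SZ ψ E (r g x) (r g y) = (μ g : K) • cj r g (SZ ψ E x y) := by
  refine LinearMap.ext fun v => ?_
  rw [LinearMap.smul_apply, cj_apply, Module.End.mul_apply, Module.End.mul_apply, SZ_apply,
    SZ_apply, form_r hμ, form_r hμ, map_sub, map_smul, map_smul, map_smul, smul_sub, smul_smul,
    smul_smul, smul_smul, smul_smul]
  congr 2
  ring

theorem IT_stab {E : K} (hE : E * E = 1) (hs : ∀ x y, ψ x y = E * ψ y x)
    {Φ : Module.End K V →ₗ[K] Module.End K U}
    (hΦ : ∀ g, ∀ X ∈ skew ψ, Φ (cj r g X) = cj t g (Φ X)) (g : Γ) (f : V →ₗ[K] U)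
    (hf : f ∈ IT ψ E Φ) : t g ∘ₗ f ∘ₗ r g⁻¹ ∈ IT ψ E Φ := by
  intro x y v
  obtain ⟨x', rfl⟩ : ∃ x', r g x' = x := ⟨_, r_inv r g x⟩
  obtain ⟨y', rfl⟩ : ∃ y', r g y' = y := ⟨_, r_inv r g y⟩
  simp only [LinearMap.comp_apply]
  rw [SU_apply, SZ_equi hμ, map_smul, hΦ g _ (SZ_mem hE hs x' y'), LinearMap.smul_apply,
    LinearMap.smul_apply, cj_apply, Module.End.mul_apply, Module.End.mul_apply, r_inv', ← SU_apply,
    hf, map_smul, map_smul, map_smul, cj_apply, Module.End.mul_apply, Module.End.mul_apply, r_inv']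

end main

/-- The evaluation `V ⊗ H → U` is injective. -/
def Inj (H : Submodule K (V →ₗ[K] U)) : Prop :=
  ∀ (m : ℕ) (f : Fin m → V →ₗ[K] U) (v : Fin m → V), (∀ i, f i ∈ H) → LinearIndependent K f →
    ∑ i, f i (v i) = 0 → ∀ i, v i = 0

/-- the level is at most `d` -/
def Lv (θ : Module.End K V) (d : ℤ) : Prop := ∀ n, (d < n ∨ n < -d) → ∀ u ∈ wt θ n, u = 0

/-- A representation `V` with a form and a grading such that the skew operators form an
irreducible representation. -/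
structure FullR (r : Γ →* Module.End K V) (θ : Module.End K V) (ψ : V →ₗ[K] V →ₗ[K] K)
    (μ : Γ →* Kˣ) (d : ℤ) : Prop where
  pos : 0 < d
  lev : Lv θ d
  dia : Dia θ
  skew : θ ∈ skew ψ
  nd : ∀ x, (∀ y, ψ x y = 0) → x = 0
  inv : ∀ g x y, ψ (r g x) (r g y) = (μ g : K) * ψ x y
  irr : ∀ A, Stab (cj r) A → A ≤ TF.skew ψ → A = ⊥ ∨ A = TF.skew ψ
  top : ((∀ x y, ψ x y = -ψ y x) ∧ (∀ x ∈ wt θ 0, x = 0) ∧ 1 ≤ finrank K (wt θ d)) ∨
    ((∀ x y, ψ x y = ψ y x) ∧ 5 ≤ finrank K (wt θ d))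

variable [CharZero K]

/-- `V` does not split off: then `U` contains some `V ⊗ H`. -/
theorem spl_level {ψ : V →ₗ[K] V →ₗ[K] K} {μ : Γ →* Kˣ} {d : ℤ} (h : FullR r θ ψ μ d)
    (hss : SemiS (cj t)) (hη : Dia η) (hU : Lv η d) (hcmp : Cmp r t θ η)
    (hocc : ∀ H : Submodule K (V →ₗ[K] U), (∀ g, ∀ f ∈ H, t g ∘ₗ f ∘ₗ r g⁻¹ ∈ H) →
      (∀ f ∈ H, homD θ η f = 0) → Inj H → H = ⊥) :
    Spl (full V r) {full U t} := by
  by_contra hn
  obtain ⟨Φ, hΦ1, hΦ2, hΦ3⟩ := exists_phi (r := r) (t := t) hss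
  obtain ⟨hcore, hinj⟩ := phi_inj hΦ1 (core_le_skew h.inv) h.irr hn
  rw [hcore] at hΦ2 hΦ3
  have hbr : ∀ X ∈ skew ψ, ∀ Y ∈ skew ψ, Φ (X * Y - Y * X) = Φ X * Φ Y - Φ Y * Φ X := hΦ3
  have hD := hcmp.equi (skew_stab h.inv) hΦ2
  rcases h.top with ⟨hs, h0, h1⟩ | ⟨hs, h5⟩
  · have hs' : ∀ x y, ψ x y = (-1) * ψ y x := fun x y => by rw [hs, neg_one_mul]
    obtain ⟨f, hf0, hf⟩ := exists_f_sp h.nd h.pos hs h.skew h.dia hη h0 h1 hU hD hbr hinj
    obtain ⟨u, c, hDu⟩ := exists_dual h.nd hs' h.skew h.dia d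
    have hst := IT_stab (t := t) h.inv (by norm_num) hs' hΦ2
    have h2 := hocc (IT ψ (-1) Φ) hst
      (fun f hf => IT_pure hs' (by norm_num) h.dia hη (hcmp.hom hst) hU hDu (Or.inl ⟨rfl, h1⟩) hf)
      (fun m f v hf hli h0 => IT_inj hs' (by norm_num) h.nd
        (fun a ha b hb => orth_wt h.skew ha hb (by have := h.pos; omega)) hDu (Or.inl rfl) hf hli h0)
    exact hf0 ((Submodule.mem_bot K).1 (h2 ▸ (show f ∈ IT ψ (-1) Φ from hf)))
  · have hs' : ∀ x y, ψ x y = 1 * ψ y x := fun x y => by rw [hs, one_mul]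
    obtain ⟨f, hf0, hf⟩ := exists_f_so h.nd h.pos hs h.skew h.dia hη h.lev h5 hU hD hbr hinj
    obtain ⟨u, c, hDu⟩ := exists_dual h.nd hs' h.skew h.dia d
    have hst := IT_stab (t := t) h.inv (by norm_num) hs' hΦ2
    have h2 := hocc (IT ψ 1 Φ) hst
      (fun f hf => IT_pure hs' (by norm_num) h.dia hη (hcmp.hom hst) hU hDu
        (Or.inr (by omega)) hf)
      (fun m f v hf hli h0 => IT_inj hs' (by norm_num) h.nd
        (fun a ha b hb => orth_wt h.skew ha hb (by have := h.pos; omega)) hDu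
        (Or.inr (by omega)) hf hli h0)
    exact hf0 ((Submodule.mem_bot K).1 (h2 ▸ (show f ∈ IT ψ 1 Φ from hf)))

/-- weight spaces of `U` which are too small -/
theorem occ_of_mult {H : Submodule K (V →ₗ[K] U)} (h0 : ∀ f ∈ H, homD θ η f = 0) (hinj : Inj H)
    {n : ℤ} (hn : finrank K (wt η n) < finrank K (wt θ n)) : H = ⊥ := by
  rw [eq_bot_iff]
  intro f hf
  rw [Submodule.mem_bot]
  by_contra hf0
  have h1 : ∀ v, f v = 0 → v = 0 := by
    intro v hv
    refine hinj 1 (fun _ => f) (fun _ => v) (fun _ => hf) ?_ ?_ 0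
    · rw [linearIndependent_unique_iff]
      exact hf0
    · rw [Fin.sum_univ_one, hv]
  have h2 : ∀ v ∈ wt θ n, f v ∈ wt η n := by
    intro v hv
    have h3 := LinearMap.congr_fun (h0 f hf) v
    rw [homD_apply, mem_wt.1 hv, map_smul, LinearMap.zero_apply, sub_eq_zero] at h3
    exact h3
  have h3 := LinearMap.finrank_le_finrank_of_injective
    (f := f.restrict h2) (fun a b hab => by
      have h4 := congrArg Subtype.val hab
      rw [LinearMap.coe_restrict_apply, LinearMap.coe_restrict_apply] at h4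
      refine Subtype.ext (sub_eq_zero.1 (h1 _ ?_))
      rw [map_sub, h4, sub_self])
  omega

end

end Pool.Agent.U233.TF
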