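import Pool.Agent.U233.FG.Phi
import Pool.Agent.U233.FG.Gr
import Pool.Agent.U233.FG.So3

/-!
# Gradings given by operators, and homomorphisms of the orthogonal and symplectic Lie algebras
-/

set_option autoImplicit false
set_option linter.unusedSectionVars false

namespace Pool.Agent.U233.TF

open Module Pool.Agent.N179.GR Pool.Agent.U233.FG

noncomputable section

variable {K : Type} [Field K] {V : Type} [AddCommGroup V] [Module K V]
  {U : Type} [AddCommGroup U] [Module K U]

/-- the vectors of weight `n` -/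
def wt (θ : Module.End K V) (n : ℤ) : Submodule K V where
  carrier := {x | θ x = (n : K) • x}
  zero_mem' := by
    rw [Set.mem_setOf_eq, map_zero, smul_zero]
  add_mem' := fun {x y} hx hy => by
    rw [Set.mem_setOf_eq] at hx hy ⊢
    rw [map_add, hx, hy, smul_add]
  smul_mem' := fun c x hx => by
    rw [Set.mem_setOf_eq] at hx ⊢
    rw [map_smul, hx, smul_comm]

theorem mem_wt {θ : Module.End K V} {n : ℤ} {x : V} : x ∈ wt θ n ↔ θ x = (n : K) • x := Iff.rfl

/-- the operator is diagonalisable with integral eigenvalues -/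
def Dia (θ : Module.End K V) : Prop := ∀ x, x ∈ Submodule.span K {y | ∃ n : ℤ, θ y = (n : K) • y}

theorem Dia.dec {θ : Module.End K V} (h : Dia θ) : Dec (wt θ) := by
  classical
  intro x
  induction h x using Submodule.span_induction with
  | mem x hx =>
    obtain ⟨n, hn⟩ := hx
    refine ⟨{n}, fun k => if k = n then x else 0, fun k => ?_, ?_⟩
    · beta_reduce
      split_ifs with hk
      · rw [hk]
        exact hn
      · exact Submodule.zero_mem _
    · rw [Finset.sum_singleton, if_pos rfl]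
  | zero => exact ⟨∅, fun _ => 0, fun _ => Submodule.zero_mem _, by simp⟩
  | add x y _ _ hx hy =>
    obtain ⟨s, f, hf, rfl⟩ := hx
    obtain ⟨s', f', hf', rfl⟩ := hy
    refine ⟨s ∪ s', fun k => (if k ∈ s then f k else 0) + (if k ∈ s' then f' k else 0),
      fun k => Submodule.add_mem _ ?_ ?_, ?_⟩
    · split_ifs
      · exact hf k
      · exact Submodule.zero_mem _
    · split_ifs
      · exact hf' k
      · exact Submodule.zero_mem _
    · rw [Finset.sum_add_distrib]
      congr 1
      · rw [← Finset.sum_filter]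
        congr 1
        ext a
        simp
      · rw [← Finset.sum_filter]
        congr 1
        ext a
        simp
  | smul c x _ hx =>
    obtain ⟨s, f, hf, rfl⟩ := hx
    exact ⟨s, fun k => c • f k, fun k => Submodule.smul_mem _ _ (hf k), by rw [Finset.smul_sum]⟩

/-- the components of a vector in a stable subspace -/
theorem comp_mem [CharZero K] {D : Module.End K V} {A : Submodule K V}
    (hA : ∀ x ∈ A, D x ∈ A) (s : Finset ℤ) : ∀ f : ℤ → V,
      (∀ m ∈ s, f m ∈ wt D m) → ∑ m ∈ s, f m ∈ A → ∀ m ∈ s, f m ∈ A := by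
  classical
  induction s using Finset.induction_on with
  | empty => exact fun f _ _ m hm => absurd hm (Finset.notMem_empty m)
  | insert a s ha ih =>
    intro f hf hF
    have h1 : D (∑ m ∈ insert a s, f m) - (a : K) • ∑ m ∈ insert a s, f m ∈ A :=
      A.sub_mem (hA _ hF) (A.smul_mem _ hF)
    have h2 : D (∑ m ∈ insert a s, f m) - (a : K) • ∑ m ∈ insert a s, f m =
        ∑ m ∈ s, ((m : K) - (a : K)) • f m := by
      rw [map_sum, Finset.smul_sum, ← Finset.sum_sub_distrib, Finset.sum_insert ha,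
        mem_wt.1 (hf a (Finset.mem_insert_self a s)), sub_self, zero_add]
      refine Finset.sum_congr rfl fun m hm => ?_
      rw [mem_wt.1 (hf m (Finset.mem_insert_of_mem hm)), sub_smul]
    rw [h2] at h1
    have h3 : ∀ m ∈ s, f m ∈ A := by
      intro m hm
      have h4 := ih (fun m => ((m : K) - (a : K)) • f m) (fun m hm =>
        Submodule.smul_mem _ _ (hf m (Finset.mem_insert_of_mem hm))) h1 m hm
      have hne : (m : K) - (a : K) ≠ 0 := by
        intro h5
        rw [sub_eq_zero] at h5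
        have h6 : m = a := by exact_mod_cast h5
        subst h6
        exact ha hm
      have h5 := A.smul_mem ((m : K) - (a : K))⁻¹ h4
      rwa [smul_smul, inv_mul_cancel₀ hne, one_smul] at h5
    intro m hm
    rcases Finset.mem_insert.1 hm with rfl | hm
    · rw [Finset.sum_insert ha] at hF
      have h4 := A.sub_mem hF (A.sum_mem h3)
      rwa [add_sub_cancel_right] at h4
    · exact h3 m hm

/-- the skew operators -/
def skew (ψ : V →ₗ[K] V →ₗ[K] K) : Submodule K (Module.End K V) where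
  carrier := {X | ∀ x y, ψ (X x) y + ψ x (X y) = 0}
  zero_mem' := fun x y => by
    rw [LinearMap.zero_apply, LinearMap.zero_apply, map_zero, map_zero, LinearMap.zero_apply,
      add_zero]
  add_mem' := fun {X Y} hX hY x y => by
    have h1 := hX x y
    have h2 := hY x y
    rw [LinearMap.add_apply, LinearMap.add_apply, map_add, map_add, LinearMap.add_apply]
    linear_combination h1 + h2
  smul_mem' := fun c X hX x y => by
    have h1 := hX x y
    rw [LinearMap.smul_apply, LinearMap.smul_apply, map_smul, map_smul, LinearMap.smul_apply,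
      smul_eq_mul, smul_eq_mul]
    linear_combination c * h1

theorem mem_skew {ψ : V →ₗ[K] V →ₗ[K] K} {X : Module.End K V} :
    X ∈ skew ψ ↔ ∀ x y, ψ (X x) y + ψ x (X y) = 0 := Iff.rfl

/-- the operators `v ↦ ψ(x, v) y - E ψ(y, v) x` -/
def SZ (ψ : V →ₗ[K] V →ₗ[K] K) (E : K) : V →ₗ[K] V →ₗ[K] Module.End K V :=
  LinearMap.mk₂ K (fun x y => (ψ x).smulRight y - E • (ψ y).smulRight x)
    (fun x x' y => by
      refine LinearMap.ext fun v => ?_
      simp only [LinearMap.sub_apply, LinearMap.smulRight_apply, LinearMap.smul_apply,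
        LinearMap.add_apply, map_add]
      module)
    (fun c x y => by
      refine LinearMap.ext fun v => ?_
      simp only [LinearMap.sub_apply, LinearMap.smulRight_apply, LinearMap.smul_apply,
        map_smul, smul_eq_mul]
      module)
    (fun x y y' => by
      refine LinearMap.ext fun v => ?_
      simp only [LinearMap.sub_apply, LinearMap.smulRight_apply, LinearMap.smul_apply,
        LinearMap.add_apply, map_add]
      module)
    (fun c x y => by
      refine LinearMap.ext fun v => ?_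
      simp only [LinearMap.sub_apply, LinearMap.smulRight_apply, LinearMap.smul_apply,
        map_smul, smul_eq_mul]
      module)

theorem SZ_apply (ψ : V →ₗ[K] V →ₗ[K] K) (E : K) (x y v : V) :
    SZ ψ E x y v = ψ x v • y - E • ψ y v • x := rfl

section

variable {ψ : V →ₗ[K] V →ₗ[K] K} {E : K} (hE : E * E = 1) (hs : ∀ x y, ψ x y = E * ψ y x)

include hE hs in
theorem SZ_mem (x y : V) : SZ ψ E x y ∈ skew ψ := by
  intro u v
  rw [SZ_apply, SZ_apply, map_sub, map_sub, map_smul, map_smul, map_smul, map_smul, map_smul,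
    map_smul, LinearMap.sub_apply, LinearMap.smul_apply, LinearMap.smul_apply,
    LinearMap.smul_apply]
  simp only [smul_eq_mul]
  rw [hs u y, hs u x]
  linear_combination -(ψ y v * ψ x u) * hE

/-- the commutator with a skew operator -/
theorem br_SZ {X : Module.End K V} (hX : X ∈ skew ψ) (x y : V) :
    X * SZ ψ E x y - SZ ψ E x y * X = SZ ψ E (X x) y + SZ ψ E x (X y) := by
  refine LinearMap.ext fun v => ?_
  have h1 : ψ x (X v) = -ψ (X x) v := by
    rw [eq_neg_iff_add_eq_zero, add_comm]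
    exact hX x v
  have h2 : ψ y (X v) = -ψ (X y) v := by
    rw [eq_neg_iff_add_eq_zero, add_comm]
    exact hX y v
  rw [LinearMap.sub_apply, Module.End.mul_apply, Module.End.mul_apply, LinearMap.add_apply,
    SZ_apply, SZ_apply, SZ_apply, SZ_apply, map_sub, map_smul, map_smul, map_smul, h1, h2]
  module

/-- the symplectic relations -/
theorem sp_br (hs : ∀ x y, ψ x y = -ψ y x) (a b c d : V) :
    SZ ψ (-1) a b * SZ ψ (-1) c d - SZ ψ (-1) c d * SZ ψ (-1) a b =
      ψ b c • SZ ψ (-1) a d + ψ b d • SZ ψ (-1) a c + ψ a c • SZ ψ (-1) b d +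
        ψ a d • SZ ψ (-1) b c := by
  refine LinearMap.ext fun v => ?_
  simp only [LinearMap.sub_apply, Module.End.mul_apply, LinearMap.add_apply, LinearMap.smul_apply,
    SZ_apply, map_sub, map_smul]
  rw [hs c b, hs d b, hs c a, hs d a]
  module

/-- the orthogonal relations -/
theorem so_br (hs : ∀ x y, ψ x y = ψ y x) (a b c d : V) :
    SZ ψ 1 a b * SZ ψ 1 c d - SZ ψ 1 c d * SZ ψ 1 a b =
      ψ a d • SZ ψ 1 c b - ψ b d • SZ ψ 1 c a - ψ a c • SZ ψ 1 d b +
        ψ b c • SZ ψ 1 d a := by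
  refine LinearMap.ext fun v => ?_
  simp only [LinearMap.sub_apply, Module.End.mul_apply, LinearMap.add_apply, LinearMap.smul_apply,
    SZ_apply, map_sub, map_smul]
  rw [hs c b, hs d b, hs c a, hs d a]
  module

/-- the weights and the form -/
theorem orth_wt [CharZero K] {θ : Module.End K V} (hθ : θ ∈ skew ψ) {k l : ℤ} {a b : V}
    (ha : a ∈ wt θ k) (hb : b ∈ wt θ l) (hkl : k + l ≠ 0) : ψ a b = 0 := by
  have h1 := hθ a b
  rw [mem_wt.1 ha, mem_wt.1 hb, map_smul, map_smul, LinearMap.smul_apply, smul_eq_mul,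
    smul_eq_mul, ← add_mul] at h1
  refine (mul_eq_zero.1 h1).resolve_left fun h2 => hkl ?_
  exact_mod_cast h2

section phi

variable {Φ : Module.End K V →ₗ[K] Module.End K U}

/-- the operators on `U` -/
def SU (ψ : V →ₗ[K] V →ₗ[K] K) (E : K) (Φ : Module.End K V →ₗ[K] Module.End K U) :
    V →ₗ[K] V →ₗ[K] Module.End K U := (SZ ψ E).compr₂ Φ

theorem SU_apply (ψ : V →ₗ[K] V →ₗ[K] K) (E : K) (Φ : Module.End K V →ₗ[K] Module.End K U)
    (x y : V) : SU ψ E Φ x y = Φ (SZ ψ E x y) := rfl

theorem spRel [CharZero K] (hs : ∀ x y, ψ x y = -ψ y x)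
    (hΦ : ∀ X ∈ skew ψ, ∀ Y ∈ skew ψ, Φ (X * Y - Y * X) = Φ X * Φ Y - Φ Y * Φ X) :
    SpRel ψ (SU ψ (-1) Φ) where
  alt := hs
  symm a b := by
    rw [SU_apply, SU_apply]
    congr 1
    refine LinearMap.ext fun v => ?_
    rw [SZ_apply, SZ_apply]
    module
  br a b c d := by
    have hm : ∀ a b, SZ ψ (-1) a b ∈ skew ψ := SZ_mem (by norm_num) fun x y => by
      rw [hs, neg_one_mul]
    simp only [SU_apply]
    rw [← hΦ _ (hm a b) _ (hm c d), sp_br hs, map_add, map_add, map_add, map_smul, map_smul,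
      map_smul, map_smul]

theorem soRel (hs : ∀ x y, ψ x y = ψ y x)
    (hΦ : ∀ X ∈ skew ψ, ∀ Y ∈ skew ψ, Φ (X * Y - Y * X) = Φ X * Φ Y - Φ Y * Φ X) :
    SoRel ψ (SU ψ 1 Φ) where
  symm := hs
  alt a b := by
    rw [SU_apply, SU_apply, ← map_neg]
    congr 1
    refine LinearMap.ext fun v => ?_
    rw [LinearMap.neg_apply, SZ_apply, SZ_apply]
    module
  br a b c d := by
    have hm : ∀ a b, SZ ψ 1 a b ∈ skew ψ := SZ_mem (by norm_num) fun x y => by
      rw [hs, one_mul]
    simp only [SU_apply]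
    rw [← hΦ _ (hm a b) _ (hm c d), so_br hs, map_add, map_sub, map_sub, map_smul, map_smul,
      map_smul, map_smul]

variable {θ : Module.End K V} {η : Module.End K U}

/-- the gradings are respected -/
theorem graded [CharZero K] (hE : E * E = 1) (hs : ∀ x y, ψ x y = E * ψ y x)
    (hθ : θ ∈ skew ψ) (hθd : Dia θ) (hηd : Dia η)
    (hΦ : ∀ X ∈ skew ψ, Φ (θ * X - X * θ) = η * Φ X - Φ X * η) {d : ℤ} (hd : 0 < d)
    (hU : ∀ n, (d < n ∨ n < -d) → ∀ u ∈ wt η n, u = 0) :
    Graded ψ (SU ψ E Φ) (wt θ) (wt η) d where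
  pos := hd
  decV := hθd.dec
  decU := hηd.dec
  le := hU
  deg k l m a ha b hb u hu := by
    have h1 := LinearMap.congr_fun (hΦ _ (SZ_mem hE hs a b)) u
    rw [br_SZ hθ, mem_wt.1 ha, mem_wt.1 hb, map_smul, map_smul, LinearMap.smul_apply, ← add_smul,
      map_smul, ← SU_apply, LinearMap.smul_apply, LinearMap.sub_apply, Module.End.mul_apply,
      Module.End.mul_apply, mem_wt.1 hu, map_smul] at h1
    rw [mem_wt]
    push_cast
    rw [add_smul _ (m : K), h1, sub_add_cancel]
  orth k l a ha b hb hkl := orth_wt hθ ha hb hkl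

end phi

theorem nd2 {E : K} (hnd : ∀ x, (∀ y, ψ x y = 0) → x = 0) (hs : ∀ x y, ψ x y = E * ψ y x) (y : V)
    (hy : ∀ x, ψ x y = 0) : y = 0 := by
  refine hnd y fun x => ?_
  rw [hs, hy, mul_zero]

/-- **Dual bases.** -/
theorem exists_dual [CharZero K] [FiniteDimensional K V] {E : K}
    (hnd : ∀ x, (∀ y, ψ x y = 0) → x = 0) (hs : ∀ x y, ψ x y = E * ψ y x) {θ : Module.End K V}
    (hθ : θ ∈ skew ψ) (hθd : Dia θ) (d : ℤ) :
    ∃ u c : Fin (finrank K (wt θ d)) → V, SoRel.Dual ψ (wt θ) d u c := by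
  set A := wt θ d with hA
  set A' := wt θ (-d) with hA'
  let q : A' →ₗ[K] Dual K A :=
    (LinearMap.lcomp K K A.subtype).comp (ψ.flip.domRestrict A')
  let p : A →ₗ[K] Dual K A' := (LinearMap.lcomp K K A'.subtype).comp (ψ.domRestrict A)
  have hq : ∀ (y : A') (x : A), q y x = ψ (x : V) (y : V) := fun y x => rfl
  have hp : ∀ (x : A) (y : A'), p x y = ψ (x : V) (y : V) := fun x y => rfl
  have hqi : Function.Injective q := by
    rw [injective_iff_map_eq_zero]
    intro y hy
    refine Subtype.ext (nd2 hnd hs _ fun x => ?_)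
    obtain ⟨s, f, hf, rfl⟩ := hθd.dec x
    rw [map_sum, LinearMap.sum_apply]
    refine Finset.sum_eq_zero fun k _ => ?_
    by_cases hk : k = d
    · subst hk
      exact LinearMap.congr_fun hy (⟨f k, hf k⟩ : A)
    · exact orth_wt hθ (hf k) y.2 (by omega)
  have hpi : Function.Injective p := by
    rw [injective_iff_map_eq_zero]
    intro x hx
    refine Subtype.ext (hnd _ fun y => ?_)
    obtain ⟨s, f, hf, rfl⟩ := hθd.dec y
    rw [map_sum]
    refine Finset.sum_eq_zero fun k _ => ?_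
    by_cases hk : k = -d
    · subst hk
      exact LinearMap.congr_fun hx (⟨f (-d), hf (-d)⟩ : A')
    · exact orth_wt hθ x.2 (hf k) (by omega)
  have h1 : finrank K A' = finrank K (Dual K A) := by
    refine le_antisymm (LinearMap.finrank_le_finrank_of_injective hqi) ?_
    rw [Subspace.dual_finrank_eq]
    have h2 := LinearMap.finrank_le_finrank_of_injective hpi
    rwa [Subspace.dual_finrank_eq] at h2
  have hqs : Function.Surjective q :=
    (LinearMap.injective_iff_surjective_of_finrank_eq_finrank h1).1 hqi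
  let B := finBasis K A
  choose c hc using fun i => hqs (B.coord i)
  have hbc : ∀ i j, ψ (B i : V) (c j : V) = if i = j then 1 else 0 := by
    intro i j
    rw [← hq, hc, Basis.coord_apply, Basis.repr_self, Finsupp.single_apply]
  refine ⟨fun i => B i, fun i => c i, ⟨fun i => (B i).2, fun i => (c i).2, fun i => ?_,
    fun i j hij => ?_, ?_, ?_⟩⟩
  · rw [hbc, if_pos rfl]
  · rw [hbc, if_neg hij]
  · intro x hx
    have h2 := congrArg Subtype.val (B.sum_repr ⟨x, hx⟩)
    rw [AddSubmonoidClass.coe_finset_sum] at h2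
    change _ = x at h2
    rw [← h2]
    exact Submodule.sum_mem _ fun i _ => Submodule.smul_mem _ _ (Submodule.subset_span ⟨i, rfl⟩)
  · intro y hy
    have h2 : (⟨y, hy⟩ : A') = ∑ i, ψ (B i : V) y • c i := by
      apply hqi
      refine B.ext fun j => ?_
      rw [map_sum, LinearMap.sum_apply, Finset.sum_eq_single j]
      · rw [map_smul, LinearMap.smul_apply, hq, hq, hbc, if_pos rfl, smul_eq_mul, mul_one]
      · intro i _ hij
        rw [map_smul, LinearMap.smul_apply, hq, hbc, if_neg (Ne.symm hij), smul_zero]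
      · exact fun h => absurd (Finset.mem_univ j) h
    have h3 := congrArg Subtype.val h2
    rw [AddSubmonoidClass.coe_finset_sum] at h3
    change y = _ at h3
    rw [h3]
    exact Submodule.sum_mem _ fun i _ => Submodule.smul_mem _ _ (Submodule.subset_span ⟨i, rfl⟩)

end

section ex

variable [CharZero K] [FiniteDimensional K V] {ψ : V →ₗ[K] V →ₗ[K] K}
  {Φ : Module.End K V →ₗ[K] Module.End K U}
  {θ : Module.End K V} {η : Module.End K U} {d : ℤ}

/-- the symplectic case -/
theorem exists_f_sp (hnd : ∀ x, (∀ y, ψ x y = 0) → x = 0) (hd : 0 < d)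
    (hs : ∀ x y, ψ x y = -ψ y x) (hθ : θ ∈ skew ψ) (hθd : Dia θ) (hηd : Dia η)
    (h0 : ∀ x ∈ wt θ 0, x = 0) (h1 : 1 ≤ finrank K (wt θ d))
    (hU : ∀ n, (d < n ∨ n < -d) → ∀ u ∈ wt η n, u = 0)
    (hΦ : ∀ X ∈ skew ψ, Φ (θ * X - X * θ) = η * Φ X - Φ X * η)
    (hbr : ∀ X ∈ skew ψ, ∀ Y ∈ skew ψ, Φ (X * Y - Y * X) = Φ X * Φ Y - Φ Y * Φ X)
    (hinj : ∀ X ∈ skew ψ, Φ X = 0 → X = 0) :
    ∃ f : V →ₗ[K] U, f ≠ 0 ∧ ∀ x y v, SU ψ (-1) Φ x y (f v) = f (SZ ψ (-1) x y v) := by
  have hs' : ∀ x y, ψ x y = (-1) * ψ y x := fun x y => by rw [hs, neg_one_mul]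
  obtain ⟨u, c, hD⟩ := exists_dual hnd hs' hθ hθd d
  let i : Fin (finrank K (wt θ d)) := ⟨0, h1⟩
  have hg := graded (E := -1) (by norm_num) hs' hθ hθd hηd hΦ hd hU
  have hcb : ψ (-c i) (u i) = 1 := by
    rw [map_neg, LinearMap.neg_apply, hs, hD.one, neg_neg]
  obtain ⟨f, hf, h2⟩ := exists_sp (spRel hs hbr) hg hnd h0 (hD.memu i)
    (Submodule.neg_mem _ (hD.memc i)) hcb (by
    intro h3
    have h4 := hinj _ (SZ_mem (by norm_num) hs' (u i) (u i)) h3
    have h5 := LinearMap.congr_fun h4 (c i)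
    rw [SZ_apply, hD.one, LinearMap.zero_apply] at h5
    have h6 : (2 : K) • u i = 0 := by
      rw [← h5]
      module
    have h7 := (smul_eq_zero.1 h6).resolve_left two_ne_zero
    rw [h7, map_zero] at hcb
    exact zero_ne_one hcb)
  refine ⟨f, hf, fun x y v => ?_⟩
  rw [h2, SZ_apply]
  congr 1
  module

/-- the orthogonal case -/
theorem exists_f_so (hnd : ∀ x, (∀ y, ψ x y = 0) → x = 0) (hd : 0 < d)
    (hs : ∀ x y, ψ x y = ψ y x) (hθ : θ ∈ skew ψ) (hθd : Dia θ) (hηd : Dia η)
    (hV : ∀ n, (d < n ∨ n < -d) → ∀ u ∈ wt θ n, u = 0)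
    (h5 : 5 ≤ finrank K (wt θ d))
    (hU : ∀ n, (d < n ∨ n < -d) → ∀ u ∈ wt η n, u = 0)
    (hΦ : ∀ X ∈ skew ψ, Φ (θ * X - X * θ) = η * Φ X - Φ X * η)
    (hbr : ∀ X ∈ skew ψ, ∀ Y ∈ skew ψ, Φ (X * Y - Y * X) = Φ X * Φ Y - Φ Y * Φ X)
    (hinj : ∀ X ∈ skew ψ, Φ X = 0 → X = 0) :
    ∃ f : V →ₗ[K] U, f ≠ 0 ∧ ∀ x y v, SU ψ 1 Φ x y (f v) = f (SZ ψ 1 x y v) := by
  have hs' : ∀ x y, ψ x y = 1 * ψ y x := fun x y => by rw [hs, one_mul]
  obtain ⟨u, c, hD⟩ := exists_dual hnd hs' hθ hθd d
  let i : Fin (finrank K (wt θ d)) := ⟨0, by omega⟩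
  let j : Fin (finrank K (wt θ d)) := ⟨1, by omega⟩
  have hij : i ≠ j := by
    intro h1
    have h2 := congrArg Fin.val h1
    exact absurd h2 (by norm_num [i, j])
  have hg := graded (E := 1) (by norm_num) hs' hθ hθd hηd hΦ hd hU
  obtain ⟨f, hf, h2⟩ := exists_so (soRel hs hbr) hg (fun m hm v hv => hV m (by omega) v hv)
    hD (by rwa [Fintype.card_fin]) hij (by
    intro h3
    have h4 := hinj _ (SZ_mem (by norm_num) hs' (u i) (u j)) h3
    have h5 := LinearMap.congr_fun h4 (c i)
    rw [SZ_apply, hD.one, hD.zero j i hij.symm, LinearMap.zero_apply] at h5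
    have h7 : u j = 0 := by
      rw [← h5]
      module
    have h8 := hD.one j
    rw [h7, map_zero, LinearMap.zero_apply] at h8
    exact zero_ne_one h8)
  refine ⟨f, hf, fun x y v => ?_⟩
  rw [h2, SZ_apply, one_smul]

end ex

end

end Pool.Agent.U233.TF
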