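import Pool.Agent.U233.TF.CohP
import Pool.Agent.TH125.Gal.Tower

/-!
# Semi-invariant classes on products with powers
-/

set_option autoImplicit false
set_option linter.unusedSectionVars false

open CategoryTheory AlgebraicGeometry Finset

universe u

namespace Pool.Agent.U233.TF

open Module Pool.Agent.N179.GR Pool.Agent.U233.FG Pool.Agent.TH125.Gal

noncomputable section

/-- the Leibniz rule for products of lists -/
theorem der_ofFn {B : Type*} [Ring B] (δ : B → B) (h1 : δ 1 = 0)
    (hmul : ∀ a b, δ (a * b) = δ a * b + a * δ b) : ∀ (n : ℕ) (f : Fin n → B),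
    δ (List.ofFn f).prod = ∑ p, (List.ofFn (Function.update f p (δ (f p)))).prod := by
  intro n
  induction n with
  | zero =>
    intro f
    rw [List.ofFn_zero, List.prod_nil, h1, Finset.univ_eq_empty, Finset.sum_empty]
  | succ n ih =>
    intro f
    rw [List.ofFn_succ, List.prod_cons, hmul, ih, Fin.sum_univ_succ]
    congr 1
    · rw [List.ofFn_succ, List.prod_cons, Function.update_self]
      congr 3
    · rw [Finset.mul_sum]
      refine Finset.sum_congr rfl fun p _ => ?_
      rw [List.ofFn_succ, List.prod_cons, Function.update_of_ne (Fin.succ_ne_zero p).symm]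
      congr 3
      funext q
      by_cases h : q = p
      · subst h
        rw [Function.update_self, Function.update_self]
      · rw [Function.update_of_ne h, Function.update_of_ne fun h' => h (Fin.succ_injective _ h')]

open Pool.Agent.H914 Pool.Agent.H914.VarClass Pool.Agent.H914.VarClass.Obj
  Pool.Agent.H914.WeilCohomology Pool.Agent.H281R3.HT Pool.Agent.W552

variable {k : Type u} [Field k] {𝒱 : VarClass k} {ops : CycleOps 𝒱}
  {W : WeilCohomology.{u, 0} ops} {Γ : Type} [Group Γ]

section hml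

variable {P : Polarized 𝒱} {n : ℕ} {Z : 𝒱.Obj} {χ : Γ →* W.Kˣ}
  {ρ : Γ →* (W.H P.X ≃ₐ[W.K] W.H P.X)} {τ : Γ →* (W.H Z ≃ₐ[W.K] W.H Z)}
  {υ : Γ →* (W.H ((nest ops n fun _ => P).X.prod Z) ≃ₐ[W.K]
    W.H ((nest ops n fun _ => P).X.prod Z))}

theorem Θ_prj (hP : IsPowAct W P n Z ρ τ υ) (D : Der W.K Γ) (p : Fin (n + 1)) (a : W.H P.X) :
    D.Θ (full _ (algR υ)) (W.map (fst _ Z) (W.map (prj ops n (fun _ => P) p) a)) =
      W.map (fst _ Z) (W.map (prj ops n (fun _ => P) p) (D.Θ (full _ (algR ρ)) a)) :=
  (D.lin (full (W.H P.X) (algR ρ)) (full _ (algR υ))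
    ((W.map (fst _ Z)).toLinearMap ∘ₗ (W.map (prj ops n (fun _ => P) p)).toLinearMap)
    ⟨⊤, inferInstance, fun g _ v => ((hP g).1 p v).symm⟩ a).symm

theorem Θ_snd (hP : IsPowAct W P n Z ρ τ υ) (D : Der W.K Γ) (z : W.H Z) :
    D.Θ (full _ (algR υ)) (W.map (snd (nest ops n fun _ => P).X Z) z) =
      W.map (snd _ Z) (D.Θ (full _ (algR τ)) z) :=
  (D.lin (full (W.H Z) (algR τ)) (full _ (algR υ))
    (W.map (snd (nest ops n fun _ => P).X Z)).toLinearMap
    ⟨⊤, inferInstance, fun g _ v => ((hP g).2 v).symm⟩ z).symm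

theorem fst_mono (a : Fin (n + 1) → W.H P.X) :
    W.map (fst (nest ops n fun _ => P).X Z) (mono (prj ops n fun _ => P) a) =
      (List.ofFn fun p => W.map (fst _ Z) (W.map (prj ops n (fun _ => P) p) (a p))).prod := by
  rw [mono, map_list_prod, List.map_ofFn]
  rfl

theorem Θ_mono (hP : IsPowAct W P n Z ρ τ υ) (D : Der W.K Γ) (a : Fin (n + 1) → W.H P.X) :
    D.Θ (full _ (algR υ)) (W.map (fst _ Z) (mono (prj ops n fun _ => P) a)) =
      ∑ p, W.map (fst _ Z) (mono (prj ops n fun _ => P)
        (Function.update a p (D.Θ (full _ (algR ρ)) (a p)))) := by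
  rw [fst_mono]
  refine (der_ofFn (fun x => D.Θ (full _ (algR υ)) x) (Θ_one D) (fun a b => Θ_mul D a b) _
    _).trans ?_
  refine Finset.sum_congr rfl fun p _ => ?_
  rw [fst_mono]
  congr 2
  funext q
  by_cases h : q = p
  · subst h
    rw [Function.update_self, Function.update_self]
    exact Θ_prj hP D q (a q)
  · rw [Function.update_of_ne h, Function.update_of_ne h]

variable {J : Type} [Fintype J] {e : Module.Basis J W.K (W.H P.X)}
  {b : Module.Basis (Fin (n + 1) → J) W.K (W.H (nest ops n fun _ => P).X)}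
  (hb : ∀ r, b r = mono (prj ops n fun _ => P) fun p => e (r p))

include hb in
/-- **The multilinear map and the derivations.** -/
theorem hml_der (hP : IsPowAct W P n Z ρ τ υ) {D : Der W.K Γ}
    (hskew : ∀ a b, bil W P.X (D.Θ (full _ (algR ρ)) a) b +
      bil W P.X a (D.Θ (full _ (algR ρ)) b) = 0)
    (c : W.H ((nest ops n fun _ => P).X.prod Z)) (v : Fin (n + 1) → W.H P.X) :
    ∑ p, hml e b c (Function.update v p (D.Θ (full _ (algR ρ)) (v p))) +
      hml e b (D.Θ (full _ (algR υ)) c) v = D.Θ (full _ (algR τ)) (hml e b c v) := by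
  -- external products
  have key : ∀ (a : Fin (n + 1) → W.H P.X) (z : W.H Z),
      ∑ p, hml e b (W.map (fst _ Z) (mono (prj ops n fun _ => P) a) * W.map (snd _ Z) z)
        (Function.update v p (D.Θ (full _ (algR ρ)) (v p))) +
      hml e b (D.Θ (full _ (algR υ)) (W.map (fst _ Z) (mono (prj ops n fun _ => P) a) *
        W.map (snd _ Z) z)) v =
      D.Θ (full _ (algR τ)) (hml e b (W.map (fst _ Z) (mono (prj ops n fun _ => P) a) *
        W.map (snd _ Z) z) v) := by
    intro a z
    have h1 : D.Θ (full _ (algR υ)) (W.map (fst _ Z) (mono (prj ops n fun _ => P) a) *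
        W.map (snd _ Z) z) = ∑ p, W.map (fst _ Z) (mono (prj ops n fun _ => P)
          (Function.update a p (D.Θ (full _ (algR ρ)) (a p)))) * W.map (snd _ Z) z +
        W.map (fst _ Z) (mono (prj ops n fun _ => P) a) *
          W.map (snd _ Z) (D.Θ (full _ (algR τ)) z) := by
      rw [Θ_mul, Θ_mono hP, Θ_snd hP, Finset.sum_mul]
    have h2 : D.Θ (full _ (algR τ)) ((∏ p, bil W P.X (v p) (a p)) • z) =
        (∏ p, bil W P.X (v p) (a p)) • D.Θ (full _ (algR τ)) z :=
      map_smul (D.Θ (full _ (algR τ))) _ z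
    rw [h1, hml_add hb, hml_sum hb, hml_mono hb, hml_mono hb, h2, ← add_assoc, ← sum_add_distrib]
    rw [Finset.sum_eq_zero, zero_add]
    intro p _
    rw [hml_mono hb, hml_mono hb, ← add_smul]
    have h3 : ∏ q, bil W P.X (Function.update v p (D.Θ (full _ (algR ρ)) (v p)) q) (a q) =
        bil W P.X (D.Θ (full _ (algR ρ)) (v p)) (a p) *
          ∏ q ∈ univ.erase p, bil W P.X (v q) (a q) := by
      rw [← Finset.mul_prod_erase _ _ (Finset.mem_univ p), Function.update_self]
      congr 1
      refine Finset.prod_congr rfl fun q hq => ?_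
      rw [Function.update_of_ne (Finset.ne_of_mem_erase hq)]
    have h4 : ∏ q, bil W P.X (v q) (Function.update a p (D.Θ (full _ (algR ρ)) (a p)) q) =
        bil W P.X (v p) (D.Θ (full _ (algR ρ)) (a p)) *
          ∏ q ∈ univ.erase p, bil W P.X (v q) (a q) := by
      rw [← Finset.mul_prod_erase _ _ (Finset.mem_univ p), Function.update_self]
      congr 1
      refine Finset.prod_congr rfl fun q hq => ?_
      rw [Function.update_of_ne (Finset.ne_of_mem_erase hq)]
    rw [h3, h4, ← add_mul, hskew, zero_mul, zero_smul]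
  -- sums
  have hadd : ∀ x y : W.H ((nest ops n fun _ => P).X.prod Z),
      D.Θ (full _ (algR υ)) (x + y) = D.Θ (full _ (algR υ)) x + D.Θ (full _ (algR υ)) y :=
    fun x y => map_add (D.Θ (full _ (algR υ))) x y
  have haddZ : ∀ x y : W.H Z,
      D.Θ (full _ (algR τ)) (x + y) = D.Θ (full _ (algR τ)) x + D.Θ (full _ (algR τ)) y :=
    fun x y => map_add (D.Θ (full _ (algR τ))) x y
  refine kun_ext (L := fun c => ∑ p, hml e b c (Function.update v p
    (D.Θ (full _ (algR ρ)) (v p))) + hml e b (D.Θ (full _ (algR υ)) c) v)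
    (L' := fun c => D.Θ (full _ (algR τ)) (hml e b c v)) ?_ ?_ ?_ c
  · intro x y
    beta_reduce
    rw [hadd, hml_add hb]
    simp only [hml_add hb, Finset.sum_add_distrib]
    abel
  · intro x y
    beta_reduce
    rw [hml_add hb, haddZ]
  · intro x z
    beta_reduce
    -- expand in the basis
    have h1 : x = ∑ r, b.repr x r • mono (prj ops n fun _ => P) fun p => e (r p) := by
      conv_lhs => rw [← b.sum_repr x]
      exact Finset.sum_congr rfl fun r _ => by rw [hb]
    have h2 : W.map (fst (nest ops n fun _ => P).X Z) x * W.map (snd _ Z) z =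
        ∑ r, W.map (fst _ Z) (mono (prj ops n fun _ => P) fun p => e (r p)) *
          W.map (snd _ Z) (b.repr x r • z) := by
      conv_lhs => rw [h1, map_sum, Finset.sum_mul]
      refine Finset.sum_congr rfl fun r _ => ?_
      rw [map_smul, map_smul, smul_mul_assoc, mul_smul_comm]
    rw [h2]
    clear h1 h2
    have h3 : ∀ s : Finset (Fin (n + 1) → J),
        ∑ p, hml e b (∑ r ∈ s, W.map (fst _ Z) (mono (prj ops n fun _ => P) fun p => e (r p)) *
          W.map (snd _ Z) (b.repr x r • z)) (Function.update v p (D.Θ (full _ (algR ρ)) (v p))) +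
        hml e b (D.Θ (full _ (algR υ)) (∑ r ∈ s, W.map (fst _ Z)
          (mono (prj ops n fun _ => P) fun p => e (r p)) *
          W.map (snd _ Z) (b.repr x r • z))) v =
        D.Θ (full _ (algR τ)) (hml e b (∑ r ∈ s, W.map (fst _ Z)
          (mono (prj ops n fun _ => P) fun p => e (r p)) *
          W.map (snd _ Z) (b.repr x r • z)) v) := by
      classical
      intro s
      induction s using Finset.induction_on with
      | empty =>
        rw [Finset.sum_empty]
        have e1 : D.Θ (full _ (algR υ)) (0 : W.H ((nest ops n fun _ => P).X.prod Z)) = 0 :=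
          map_zero (D.Θ (full _ (algR υ)))
        have e2 : D.Θ (full _ (algR τ)) (0 : W.H Z) = 0 := map_zero (D.Θ (full _ (algR τ)))
        have e3 : ∀ v, hml e b (0 : W.H ((nest ops n fun _ => P).X.prod Z)) v = 0 := by
          intro v
          rw [hml_eq hb, map_zero]
        have e4 : hml e b (D.Θ (full _ (algR υ)) (0 : W.H ((nest ops n fun _ => P).X.prod Z))) v =
            0 := by
          rw [e1]
          exact e3 v
        rw [e4, e3, e2]
        simp only [e3, Finset.sum_const_zero]
        exact add_zero (0 : W.H Z)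
      | insert r s hr ih =>
        rw [Finset.sum_insert hr, hadd, hml_add hb, hml_add hb, haddZ, ← ih, ← key]
        simp only [hml_add hb, Finset.sum_add_distrib]
        abel
    exact h3 Finset.univ

end hml

section free

variable {P : Polarized 𝒱} {n : ℕ} {Z : 𝒱.Obj} {χ : Γ →* W.Kˣ}
  {ρ : Γ →* (W.H P.X ≃ₐ[W.K] W.H P.X)} {τ : Γ →* (W.H Z ≃ₐ[W.K] W.H Z)}
  {υ : Γ →* (W.H ((nest ops n fun _ => P).X.prod Z) ≃ₐ[W.K]
    W.H ((nest ops n fun _ => P).X.prod Z))} {s : SB W P.X}
  {b : Module.Basis (Fin (n + 1) → Fin s.NC ⊕ Fin s.NT) W.K (W.H (nest ops n fun _ => P).X)}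
  (hb : ∀ r, b r = mono (prj ops n fun _ => P) fun p => s.e (r p))

/-- the derived algebra kills the algebraic classes -/
theorem kill_alg (hG : IsGalois W χ P.X ρ) {D : Der W.K Γ} (hD : InDer 1 D) {a : W.H P.X}
    (ha : a ∈ algSpan W P.X) : D.Θ (full _ (algR ρ)) a = 0 := by
  induction ha using Submodule.span_induction with
  | mem a ha =>
    obtain ⟨j, hj⟩ := Set.mem_iUnion.1 ha
    obtain ⟨Δ, hΔ, h⟩ := hG.cl_fix j a hj
    exact hD.kill (M := full _ (algR ρ)) ⟨Δ, hΔ, fun g hg => ⟨_, h g hg⟩⟩
  | zero => exact map_zero (D.Θ (full _ (algR ρ)))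
  | add x y _ _ hx hy =>
    exact (map_add (D.Θ (full _ (algR ρ))) x y).trans (by rw [hx, hy]; exact add_zero _)
  | smul q x _ hx =>
    exact (map_smul (D.Θ (full _ (algR ρ))) q x).trans (by rw [hx]; exact smul_zero _)

theorem bil_skew (hG : IsGalois W χ P.X ρ) {D : Der W.K Γ} (hD : InDer 1 D) (x y : W.H P.X) :
    bil W P.X (D.Θ (full _ (algR ρ)) x) y + bil W P.X x (D.Θ (full _ (algR ρ)) y) = 0 :=
  skew_of_form (t := algR ρ) (μ := χ ^ P.X.dim) (B := bil W P.X) (fun g x y => by
    rw [MonoidHom.pow_apply, Units.val_pow_eq_pow_val]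
    exact bil_act hG g x y) hD x y

/-- all skew operators on the transcendental part lift to derivations which kill `Z` -/
def AllSkew (ρ : Γ →* (W.H P.X ≃ₐ[W.K] W.H P.X)) (τ : Γ →* (W.H Z ≃ₐ[W.K] W.H Z)) : Prop :=
  ∀ X ∈ skew (rform W P.X (transcendental W P.X)), ∃ D : Der W.K Γ, InDer 1 D ∧
    D.Θ (full _ (algR τ)) = 0 ∧
    ∀ t : transcendental W P.X, D.Θ (full _ (algR ρ)) (t : W.H P.X) = (X t : W.H P.X)

include hb in
/-- the invariance of the coordinates at the free positions -/
theorem free_inv (hG : IsGalois W χ P.X ρ) (hP : IsPowAct W P n Z ρ τ υ)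
    (hall : AllSkew (P := P) ρ τ) {c : W.H ((nest ops n fun _ => P).X.prod Z)}
    (hc : (full _ (algR υ)).Eig c) (c₀ : Fin (n + 1) → Option (Fin s.NC))
    {X : Module.End W.K (transcendental W P.X)}
    (hX : X ∈ skew (rform W P.X (transcendental W P.X))) (r : Free c₀ → Fin s.NT) :
    ∑ j : Free c₀, hS s b c c₀ (Function.update (fun j => s.uT (r j)) j (X (s.uT (r j)))) = 0 := by
  classical
  obtain ⟨D, hD, hDZ, hDX⟩ := hall X hX
  have h1 := hml_der hb hP (bil_skew hG hD) c fun p => s.es (comb c₀ r p)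
  have h2 : D.Θ (full _ (algR υ)) c = 0 := hD.kill hc
  have h3 : hml s.e b (D.Θ (full _ (algR υ)) c) (fun p => s.es (comb c₀ r p)) = 0 := by
    rw [h2]
    refine (hml_eq hb _ _).trans ?_
    exact map_zero _
  have h4 : D.Θ (full _ (algR τ)) (hml s.e b c fun p => s.es (comb c₀ r p)) = 0 := by
    rw [hDZ]
    rfl
  rw [h3, h4, add_zero] at h1
  rw [← h1]
  -- the fixed positions
  have h5 : ∀ p, c₀ p ≠ none → hml s.e b c (Function.update (fun p => s.es (comb c₀ r p)) p
      (D.Θ (full _ (algR ρ)) (s.es (comb c₀ r p)))) = 0 := by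
    intro p hp
    obtain ⟨i, hi⟩ := Option.ne_none_iff_exists'.1 hp
    have h6 : D.Θ (full _ (algR ρ)) (s.es (comb c₀ r p)) = 0 := by
      rw [comb_some r hi]
      exact kill_alg hG hD (s.uC i).2
    rw [h6]
    exact (hml s.e b c).map_update_zero _ p
  have h6 : ∀ j : Free c₀, hS s b c c₀ (Function.update (fun j => s.uT (r j)) j
      (X (s.uT (r j)))) = hml s.e b c (Function.update (fun p => s.es (comb c₀ r p)) j.1
        (D.Θ (full _ (algR ρ)) (s.es (comb c₀ r j.1)))) := by
    intro j
    rw [hS_apply]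
    congr 1
    funext p
    by_cases hp : p = j.1
    · subst hp
      rw [Function.update_self, dif_pos j.2, Function.update_self, comb_none r j]
      exact (hDX (s.uT (r j))).symm
    · rw [Function.update_of_ne hp]
      by_cases h : c₀ p = none
      · rw [dif_pos h, comb_none r ⟨p, h⟩, Function.update_of_ne fun h' => hp (congrArg (·.1) h')]
        rfl
      · obtain ⟨i, hi⟩ := Option.ne_none_iff_exists'.1 h
        rw [dif_neg h, comb_some r hi, fixv_some hi]
        rfl
  rw [Finset.sum_congr rfl fun j _ => h6 j]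
  symm
  rw [← Finset.sum_filter_add_sum_filter_not univ (fun p => c₀ p = none)]
  rw [Finset.sum_eq_zero (s := univ.filter fun p => ¬ c₀ p = none) fun p hp =>
    h5 p (Finset.mem_filter.1 hp).2, add_zero]
  exact Finset.sum_subtype (univ.filter fun p => c₀ p = none) (fun p => by simp) fun p =>
    hml s.e b c (Function.update (fun p => s.es (comb c₀ r p)) p
      (D.Θ (full _ (algR ρ)) (s.es (comb c₀ r p))))

open Pool.Agent.TH125.Nod in
include hb in
/-- **The coordinates at the free positions.** -/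
theorem gen_free' (hDX : HomEqNum W P.X) (hmid : transcendental W P.X ≤ W.gr P.X P.X.dim)
    (hG : IsGalois W χ P.X ρ) (hP : IsPowAct W P n Z ρ τ υ) (hall : AllSkew (P := P) ρ τ)
    (hK : Even P.X.dim → n + 1 < Module.finrank W.K (transcendental W P.X))
    {c : W.H ((nest ops n fun _ => P).X.prod Z)} (hc : (full _ (algR υ)).Eig c)
    (c₀ : Fin (n + 1) → Option (Fin s.NC)) :
    (fun r : Free c₀ → Fin s.NT => hml s.e b c fun p => s.es (comb c₀ r p)) ∈
      TH125.Nod.Gen (fun _ : Fin s.NT => ()) (Matrix.of fun i j => bil W P.X (s.uT i) (s.uT j))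
        (fun _ : Free c₀ => ()) := by
  classical
  set B := rform W P.X (transcendental W P.X) with hB
  have hs : ((-1 : ℤ) ^ P.X.dim = 1 ∨ (-1 : ℤ) ^ P.X.dim = -1) := neg_one_pow_eq_or ℤ _
  have hsy : ∀ x y, B x y = (((-1 : ℤ) ^ P.X.dim : ℤ) : W.K) * B y x := fun a b => by
    rw [hB, rform_apply, rform_apply, trans_symm hmid a.2 b.2]
    push_cast
    rfl
  have hsq : (((-1 : ℤ) ^ P.X.dim : ℤ) : W.K) * (((-1 : ℤ) ^ P.X.dim : ℤ) : W.K) = 1 := by
    rcases hs with h | h <;> rw [h] <;> norm_num
  have hnd : ∀ x, (∀ y, B x y = 0) → x = 0 := trans_nondeg hDX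
  -- the inverse of the Gram matrix
  have hBnd : LinearMap.BilinForm.Nondegenerate (LinearMap.flip B) := by
    refine ⟨fun x hx => hnd x fun y => ?_, fun x hx => hnd x fun y => hx y⟩
    rw [hsy, show B y x = 0 from hx y, mul_zero]
  let t := s.uT
  obtain ⟨R, hR⟩ : ∃ R : Matrix (Fin s.NT) (Fin s.NT) W.K,
      (Matrix.of fun i j => B (t i) (t j)) * R = 1 := by
    refine ⟨Matrix.of fun j k =>
      t.repr (LinearMap.BilinForm.dualBasis (LinearMap.flip B) hBnd t k) j, ?_⟩
    ext i k
    rw [Matrix.mul_apply, Matrix.one_apply]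
    simp only [Matrix.of_apply]
    have h1 := LinearMap.BilinForm.apply_dualBasis_left (B := LinearMap.flip B) hBnd t k i
    rw [LinearMap.flip_apply] at h1
    rw [← h1]
    conv_rhs => rw [← t.sum_repr (LinearMap.BilinForm.dualBasis (LinearMap.flip B) hBnd t k)]
    rw [map_sum]
    refine Finset.sum_congr rfl fun j _ => ?_
    rw [map_smul, smul_eq_mul, mul_comm]
  have h2 : (fun r : Free c₀ → Fin s.NT => hS s b c c₀ fun j => s.uT (r j)) =
      fun r : Free c₀ → Fin s.NT => hml s.e b c fun p => s.es (comb c₀ r p) := by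
    funext r
    exact hS_comb c c₀ r
  rw [← h2]
  refine fft (s := fun _ => (-1 : ℤ) ^ P.X.dim) (fun _ => hs) (fun a b hab => absurd rfl hab)
    (fun a b => hsy _ _) hR (Fintype.card (Free c₀)) (Free c₀) (fun _ => ()) _ rfl
    (fun r hr => absurd (fun _ => rfl) hr) ?_ ?_
  · intro u v _ r
    have hX : SZ B (((-1 : ℤ) ^ P.X.dim : ℤ) : W.K) (t v) (t u) ∈ skew B := SZ_mem hsq hsy _ _
    have h1 := free_inv hb hG hP hall hc c₀ hX r
    rw [← h1]
    refine Finset.sum_congr rfl fun j _ => ?_
    rw [SZ_apply, MultilinearMap.map_update_sub, MultilinearMap.map_update_smul,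
      MultilinearMap.map_update_smul, MultilinearMap.map_update_smul, smul_smul]
    have e2 : ∀ a, (fun i => t (Function.update r j a i)) =
        Function.update (fun i => t (r i)) j (t a) := by
      intro a
      funext i
      by_cases hi : i = j
      · subst hi
        rw [Function.update_self, Function.update_self]
      · rw [Function.update_of_ne hi, Function.update_of_ne hi]
    change B (t v) (t (r j)) • hS s b c c₀ (fun i => t (Function.update r j u i)) -
      ((((-1 : ℤ) ^ P.X.dim : ℤ) : W.K) * B (t u) (t (r j))) •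
        hS s b c c₀ (fun i => t (Function.update r j v i)) = _
    rw [e2, e2]
  · intro _ hs1
    have heven : Even P.X.dim := by
      by_contra h'
      have hs1' : (-1 : ℤ) ^ P.X.dim = 1 := hs1
      rw [(Nat.not_even_iff_odd.1 h').neg_one_pow] at hs1'
      exact absurd hs1' (by decide)
    have h3 := hK heven
    rw [Module.finrank_eq_card_basis s.uT, Fintype.card_fin] at h3
    refine lt_of_le_of_lt (Finset.card_le_univ _) ?_
    rw [TH125.Nod.blk, Finset.filter_true_of_mem (fun _ _ => rfl), Finset.card_univ, Fintype.card_fin]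
    refine lt_of_le_of_lt (Fintype.card_subtype_le _) ?_
    rwa [Fintype.card_fin]

include hb in
/-- **The structure of the semi-invariant classes on products with powers.** -/
theorem mem_Tgt' (hDX : HomEqNum W P.X) (hmid : transcendental W P.X ≤ W.gr P.X P.X.dim)
    (hG : IsGalois W χ P.X ρ) (hP : IsPowAct W P n Z ρ τ υ) (hall : AllSkew (P := P) ρ τ)
    (hK : Even P.X.dim → n + 1 < Module.finrank W.K (transcendental W P.X))
    {c : W.H ((nest ops n fun _ => P).X.prod Z)} (hc : (full _ (algR υ)).Eig c) :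
    c ∈ Tgt s n Z := by
  rw [expand b c, sum_patterns]
  refine Submodule.sum_mem _ fun c₀ _ => ?_
  have h1 := gen_free' hb hDX hmid hG hP hall hK hc c₀
  have h2 : ∀ F ∈ TH125.Nod.Gen (fun _ : Fin s.NT => ())
      (Matrix.of fun i j => bil W P.X (s.uT i) (s.uT j)) (fun _ : Free c₀ => ()),
      ∑ r : Free c₀ → Fin s.NT, W.map (fst _ Z) (b (comb c₀ r)) * W.map (snd _ Z) (F r : W.H Z) ∈
        Tgt s n Z := by
    intro F hF
    induction hF using Submodule.span_induction with
    | mem F hF =>
      obtain ⟨m, e, w, rfl⟩ := hF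
      obtain ⟨ε, S, i, x, hx, h3⟩ := mq_sum (s := s) (π := prj ops n fun _ => P) hmid e
      have h4 : ∑ r : Free c₀ → Fin s.NT, W.map (fst _ Z) (b (comb c₀ r)) *
          W.map (snd _ Z) (TH125.Nod.gen (fun _ : Fin s.NT => ())
            (Matrix.of fun i j => bil W P.X (s.uT i) (s.uT j)) (fun _ : Free c₀ => ()) e w r) =
          (ε : W.K) • (W.map (fst _ Z) x * W.map (snd _ Z) w) := by
        rw [← smul_mul_assoc, ← map_smul, ← h3, map_sum, Finset.sum_mul]
        refine Finset.sum_congr rfl fun r _ => ?_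
        rw [TH125.Nod.gen, if_pos (fun _ => rfl), map_smul, map_smul, mul_smul_comm, smul_mul_assoc,
          hb]
        rfl
      rw [h4]
      exact Submodule.smul_mem _ _ (Submodule.subset_span ⟨S, i, x, w, hx, rfl⟩)
    | zero =>
      simp only [Pi.zero_apply, map_zero, mul_zero, Finset.sum_const_zero]
      exact Submodule.zero_mem _
    | add F F' _ _ hF hF' =>
      simp only [Pi.add_apply, map_add, mul_add, Finset.sum_add_distrib]
      exact Submodule.add_mem _ hF hF'
    | smul x F _ hF =>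
      simp only [Pi.smul_apply, map_smul, mul_smul_comm]
      rw [← Finset.smul_sum]
      exact Submodule.smul_mem _ _ hF
  have h3 := h2 _ h1
  simp only [coord_eq hb]
  exact h3

end free

end

end Pool.Agent.U233.TF
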